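import Pool.Agent.MP_b04567_ag.Ch.Move

open Polynomial

namespace H62q

variable {k : Type} [Field k]

/-- The cone over the curve given by the forms of degree `D` attached to `P` is cut by two forms. -/
def Cut (D : ℕ) (P : Fin 4 → k[X]) : Prop :=
  H33s.CutByTwo (H33s.cone fun i => (P i).homogenize D)

/-- No base point and injective on `k` together with the point at infinity (value `coeff D`). -/
structure Good (D : ℕ) (P : Fin 4 → k[X]) : Prop where
  pos : 0 < D
  deg : ∀ i, (P i).natDegree ≤ D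
  top : ∃ i, (P i).coeff D ≠ 0
  inj : ∀ u u' l : k, (∀ i, (P i).eval u = l * (P i).eval u') → u = u'
  inj' : ∀ u l : k, ¬ ∀ i, (P i).eval u = l * (P i).coeff D

/-- The state `(D, P)` reduces to the state `(D', P')`. -/
def Red (D : ℕ) (P : Fin 4 → k[X]) (D' : ℕ) (P' : Fin 4 → k[X]) : Prop :=
  Good D' P' ∧ (Cut D' P' → Cut D P)

/-- The function `a / X ^ N`. -/
def fv (N : ℕ) (a : k[X]) (u : k) : k := a.eval u / u ^ N

/-- Difference of `h / X ^ N` at two points. -/
def dd (N : ℕ) (h : k[X]) (u u' : k) : k := fv N h u - fv N h u'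

/-- Two different nonzero points in one fibre of `a / X ^ N`. -/
def Pair (N : ℕ) (a : k[X]) (u u' : k) : Prop :=
  u ≠ 0 ∧ u' ≠ 0 ∧ u ≠ u' ∧ fv N a u = fv N a u'

/-- Equality of unordered pairs. -/
def Same (u1 u1' u2 u2' : k) : Prop := (u1 = u2 ∧ u1' = u2') ∨ (u1 = u2' ∧ u1' = u2)

/-- Genericity of the pencil `(X ^ N, a)` with respect to `1` and `X ^ j` outside `XS`. -/
def Sig (N j : ℕ) (a : k[X]) (XS : Finset k) : Prop :=
  (∀ u u', Pair N a u u' → fv N a u ∉ XS → dd N (X ^ j) u u' ≠ 0) ∧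
  ∀ u1 u1' u2 u2', Pair N a u1 u1' → Pair N a u2 u2' → fv N a u1 = fv N a u2 → fv N a u1 ∉ XS →
    dd N 1 u1 u1' * dd N (X ^ j) u2 u2' = dd N 1 u2 u2' * dd N (X ^ j) u1 u1' →
    Same u1 u1' u2 u2'

/-- At most one node of `Y / X ^ n` in each fibre of `a / X ^ N`. -/
def One (N : ℕ) (a : k[X]) (n : ℕ) (Y : k[X]) : Prop :=
  ∀ u1 u1' u2 u2', Pair N a u1 u1' → Pair N a u2 u2' → fv N a u1 = fv N a u2 →
    dd n Y u1 u1' = 0 → dd n Y u2 u2' = 0 → Same u1 u1' u2 u2'

/-- The general cubic. -/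
noncomputable def cub (t : Fin 4 → k) : k[X] :=
  C (t 0) + C (t 1) * X + C (t 2) * X ^ 2 + C (t 3) * X ^ 3

/-- Elements of `L` algebraic over `k(G)`. -/
noncomputable def cl (k : Type) {L : Type} [Field k] [Field L] [Algebra k L] (G : Set L) :
    IntermediateField k L :=
  (algebraicClosure (IntermediateField.adjoin k G) L).restrictScalars k

/-- Every nonzero element is a root of unity. -/
def Tors (k : Type) [Field k] : Prop := ∀ y : k, y ≠ 0 → ∃ n, 0 < n ∧ y ^ n = 1

end H62q
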