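import Pool.Agent.MP_b04567_ag.Rat.Defs
import Pool.Agent.MP_1609a8_nt.H76.Weil

section PartBase

open Polynomial

namespace H62q

variable {k : Type} [Field k]

theorem base_ev0 {D : ℕ} (f : k[X]) (x : Fin 2 → k) (hx : x 1 = 0) :
    MvPolynomial.eval x (f.homogenize D) = f.coeff D * x 0 ^ D := by
  rw [Polynomial.homogenize, map_sum, Finset.sum_eq_single (D, 0)]
  · simp [MvPolynomial.eval_monomial, Finsupp.prod_fintype]
  · rintro ⟨a, b⟩ hab hne
    have hb : b ≠ 0 := by
      rintro rfl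
      apply hne
      simpa using hab
    simp [MvPolynomial.eval_monomial, Finsupp.prod_fintype, hb, hx]
  · simp

theorem base_four {α : Type} (p : α → Prop) (a b c h : α) :
    (∀ i, p (![a, b, c, h] i)) ↔ p a ∧ p b ∧ p c ∧ p h := by
  simp [Fin.forall_fin_succ]

theorem base_four' {α : Type} (p : α → Prop) (a b c h : α) :
    (∃ i, p (![a, b, c, h] i)) ↔ p a ∨ p b ∨ p c ∨ p h := by
  simp [Fin.exists_fin_succ]

theorem good_iff {D : ℕ} {a b c h : k[X]} : Good D ![a, b, c, h] ↔ 0 < D ∧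
    (a.natDegree ≤ D ∧ b.natDegree ≤ D ∧ c.natDegree ≤ D ∧ h.natDegree ≤ D) ∧
    (a.coeff D ≠ 0 ∨ b.coeff D ≠ 0 ∨ c.coeff D ≠ 0 ∨ h.coeff D ≠ 0) ∧
    (∀ u u' l : k, a.eval u = l * a.eval u' → b.eval u = l * b.eval u' →
      c.eval u = l * c.eval u' → h.eval u = l * h.eval u' → u = u') ∧
    ∀ u l : k, a.eval u = l * a.coeff D → b.eval u = l * b.coeff D → c.eval u = l * c.coeff D →
      h.eval u = l * h.coeff D → False := by
  constructor
  · intro hG
    refine ⟨hG.pos, (base_four (fun f : k[X] => f.natDegree ≤ D) a b c h).1 hG.deg,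
      (base_four' (fun f : k[X] => f.coeff D ≠ 0) a b c h).1 hG.top,
      fun u u' l h0 h1 h2 h3 => hG.inj u u' l ?_, fun u l h0 h1 h2 h3 => hG.inj' u l ?_⟩
    · exact (base_four (fun f : k[X] => f.eval u = l * f.eval u') a b c h).2 ⟨h0, h1, h2, h3⟩
    · exact (base_four (fun f : k[X] => f.eval u = l * f.coeff D) a b c h).2 ⟨h0, h1, h2, h3⟩
  · rintro ⟨h0, h1, h2, h3, h4⟩
    exact ⟨h0, (base_four (fun f : k[X] => f.natDegree ≤ D) a b c h).2 h1,
      (base_four' (fun f : k[X] => f.coeff D ≠ 0) a b c h).2 h2,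
      fun u u' l hh => h3 u u' l (hh 0) (hh 1) (hh 2) (hh 3),
      fun u l hh => h4 u l (hh 0) (hh 1) (hh 2) (hh 3)⟩

theorem cut_iff {D : ℕ} {a b c h : k[X]} : Cut D ![a, b, c, h] ↔ H33s.CutByTwo (H33s.cone
    ![a.homogenize D, b.homogenize D, c.homogenize D, h.homogenize D]) := by
  have : (fun i => (![a, b, c, h] i).homogenize D) =
      ![a.homogenize D, b.homogenize D, c.homogenize D, h.homogenize D] := by
    funext i
    fin_cases i <;> rfl
  rw [Cut, this]

theorem Red.refl {D : ℕ} {P : Fin 4 → k[X]} (h : Good D P) : Red D P D P := ⟨h, id⟩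

theorem Red.trans {D D' D'' : ℕ} {P P' P'' : Fin 4 → k[X]} (h1 : Red D P D' P')
    (h2 : Red D' P' D'' P'') : Red D P D'' P'' := ⟨h2.1, fun h => h1.2 (h2.2 h)⟩

theorem red_perm [IsAlgClosed k] {D : ℕ} {P : Fin 4 → k[X]} (h : Good D P) (e : Equiv.Perm (Fin 4))
    (Q : Fin 4 → k[X]) (hQ : ∀ i, Q i = P (e i)) : Red D P D Q := by
  have hP : ∀ i, P i = Q (e.symm i) := fun i => by rw [hQ, Equiv.apply_symm_apply]
  refine ⟨⟨h.pos, fun i => hQ i ▸ h.deg _, ?_, fun u u' l hh => h.inj u u' l fun i => ?_,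
    fun u l hh => h.inj' u l fun i => ?_⟩, fun hc => ?_⟩
  · obtain ⟨i, hi⟩ := h.top
    exact ⟨e.symm i, hP i ▸ hi⟩
  · rw [hP]; exact hh _
  · rw [hP]; exact hh _
  · have := H33s.cutByTwo_cone_perm _ e.symm hc
    simp only [← hP] at this
    exact this

theorem red_swap23 [IsAlgClosed k] {D : ℕ} {a b c h : k[X]} (hG : Good D ![a, b, c, h]) :
    Red D ![a, b, c, h] D ![a, b, h, c] :=
  red_perm hG (Equiv.swap 2 3) _ fun i => by fin_cases i <;> rfl

theorem red_swap13 [IsAlgClosed k] {D : ℕ} {a b c h : k[X]} (hG : Good D ![a, b, c, h]) :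
    Red D ![a, b, c, h] D ![a, h, c, b] :=
  red_perm hG (Equiv.swap 1 3) _ fun i => by fin_cases i <;> rfl

theorem red_swap03 [IsAlgClosed k] {D : ℕ} {a b c h : k[X]} (hG : Good D ![a, b, c, h]) :
    Red D ![a, b, c, h] D ![h, b, c, a] :=
  red_perm hG (Equiv.swap 0 3) _ fun i => by fin_cases i <;> rfl

theorem red_lin [IsAlgClosed k] {D : ℕ} {a b c h : k[X]} (hG : Good D ![a, b, c, h])
    (α β γ δ : k) (hδ : δ ≠ 0) :
    Red D ![a, b, c, h] D ![a, b, c, C α * a + C β * b + C γ * c + C δ * h] := by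
  obtain ⟨h0, ⟨d0, d1, d2, d3⟩, h2, h3, h4⟩ := good_iff.1 hG
  refine ⟨good_iff.2 ⟨h0, ⟨d0, d1, d2, ?_⟩, ?_, fun u u' l e0 e1 e2 e3 => h3 u u' l e0 e1 e2 ?_,
    fun u l e0 e1 e2 e3 => h4 u l e0 e1 e2 ?_⟩, fun hc => ?_⟩
  · exact natDegree_add_le_of_degree_le (natDegree_add_le_of_degree_le
      (natDegree_add_le_of_degree_le ((natDegree_C_mul_le _ _).trans d0)
        ((natDegree_C_mul_le _ _).trans d1)) ((natDegree_C_mul_le _ _).trans d2))
      ((natDegree_C_mul_le _ _).trans d3)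
  · by_contra hh
    push Not at hh
    obtain ⟨e0, e1, e2, e3⟩ := hh
    simp only [coeff_add, coeff_C_mul, e0, e1, e2, mul_zero, zero_add, mul_eq_zero, hδ,
      false_or] at e3
    simp [e0, e1, e2, e3] at h2
  · simp only [eval_add, eval_mul, eval_C] at e3
    apply mul_left_cancel₀ hδ
    linear_combination e3 - α * e0 - β * e1 - γ * e2
  · simp only [eval_add, eval_mul, eval_C, coeff_add, coeff_C_mul] at e3
    apply mul_left_cancel₀ hδ
    linear_combination e3 - α * e0 - β * e1 - γ * e2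
  · rw [cut_iff] at hc ⊢
    let Φ : Fin 4 → MvPolynomial (Fin 4) k := ![.X 0, .X 1, .X 2,
      .C α * .X 0 + .C β * .X 1 + .C γ * .X 2 + .C δ * .X 3]
    have hΦ : ∀ x : Fin 4 → k, (fun i => MvPolynomial.eval x (Φ i)) =
        ![x 0, x 1, x 2, α * x 0 + β * x 1 + γ * x 2 + δ * x 3] := by
      intro x
      funext i
      fin_cases i <;> simp [Φ]
    have hX : ∀ (r : k) (i : Fin 4),
        (MvPolynomial.C r * MvPolynomial.X i : MvPolynomial (Fin 4) k).IsHomogeneous 1 :=
      fun r i => (MvPolynomial.isHomogeneous_X _ _).C_mul r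
    have := hc.preimage Φ one_pos (fun i => by
        fin_cases i
        · exact MvPolynomial.isHomogeneous_X _ _
        · exact MvPolynomial.isHomogeneous_X _ _
        · exact MvPolynomial.isHomogeneous_X _ _
        · exact (((hX α 0).add (hX β 1)).add (hX γ 2)).add (hX δ 3)) (fun y => by
        refine ⟨![y 0, y 1, y 2, (y 3 - α * y 0 - β * y 1 - γ * y 2) / δ], ?_⟩
        simp only [hΦ]
        funext i
        fin_cases i <;> simp
        field_simp
        ring)
    convert this using 1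
    ext x
    simp only [H33s.cone, Set.mem_range, Set.mem_preimage, hΦ]
    constructor
    · rintro ⟨P, rfl⟩
      refine ⟨P, funext fun i => ?_⟩
      fin_cases i <;> simp
    · rintro ⟨P, hP⟩
      have e0 := congrFun hP 0
      have e1 := congrFun hP 1
      have e2 := congrFun hP 2
      have e3 := congrFun hP 3
      simp only [Matrix.cons_val_zero, Matrix.cons_val_one, Matrix.cons_val, homogenize_add,
        homogenize_C_mul, map_add, map_mul, MvPolynomial.eval_C] at e0 e1 e2 e3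
      have e4 : MvPolynomial.eval P (h.homogenize D) = x 3 := by
        apply mul_left_cancel₀ hδ
        linear_combination e3 - α * e0 - β * e1 - γ * e2
      refine ⟨P, funext fun i => ?_⟩
      fin_cases i <;> simp [e0, e1, e2, e4]

theorem coeff_pow_top {D : ℕ} {a : k[X]} (ha : a.natDegree ≤ D) (q : ℕ) :
    (a ^ q).coeff (D * q) = a.coeff D ^ q := by
  rw [mul_comm, coeff_pow_of_natDegree_le ha]

theorem base_hom_pow {D : ℕ} {a : k[X]} (ha : a.natDegree ≤ D) (q : ℕ) :
    (a ^ q).homogenize (D * q) = a.homogenize D ^ q :=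
  homogenize_eq_of_isHomogeneous ((isHomogeneous_homogenize a).pow q)
    (by rw [map_pow, aeval_homogenize_X_one _ ha])

theorem red_pow [IsAlgClosed k] (p : ℕ) [Fact p.Prime] [CharP k p] {D : ℕ} {a b c h : k[X]}
    (hG : Good D ![a, b, c, h]) (i : ℕ) :
    Red D ![a, b, c, h] (D * p ^ i) ![a ^ p ^ i, b ^ p ^ i, c ^ p ^ i, h ^ p ^ i] := by
  obtain ⟨h0, ⟨d0, d1, d2, d3⟩, h2, h3, h4⟩ := good_iff.1 hG
  have hq : 0 < p ^ i := pow_pos (Fact.out : p.Prime).pos _
  have hd : ∀ f : k[X], f.natDegree ≤ D → (f ^ p ^ i).natDegree ≤ D * p ^ i := fun f hf =>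
    natDegree_pow_le.trans (by rw [mul_comm]; exact Nat.mul_le_mul_right _ hf)
  refine ⟨good_iff.2 ⟨Nat.mul_pos h0 hq, ⟨hd _ d0, hd _ d1, hd _ d2, hd _ d3⟩, ?_,
    fun u u' l e0 e1 e2 e3 => ?_, fun u l e0 e1 e2 e3 => ?_⟩, fun hc => ?_⟩
  · rw [coeff_pow_top d0, coeff_pow_top d1, coeff_pow_top d2, coeff_pow_top d3]
    simpa only [ne_eq, pow_eq_zero_iff hq.ne'] using h2
  · obtain ⟨m, rfl⟩ := IsAlgClosed.exists_pow_nat_eq l hq
    simp only [eval_pow, ← mul_pow] at e0 e1 e2 e3
    exact h3 u u' m (H33s.pow_q_inj p i e0) (H33s.pow_q_inj p i e1) (H33s.pow_q_inj p i e2)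
      (H33s.pow_q_inj p i e3)
  · obtain ⟨m, rfl⟩ := IsAlgClosed.exists_pow_nat_eq l hq
    rw [coeff_pow_top d0] at e0
    rw [coeff_pow_top d1] at e1
    rw [coeff_pow_top d2] at e2
    rw [coeff_pow_top d3] at e3
    simp only [eval_pow, ← mul_pow] at e0 e1 e2 e3
    exact h4 u m (H33s.pow_q_inj p i e0) (H33s.pow_q_inj p i e1) (H33s.pow_q_inj p i e2)
      (H33s.pow_q_inj p i e3)
  · rw [cut_iff, base_hom_pow d0, base_hom_pow d1, base_hom_pow d2, base_hom_pow d3] at hc
    rw [cut_iff, ← H33s.cutByTwo_cone_pow_iff p _ i]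
    convert hc using 2
    funext j
    fin_cases j <;> rfl

theorem base_comp_deg {D : ℕ} {f : k[X]} (hf : f.natDegree ≤ D) (r : k) :
    (f.comp (X + C r)).natDegree ≤ D := by
  rw [← taylor_apply, natDegree_taylor]; exact hf

theorem base_comp_top {D : ℕ} {f : k[X]} (hf : f.natDegree ≤ D) (r : k) :
    (f.comp (X + C r)).coeff D = f.coeff D := by
  rw [← taylor_apply]
  rcases hf.lt_or_eq with h | h
  · rw [coeff_eq_zero_of_natDegree_lt h,
      coeff_eq_zero_of_natDegree_lt (by rwa [natDegree_taylor])]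
  · rw [← h, coeff_taylor_natDegree, coeff_natDegree]

theorem base_ev_comp {D : ℕ} {f : k[X]} (hf : f.natDegree ≤ D) (r : k) (x : Fin 2 → k) :
    MvPolynomial.eval x ((f.comp (X + C r)).homogenize D) =
      MvPolynomial.eval ![x 0 + r * x 1, x 1] (f.homogenize D) := by
  by_cases hx : x 1 = 0
  · rw [base_ev0 _ _ hx, base_ev0 _ _ (by simpa using hx), base_comp_top hf]
    simp [hx]
  · rw [eval_homogenize (base_comp_deg hf r) _ hx, eval_homogenize hf _ (by simpa using hx)]
    simp only [eval_comp, eval_add, eval_X, eval_C, Matrix.cons_val_zero, Matrix.cons_val_one]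
    congr 2
    field_simp

theorem red_taylor [IsAlgClosed k] {D : ℕ} {a b c h : k[X]} (hG : Good D ![a, b, c, h]) (r : k) :
    Red D ![a, b, c, h] D
      ![a.comp (X + C r), b.comp (X + C r), c.comp (X + C r), h.comp (X + C r)] := by
  obtain ⟨h0, ⟨d0, d1, d2, d3⟩, h2, h3, h4⟩ := good_iff.1 hG
  refine ⟨good_iff.2 ⟨h0, ⟨base_comp_deg d0 r, base_comp_deg d1 r, base_comp_deg d2 r,
    base_comp_deg d3 r⟩, ?_, fun u u' l e0 e1 e2 e3 => ?_, fun u l e0 e1 e2 e3 => ?_⟩,
    fun hc => ?_⟩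
  · rwa [base_comp_top d0, base_comp_top d1, base_comp_top d2, base_comp_top d3]
  · simp only [eval_comp, eval_add, eval_X, eval_C] at e0 e1 e2 e3
    exact add_right_cancel (h3 _ _ l e0 e1 e2 e3)
  · rw [base_comp_top d0] at e0
    rw [base_comp_top d1] at e1
    rw [base_comp_top d2] at e2
    rw [base_comp_top d3] at e3
    simp only [eval_comp, eval_add, eval_X, eval_C] at e0 e1 e2 e3
    exact h4 _ l e0 e1 e2 e3
  · rw [cut_iff] at hc ⊢
    convert hc using 1
    ext x
    simp only [H33s.cone, Set.mem_range]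
    constructor
    · rintro ⟨P, rfl⟩
      refine ⟨![P 0 - r * P 1, P 1], funext fun i => ?_⟩
      have hP : ![P 0, P 1] = P := by
        funext j
        fin_cases j <;> rfl
      fin_cases i <;>
        simp [base_ev_comp d0, base_ev_comp d1, base_ev_comp d2, base_ev_comp d3, hP]
    · rintro ⟨P, rfl⟩
      refine ⟨![P 0 + r * P 1, P 1], funext fun i => ?_⟩
      fin_cases i <;> simp [base_ev_comp d0, base_ev_comp d1, base_ev_comp d2, base_ev_comp d3]

theorem mv [IsAlgClosed k] (p : ℕ) [Fact p.Prime] [CharP k p] {D : ℕ} {a b c h : k[X]}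
    (hG : Good D ![a, b, c, h]) (h' : k[X]) (hd : h'.natDegree ≤ D)
    (hb : ∀ u, a.eval u ≠ 0 ∨ b.eval u ≠ 0 ∨ c.eval u ≠ 0)
    (ht : a.coeff D ≠ 0 ∨ b.coeff D ≠ 0 ∨ c.coeff D ≠ 0)
    (h1 : ∀ u u' l, u ≠ u' → a.eval u = l * a.eval u' → b.eval u = l * b.eval u' →
      c.eval u = l * c.eval u' → h'.eval u - l * h'.eval u' = h.eval u - l * h.eval u')
    (h2 : ∀ u l, a.eval u = l * a.coeff D → b.eval u = l * b.coeff D → c.eval u = l * c.coeff D →
      h'.eval u - l * h'.coeff D = h.eval u - l * h.coeff D) :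
    Red D ![a, b, c, h] D ![a, b, c, h'] := by
  obtain ⟨h0, ⟨d0, d1, d2, d3⟩, -, h3, h4⟩ := good_iff.1 hG
  refine ⟨good_iff.2 ⟨h0, ⟨d0, d1, d2, hd⟩, by tauto, fun u u' l e0 e1 e2 e3 => ?_,
    fun u l e0 e1 e2 e3 => ?_⟩, fun hc => ?_⟩
  · by_contra hne
    have := h1 u u' l hne e0 e1 e2
    exact hne (h3 u u' l e0 e1 e2 (by linear_combination e3 - this))
  · have := h2 u l e0 e1 e2
    exact h4 u l e0 e1 e2 (by linear_combination e3 - this)
  rw [cut_iff] at hc ⊢
  have hz : ∀ x : Fin 2 → k, MvPolynomial.eval x (a.homogenize D) = 0 →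
      MvPolynomial.eval x (b.homogenize D) = 0 → MvPolynomial.eval x (c.homogenize D) = 0 →
      x = 0 := by
    intro x x0 x1 x2
    by_cases hx : x 1 = 0
    · rw [base_ev0 _ _ hx] at x0 x1 x2
      have : x 0 ^ D = 0 := by
        by_contra hne
        simp only [mul_eq_zero, hne, or_false] at x0 x1 x2
        tauto
      funext j
      fin_cases j
      · exact pow_eq_zero_iff h0.ne' |>.1 this
      · exact hx
    · rw [eval_homogenize d0 _ hx] at x0
      rw [eval_homogenize d1 _ hx] at x1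
      rw [eval_homogenize d2 _ hx] at x2
      simp only [mul_eq_zero, pow_ne_zero D hx, or_false] at x0 x1 x2
      have := hb (x 0 / x 1)
      tauto
  have mixed : ∀ x y : Fin 2 → k, x 1 ≠ 0 → y 1 = 0 →
      MvPolynomial.eval x (a.homogenize D) = MvPolynomial.eval y (a.homogenize D) →
      MvPolynomial.eval x (b.homogenize D) = MvPolynomial.eval y (b.homogenize D) →
      MvPolynomial.eval x (c.homogenize D) = MvPolynomial.eval y (c.homogenize D) →
      MvPolynomial.eval x (h.homogenize D) - MvPolynomial.eval y (h.homogenize D) =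
        MvPolynomial.eval x (h'.homogenize D) - MvPolynomial.eval y (h'.homogenize D) := by
    intro x y hx hy x0 x1 x2
    rw [eval_homogenize d0 _ hx, base_ev0 _ _ hy] at x0
    rw [eval_homogenize d1 _ hx, base_ev0 _ _ hy] at x1
    rw [eval_homogenize d2 _ hx, base_ev0 _ _ hy] at x2
    rw [eval_homogenize d3 _ hx, eval_homogenize hd _ hx, base_ev0 _ _ hy, base_ev0 _ _ hy]
    have hs := pow_ne_zero D hx
    have := h2 (x 0 / x 1) (y 0 ^ D / x 1 ^ D) (by field_simp; linear_combination x0)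
      (by field_simp; linear_combination x1) (by field_simp; linear_combination x2)
    field_simp at this
    linear_combination -this
  refine H33s.cutByTwo_move p _ _ _ _ _ h0 (isHomogeneous_homogenize _)
    (isHomogeneous_homogenize _) (isHomogeneous_homogenize _) (isHomogeneous_homogenize _)
    (isHomogeneous_homogenize _) hz (fun x y x0 x1 x2 => ?_) hc
  by_cases hx : x 1 = 0
  · by_cases hy : y 1 = 0
    · simp only [base_ev0 _ _ hx, base_ev0 _ _ hy] at x0 x1 x2 ⊢
      have : x 0 ^ D = y 0 ^ D := by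
        rcases ht with e | e | e
        · exact mul_left_cancel₀ e x0
        · exact mul_left_cancel₀ e x1
        · exact mul_left_cancel₀ e x2
      rw [this, sub_self, sub_self]
    · linear_combination -mixed y x hy hx x0.symm x1.symm x2.symm
  · by_cases hy : y 1 = 0
    · exact mixed x y hx hy x0 x1 x2
    · rw [eval_homogenize d0 _ hx, eval_homogenize d0 _ hy] at x0
      rw [eval_homogenize d1 _ hx, eval_homogenize d1 _ hy] at x1
      rw [eval_homogenize d2 _ hx, eval_homogenize d2 _ hy] at x2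
      rw [eval_homogenize d3 _ hx, eval_homogenize hd _ hx, eval_homogenize d3 _ hy,
        eval_homogenize hd _ hy]
      have hs := pow_ne_zero D hx
      by_cases huu : x 0 / x 1 = y 0 / y 1
      · rw [← huu] at x0 x1 x2 ⊢
        have : x 1 ^ D = y 1 ^ D := by
          rcases hb (x 0 / x 1) with e | e | e
          · exact mul_left_cancel₀ e x0
          · exact mul_left_cancel₀ e x1
          · exact mul_left_cancel₀ e x2
        rw [this, sub_self, sub_self]
      · generalize x 0 / x 1 = u at *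
        generalize y 0 / y 1 = u' at *
        have := h1 u u' (y 1 ^ D / x 1 ^ D) huu (by field_simp; linear_combination x0)
          (by field_simp; linear_combination x1) (by field_simp; linear_combination x2)
        field_simp at this
        linear_combination -this

theorem pmv [IsAlgClosed k] (p : ℕ) [Fact p.Prime] [CharP k p] {D N : ℕ} {a c h : k[X]}
    (hG : Good D ![X ^ N, a, c, h]) (hN : 0 < N) (hND : N < D) (ha : a.eval 0 ≠ 0)
    (ht : a.coeff D ≠ 0 ∨ c.coeff D ≠ 0) (h' : k[X]) (hd : h'.natDegree ≤ D)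
    (h1 : ∀ u u', Pair N a u u' → dd N c u u' = 0 → dd N h' u u' = dd N h u u')
    (h2 : ∀ l, a.eval 0 = l * a.coeff D → c.eval 0 = l * c.coeff D →
      h'.eval 0 - l * h'.coeff D = h.eval 0 - l * h.coeff D) :
    Red D ![X ^ N, a, c, h] D ![X ^ N, a, c, h'] := by
  refine mv p hG h' hd (fun u => ?_) (Or.inr ht) (fun u u' l hne e0 e1 e2 => ?_)
    (fun u l e0 e1 e2 => ?_)
  · by_cases hu : u = 0
    · exact Or.inr (Or.inl (hu ▸ ha))
    · exact Or.inl (by simpa using fun h => absurd h hu)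
  · simp only [eval_pow, eval_X] at e0
    have hu' : u' ≠ 0 := by
      rintro rfl
      rw [zero_pow hN.ne', mul_zero, pow_eq_zero_iff hN.ne'] at e0
      exact hne e0
    have hu : u ≠ 0 := by
      rintro rfl
      rw [zero_pow hN.ne'] at e0
      have hl : l = 0 := (mul_eq_zero.1 e0.symm).resolve_right (pow_ne_zero _ hu')
      rw [hl, zero_mul] at e1
      exact ha e1
    have hs := pow_ne_zero N hu
    have hs' := pow_ne_zero N hu'
    have hl : l = u ^ N / u' ^ N := by field_simp; exact e0.symm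
    have := h1 u u' ⟨hu, hu', hne, by rw [fv, fv, e1, hl]; field_simp⟩
      (by rw [dd, fv, fv, e2, hl]; field_simp; ring)
    simp only [dd, fv] at this
    rw [hl]
    field_simp at this ⊢
    linear_combination this
  · rw [coeff_X_pow, if_neg hND.ne', mul_zero, eval_pow, eval_X, pow_eq_zero_iff hN.ne'] at e0
    subst e0
    exact h2 l e1 e2

theorem Good.pair_ne {D N : ℕ} {a c h : k[X]} (hG : Good D ![X ^ N, a, c, h]) {u u' : k}
    (hp : Pair N a u u') : dd N c u u' ≠ 0 ∨ dd N h u u' ≠ 0 := by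
  obtain ⟨-, -, -, h3, -⟩ := good_iff.1 hG
  obtain ⟨hu, hu', hne, hf⟩ := hp
  by_contra hh
  push Not at hh
  obtain ⟨e1, e2⟩ := hh
  have hs := pow_ne_zero N hu
  have hs' := pow_ne_zero N hu'
  simp only [dd, fv] at hf e1 e2
  refine hne (h3 u u' (u ^ N / u' ^ N) ?_ ?_ ?_ ?_)
  · simp only [eval_pow, eval_X]
    field_simp
  · field_simp at hf ⊢
    linear_combination hf
  · field_simp at e1 ⊢
    linear_combination e1
  · field_simp at e2 ⊢
    linear_combination e2

theorem fv_pow (N : ℕ) (a : k[X]) (q : ℕ) (u : k) : fv (N * q) (a ^ q) u = fv N a u ^ q := by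
  rw [fv, fv, eval_pow, pow_mul, div_pow]

theorem dd_pow (p : ℕ) [Fact p.Prime] [CharP k p] (N : ℕ) (a : k[X]) (i : ℕ) (u u' : k) :
    dd (N * p ^ i) (a ^ p ^ i) u u' = dd N a u u' ^ p ^ i := by
  rw [dd, dd, fv_pow, fv_pow, sub_pow_char_pow]

theorem pair_pow (p : ℕ) [Fact p.Prime] [CharP k p] (N : ℕ) (a : k[X]) (i : ℕ) (u u' : k) :
    Pair (N * p ^ i) (a ^ p ^ i) u u' ↔ Pair N a u u' := by
  simp only [Pair, fv_pow]
  exact ⟨fun h => ⟨h.1, h.2.1, h.2.2.1, H33s.pow_q_inj p i h.2.2.2⟩,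
    fun h => ⟨h.1, h.2.1, h.2.2.1, by rw [h.2.2.2]⟩⟩

end H62q

end PartBase

section PartEnd

open Polynomial

namespace H62q

variable {k : Type} [Field k]

/-- The plane monomial curve `(s^q t^(D-q), l t^D, s^D, 0)` is cut by two forms. -/
theorem end_plane [IsAlgClosed k] (p : ℕ) [Fact p.Prime] [CharP k p] {D i : ℕ} {l : k}
    (hi : p ^ i < D) (hl : l ≠ 0) : Cut D ![X ^ p ^ i, C l, X ^ D, (0 : k[X])] := by
  have hq : 0 < p ^ i := pow_pos (Fact.out : p.Prime).pos _
  have hD : 0 < D := hq.trans hi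
  obtain ⟨r, hr⟩ : ∃ r, D = p ^ i + (r + 1) := ⟨D - p ^ i - 1, by omega⟩
  have hr' : D - p ^ i = r + 1 := by omega
  have hev : ∀ P : Fin 2 → k, (fun j : Fin 4 => MvPolynomial.eval P
      ((![X ^ p ^ i, C l, X ^ D, (0 : k[X])] j).homogenize D)) =
      ![P 0 ^ p ^ i * P 1 ^ (r + 1), l * P 1 ^ D, P 0 ^ D, 0] := fun P => by
    funext j
    fin_cases j
    · simp [homogenize_X_pow hi.le, hr']
    · simp
    · simp [homogenize_X_pow (le_refl D)]
    · simp
  refine ⟨MvPolynomial.X 3, MvPolynomial.C (l ^ (r + 1)) * MvPolynomial.X 0 ^ D -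
    MvPolynomial.X 2 ^ p ^ i * MvPolynomial.X 1 ^ (r + 1), 1, D, one_pos, hD,
    MvPolynomial.X_ne_zero _, fun h0 => ?_, MvPolynomial.isHomogeneous_X _ _, ?_, ?_⟩
  · have := congrArg (MvPolynomial.eval ![1, 0, 0, 0]) h0
    simp [hl] at this
  · refine MvPolynomial.IsHomogeneous.sub ?_ ?_
    · exact (MvPolynomial.isHomogeneous_X_pow _ _).C_mul _
    · rw [hr]
      exact (MvPolynomial.isHomogeneous_X_pow _ _).mul (MvPolynomial.isHomogeneous_X_pow _ _)
  · ext x
    simp only [H33s.cone, hev, Set.mem_range, Set.mem_ofPred_eq, map_sub, map_mul, map_pow,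
      MvPolynomial.eval_X, MvPolynomial.eval_C, sub_eq_zero]
    constructor
    · rintro ⟨P, rfl⟩
      refine ⟨rfl, ?_⟩
      show l ^ (r + 1) * (P 0 ^ p ^ i * P 1 ^ (r + 1)) ^ D =
        (P 0 ^ D) ^ p ^ i * (l * P 1 ^ D) ^ (r + 1)
      rw [mul_pow, mul_pow, ← pow_mul, ← pow_mul, ← pow_mul, ← pow_mul, mul_comm (p ^ i) D,
        mul_comm (r + 1) D]
      ring
    · rintro ⟨h3, h⟩
      by_cases h1 : x 1 = 0
      · obtain ⟨s, hs⟩ := IsAlgClosed.exists_pow_nat_eq (x 2) hD
        have h0 : x 0 = 0 := by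
          rw [h1, zero_pow (Nat.succ_ne_zero r), mul_zero] at h
          exact pow_eq_zero_iff hD.ne' |>.1 ((mul_eq_zero.1 h).resolve_left (pow_ne_zero _ hl))
        refine ⟨![s, 0], funext fun j => ?_⟩
        fin_cases j <;> simp [h0, h1, h3, hs, hD.ne']
      · obtain ⟨t, ht⟩ := IsAlgClosed.exists_pow_nat_eq (x 1 / l) hD
        have ht0 : t ≠ 0 := by
          rintro rfl
          rw [zero_pow hD.ne'] at ht
          exact div_ne_zero h1 hl ht.symm
        obtain ⟨s, hs⟩ := IsAlgClosed.exists_pow_nat_eq (x 0 / t ^ (r + 1)) hq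
        have e0 : s ^ p ^ i * t ^ (r + 1) = x 0 := by rw [hs]; field_simp
        have e1 : l * t ^ D = x 1 := by rw [ht]; field_simp
        have e2 : s ^ D = x 2 := by
          refine H33s.pow_q_inj p i (mul_right_cancel₀ (pow_ne_zero (r + 1) h1) ?_)
          rw [← h, ← e0, ← e1, mul_pow, mul_pow, ← pow_mul, ← pow_mul, ← pow_mul, ← pow_mul,
            mul_comm (p ^ i) D, mul_comm (r + 1) D]
          ring
        refine ⟨![s, t], funext fun j => ?_⟩
        fin_cases j <;> simp [e0, e1, e2, h3]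

/-- `(X ^ q, C l, c)` has no nodes, so the last entry is free. -/
theorem end_mv [IsAlgClosed k] (p : ℕ) [Fact p.Prime] [CharP k p] {D i : ℕ} {l : k} {c h : k[X]}
    (hG : Good D ![X ^ p ^ i, C l, c, h]) (hl : l ≠ 0) (hc : c.coeff D ≠ 0) (h' : k[X])
    (hd : h'.natDegree ≤ D) : Red D ![X ^ p ^ i, C l, c, h] D ![X ^ p ^ i, C l, c, h'] := by
  refine mv p hG h' hd (fun u => Or.inr (Or.inl (by rwa [eval_C]))) (Or.inr (Or.inr hc))
    (fun u u' m hu h1 h2 _ => absurd ?_ hu) (fun u m _ h2 _ => absurd ?_ hl)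
  · rw [eval_C, eval_C] at h2
    have hm : m = 1 := mul_right_cancel₀ hl (by rw [← h2, one_mul])
    rw [hm, one_mul, eval_pow, eval_pow, eval_X, eval_X] at h1
    exact H33s.pow_q_inj p i h1
  · rwa [eval_C, coeff_C, if_neg hG.pos.ne', mul_zero] at h2

theorem cut_end [IsAlgClosed k] (p : ℕ) [Fact p.Prime] [CharP k p] {D i : ℕ} {l : k}
    {c h : k[X]}
    (hG : Good D ![X ^ p ^ i, C l, c, h]) (hi : p ^ i < D) (hl : l ≠ 0) (hc : c.coeff D ≠ 0) :
    Cut D ![X ^ p ^ i, C l, c, h] := by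
  have r1 := end_mv p hG hl hc (X ^ D) (natDegree_X_pow D).le
  have r2 := red_swap23 r1.1
  have r3 := end_mv p r2.1 hl (by rw [coeff_X_pow_self]; exact one_ne_zero) 0
    (by rw [natDegree_zero]; exact Nat.zero_le D)
  exact r1.2 (r2.2 (r3.2 (end_plane p hi hl)))


end H62q

end PartEnd

section PartGen

open Polynomial

namespace H62q

variable {k : Type} [Field k]

theorem gen_mem_cl {L : Type} [Field L] [Algebra k L] {G : Set L} {x : L} :
    x ∈ cl k G ↔ IsAlgebraic (IntermediateField.adjoin k G) x := by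
  unfold cl
  rw [IntermediateField.mem_restrictScalars, mem_algebraicClosure_iff]

theorem subset_cl {L : Type} [Field L] [Algebra k L] {G : Set L} {x : L} (hx : x ∈ G) :
    x ∈ cl k G := by
  rw [gen_mem_cl]
  exact isAlgebraic_algebraMap
    (⟨x, IntermediateField.subset_adjoin k G hx⟩ : IntermediateField.adjoin k G)

theorem root_mem {L : Type} [Field L] [Algebra k L] {G : Set L} (Q : L[X]) (hQ : Q ≠ 0)
    (hc : ∀ n, Q.coeff n ∈ cl k G) {y : L} (hy : Q.eval y = 0) : y ∈ cl k G := by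
  have hl : Q ∈ lifts (algebraMap (algebraicClosure (IntermediateField.adjoin k G) L) L) := by
    rw [lifts_iff_coeff_lifts]
    intro n
    exact ⟨⟨Q.coeff n, hc n⟩, rfl⟩
  obtain ⟨Q1, hQ1⟩ := (mem_lifts _).1 hl
  have halg : IsAlgebraic (algebraicClosure (IntermediateField.adjoin k G) L) y := by
    refine ⟨Q1, fun h0 => hQ (by rw [← hQ1, h0, Polynomial.map_zero]), ?_⟩
    rw [aeval_def, ← eval_map, hQ1, hy]
  rw [gen_mem_cl]
  exact halg.restrictScalars _

theorem aeval_mem {L : Type} [Field L] [Algebra k L] (S : IntermediateField k L) (P : k[X])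
    {x : L} (hx : x ∈ S) : aeval x P ∈ S := by
  rw [aeval_eq_sum_range]
  exact sum_mem fun i _ => S.smul_mem (pow_mem hx i)

theorem coeffs_mem {L : Type} [Field L] [Algebra k L] (S : IntermediateField k L) {n : ℕ}
    (h : L[X]) (hd : h.degree < n) (u : Fin n → L) (hi : Function.Injective u)
    (hu : ∀ i, u i ∈ S) (hv : ∀ i, h.eval (u i) ∈ S) (m : ℕ) : h.coeff m ∈ S := by
  classical
  let u' : Fin n → S := fun i => ⟨u i, hu i⟩
  let r : Fin n → S := fun i => ⟨h.eval (u i), hv i⟩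
  have hi' : Function.Injective u' := fun i j hij => hi (congrArg Subtype.val hij)
  let h' : S[X] := Lagrange.interpolate Finset.univ u' r
  have hd' : h'.degree < n := by
    have := Lagrange.degree_interpolate_lt (s := Finset.univ) (v := u') r hi'.injOn
    rwa [Finset.card_univ, Fintype.card_fin] at this
  have he : h'.map (algebraMap S L) = h := by
    refine Polynomial.eq_of_degrees_lt_of_eval_index_eq Finset.univ (v := u) hi.injOn ?_ ?_ ?_
    · rw [Finset.card_univ, Fintype.card_fin]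
      exact lt_of_le_of_lt degree_map_le hd'
    · rw [Finset.card_univ, Fintype.card_fin]
      exact hd
    · intro i _
      have h1 : h'.eval (u' i) = r i :=
        Lagrange.eval_interpolate_at_node r hi'.injOn (Finset.mem_univ i)
      have h2 : u i = algebraMap S L (u' i) := rfl
      rw [eval_map, h2, eval₂_hom, h1]
      rfl
  rw [← he, coeff_map]
  exact (h'.coeff m).2

theorem cub_mem {L : Type} [Field L] [Algebra k L] (S : IntermediateField k L) {n : ℕ}
    (t : Fin 4 → L) (u : Fin n → L) (hi : Function.Injective u) (hu : ∀ i, u i ∈ S)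
    (hv : ∀ i, (cub t).eval (u i) ∈ S) (ht : ∀ m : Fin 4, n ≤ m.val → t m ∈ S) (m : Fin 4) :
    t m ∈ S := by
  classical
  by_cases hm : n ≤ m.val
  · exact ht m hm
  let lo : L[X] := ∑ j : Fin 4, if j.val < n then monomial j.val (t j) else 0
  have hlo : lo.degree < n := by
    refine mem_degreeLT.1 (Submodule.sum_mem _ fun j _ => ?_)
    split_ifs with hj
    · exact mem_degreeLT.2 (lt_of_le_of_lt (degree_monomial_le _ _) (by exact_mod_cast hj))
    · exact Submodule.zero_mem _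
  have hev : ∀ x : L, lo.eval x =
      (cub t).eval x - ∑ j : Fin 4, if j.val < n then 0 else t j * x ^ j.val := by
    intro x
    have h1 : (cub t).eval x = ∑ j : Fin 4, t j * x ^ j.val := by
      simp [cub, Fin.sum_univ_four]
    rw [h1, ← Finset.sum_sub_distrib, eval_finsetSum]
    refine Finset.sum_congr rfl fun j _ => ?_
    split_ifs <;> simp
  have hc := coeffs_mem S lo hlo u hi hu (fun i => by
    rw [hev]
    refine sub_mem (hv i) (sum_mem fun j _ => ?_)
    split_ifs with hj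
    · exact zero_mem _
    · exact mul_mem (ht j (by omega)) (pow_mem (hu i) _)) m.val
  have h2 : lo.coeff m.val = t m := by
    rw [finsetSum_coeff, Finset.sum_eq_single m]
    · rw [if_pos (by omega), coeff_monomial_same]
    · intro j _ hj
      split_ifs
      · rw [coeff_monomial, if_neg (fun h => hj (Fin.ext h))]
      · rfl
    · intro h
      exact absurd (Finset.mem_univ m) h
  rwa [h2] at hc

theorem dep {L ι : Type} [Field L] [Algebra k L] [Fintype ι] (τ : ι → L) (G : Finset L)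
    (hG : G.card < Fintype.card ι) (h : ∀ i, τ i ∈ cl k (G : Set L)) :
    ¬ AlgebraicIndependent k τ := by
  intro hx
  let M := AlgebraicIndependent.matroid k L
  have hinj : Function.Injective τ := hx.injective
  have hI : M.Indep (Set.range τ) := by
    rw [AlgebraicIndependent.matroid_indep_iff]
    exact hx.to_subtype_range
  have hsub : Set.range τ ⊆ M.closure (G : Set L) := by
    rintro _ ⟨a, rfl⟩
    rw [AlgebraicIndependent.matroid_closure_eq]
    exact IntermediateField.isAlgebraic_adjoin_iff.1 (gen_mem_cl.1 (h a))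
  have h1 := M.eRk_mono hsub
  rw [hI.eRk_eq_encard, M.eRk_closure_eq] at h1
  have h2 := hinj.encard_range.trans (h1.trans (M.eRk_le_encard (G : Set L)))
  rw [Set.encard_coe_eq_coe_finsetCard, ENat.card_eq_coe_fintype_card] at h2
  have h3 : Fintype.card ι ≤ G.card := by exact_mod_cast h2
  omega

theorem gen {ι κ ε : Type} (E : ε → MvPolynomial (ι ⊕ κ) k) (g : MvPolynomial (ι ⊕ κ) k)
    (h : ∀ (L : Type) [Field L] [Algebra k L] (v : ι ⊕ κ → L),
      (∀ e, MvPolynomial.aeval v (E e) = 0) → MvPolynomial.aeval v g ≠ 0 →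
      ¬ AlgebraicIndependent k fun i => v (Sum.inl i)) :
    ∃ d : MvPolynomial ι k, d ≠ 0 ∧ ∀ v : ι ⊕ κ → k, (∀ e, MvPolynomial.aeval v (E e) = 0) →
      MvPolynomial.aeval v g ≠ 0 → MvPolynomial.eval (fun i => v (Sum.inl i)) d = 0 := by
  classical
  by_contra hcon
  push Not at hcon
  let D := {d : MvPolynomial ι k // d ≠ 0}
  choose v hv hg hv0 using fun d : D => hcon d.1 d.2
  have hev : ∀ {σ : Type} (w : D → σ → k) (q : MvPolynomial σ k) (d : D),
      MvPolynomial.aeval (fun a (d : D) => w d a) q d = MvPolynomial.aeval (w d) q :=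
    fun w q d => MvPolynomial.comp_aeval_apply (f := fun a (d : D) => w d a)
      (Pi.evalAlgHom k (fun _ : D => k) d) q
  let ev : MvPolynomial ι k →ₐ[k] (D → k) := MvPolynomial.aeval fun a d => v d (Sum.inl a)
  let S : Submonoid (D → k) := (nonZeroDivisors (MvPolynomial ι k)).map ev
  have hdis : Disjoint ((⊥ : Ideal (D → k)) : Set (D → k)) (S : Set (D → k)) := by
    rw [Set.disjoint_left]
    rintro z hz ⟨q, hq, rfl⟩
    have hq0 : q ≠ 0 := nonZeroDivisors.ne_zero hq
    have h0 : ev q = 0 := hz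
    refine hv0 ⟨q, hq0⟩ ?_
    rw [← MvPolynomial.coe_aeval_eq_eval]
    exact (hev (fun d a => v d (Sum.inl a)) q ⟨q, hq0⟩).symm.trans (congrFun h0 _)
  obtain ⟨P, hP, -, hPS⟩ := Ideal.exists_le_prime_disjoint _ S hdis
  let L := FractionRing ((D → k) ⧸ P)
  let π : (D → k) →ₐ[k] L :=
    (IsScalarTower.toAlgHom k ((D → k) ⧸ P) L).comp (Ideal.Quotient.mkₐ k P)
  have hπ : ∀ z, π z = 0 → z ∈ P := by
    intro z hz
    have h1 : algebraMap ((D → k) ⧸ P) L (Ideal.Quotient.mk P z) = 0 := hz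
    exact Ideal.Quotient.eq_zero_iff_mem.1
      ((map_eq_zero_iff _ (IsFractionRing.injective ((D → k) ⧸ P) L)).1 h1)
  refine h L (fun a => π fun d => v d a) (fun e => ?_) ?_ ?_
  · rw [← MvPolynomial.comp_aeval_apply (f := fun a (d : D) => v d a) π]
    have : MvPolynomial.aeval (fun a (d : D) => v d a) (E e) = 0 :=
      funext fun d => (hev v (E e) d).trans (hv d e)
    rw [this, map_zero]
  · rw [← MvPolynomial.comp_aeval_apply (f := fun a (d : D) => v d a) π]
    have hu : IsUnit (MvPolynomial.aeval (fun a (d : D) => v d a) g) :=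
      Pi.isUnit_iff.2 fun d => isUnit_iff_ne_zero.2 (by rw [hev v g d]; exact hg d)
    exact (hu.map π).ne_zero
  · rw [algebraicIndependent_iff]
    intro q hq
    by_contra hq0
    have h1 : π (ev q) = 0 := by
      rw [← hq]
      exact MvPolynomial.comp_aeval_apply (f := fun a (d : D) => v d (Sum.inl a)) π q
    exact Set.disjoint_left.1 hPS (hπ _ h1) ⟨q, mem_nonZeroDivisors_of_ne_zero hq0, rfl⟩

theorem fin_of_param [Infinite k] {ι : Type} (d : MvPolynomial (Option ι) k) (hd : d ≠ 0)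
    (d' : MvPolynomial ι k) (hd' : d' ≠ 0) :
    ∃ τ : ι → k, MvPolynomial.eval τ d' ≠ 0 ∧
      {x : k | MvPolynomial.eval (fun o : Option ι => o.elim x τ) d = 0}.Finite := by
  have h0 : MvPolynomial.optionEquivLeft k ι d ≠ 0 := by
    rwa [Ne, map_eq_zero_iff _ (MvPolynomial.optionEquivLeft k ι).injective]
  have h1 : (MvPolynomial.optionEquivLeft k ι d).leadingCoeff * d' ≠ 0 :=
    mul_ne_zero (leadingCoeff_ne_zero.2 h0) hd'
  obtain ⟨τ, hτ⟩ : ∃ τ : ι → k,
      MvPolynomial.eval τ ((MvPolynomial.optionEquivLeft k ι d).leadingCoeff * d') ≠ 0 := by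
    by_contra hcon
    push Not at hcon
    exact h1 (MvPolynomial.funext fun x => by rw [hcon x, map_zero])
  rw [map_mul] at hτ
  refine ⟨τ, right_ne_zero_of_mul hτ, ?_⟩
  have h2 : (MvPolynomial.optionEquivLeft k ι d).map (MvPolynomial.eval τ) ≠ 0 := by
    intro h
    have := congrArg (fun R => R.coeff (MvPolynomial.optionEquivLeft k ι d).natDegree) h
    simp only [coeff_map, coeff_zero] at this
    exact left_ne_zero_of_mul hτ this
  refine (Polynomial.finite_setOfPred_isRoot h2).subset fun x hx => ?_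
  have h3 := MvPolynomial.optionEquivLeft_elim_eval k ι τ x d
  exact h3.symm.trans hx

end H62q

end PartGen

section PartDir

set_option autoImplicit false

open Polynomial Finset

namespace H62q

theorem dir_char (K : Type) [Field K] [Fintype K] :
    ∃ θ : K →* ℂ, θ 0 = 0 ∧ ∀ x : K, θ x = 1 → x = 1 := by
  classical
  have hn : Fintype.card Kˣ ≠ 0 := Fintype.card_ne_zero
  haveI : NeZero (Fintype.card Kˣ) := ⟨hn⟩
  have hc : Nat.card Kˣ = Nat.card (rootsOfUnity (Fintype.card Kˣ) ℂ) := by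
    rw [Complex.card_rootsOfUnity, Nat.card_eq_fintype_card]
  let e := mulEquivOfCyclicCardEq hc
  let φ : Kˣ →* ℂˣ := (rootsOfUnity (Fintype.card Kˣ) ℂ).subtype.comp e.toMonoidHom
  refine ⟨(MulChar.ofUnitHom φ).toMonoidHom, MulChar.map_zero _, fun x hx => ?_⟩
  have hx' : MulChar.ofUnitHom φ x = 1 := hx
  rcases eq_or_ne x 0 with rfl | h0
  · rw [MulChar.map_zero] at hx'
    exact absurd hx' zero_ne_one
  · have h1 : φ (Units.mk0 x h0) = 1 := by
      have := MulChar.ofUnitHom_coe φ (Units.mk0 x h0)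
      rw [Units.val_mk0, hx'] at this
      exact Units.ext this.symm
    have h2 : e (Units.mk0 x h0) = 1 := Subtype.ext h1
    have h3 : Units.mk0 x h0 = 1 := e.injective (h2.trans (map_one e).symm)
    simpa using congrArg Units.val h3

theorem dir_norm {z : ℂ} {d : ℕ} (hd : 0 < d) (h : z = 0 ∨ z ^ d = 1) : ‖z‖ ≤ 1 := by
  rcases h with rfl | h
  · simp
  · have : ‖z‖ ^ d = 1 := by rw [← norm_pow, h, norm_one]
    exact ((pow_eq_one_iff_of_nonneg (norm_nonneg _) hd.ne').1 this).le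

theorem dir_fin {K J : Type} [Field K] [Fintype K] [Fintype J] (a v : J → K)
    (ha : Function.Injective a) {M : ℕ} (hM : 0 < M) (hv : ∀ j, v j ^ M = 1)
    (hK : (2 * Fintype.card J * M ^ Fintype.card J) ^ 2 < Fintype.card K) :
    ∃ (t : K) (E : ℕ), 0 < E ∧ ∀ j, (a j - t) ^ E = v j := by
  classical
  obtain ⟨θ, θ0, θ1⟩ := dir_char K
  have hq : 1 < Fintype.card K := Fintype.one_lt_card
  set d := Nat.gcd M (Fintype.card K - 1) with hd
  have hd0 : 0 < d := Nat.gcd_pos_of_pos_left _ hM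
  have hdM : d ≤ M := Nat.gcd_le_left _ hM
  obtain ⟨E, hE⟩ : d ∣ Fintype.card K - 1 := Nat.gcd_dvd_right _ _
  have hE0 : 0 < E := by
    rcases Nat.eq_zero_or_pos E with h | h
    · rw [h, mul_zero] at hE
      omega
    · exact h
  have hv0 : ∀ j, v j ≠ 0 := fun j h => by
    have := hv j
    rw [h, zero_pow hM.ne'] at this
    exact zero_ne_one this
  have hvd : ∀ j, v j ^ d = 1 := fun j =>
    pow_gcd_eq_one.2 ⟨hv j, FiniteField.pow_card_sub_one_eq_one _ (hv0 j)⟩
  obtain ⟨g, hg⟩ := IsCyclic.exists_ofOrder_eq_natCard (α := Kˣ)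
  rw [Nat.card_eq_fintype_card, Fintype.card_units] at hg
  by_contra hno
  push Not at hno
  let χ : K →* ℂ := θ.comp (powMonoidHom E)
  have hχ : ∀ y, χ y = θ (y ^ E) := fun _ => rfl
  have hz : ∀ j t, χ (a j - t) * θ (v j)⁻¹ = 0 ∨ (χ (a j - t) * θ (v j)⁻¹) ^ d = 1 := by
    intro j t
    rcases eq_or_ne (a j - t) 0 with h | h
    · left
      rw [hχ, h, zero_pow hE0.ne', θ0, zero_mul]
    · right
      rw [hχ, ← map_mul, ← map_pow, mul_pow, ← pow_mul, mul_comm E, ← hE,
        FiniteField.pow_card_sub_one_eq_one _ h, inv_pow, hvd, inv_one, mul_one, map_one]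
  have hc : ∀ j, ‖θ (v j)⁻¹‖ ≤ 1 := fun j => dir_norm hd0 (Or.inr (by
    rw [← map_pow, inv_pow, hvd, inv_one, map_one]))
  have hup : ‖∑ t : K, ∏ j, ∑ n ∈ range d, (χ (a j - t) * θ (v j)⁻¹) ^ n‖ ≤
      Fintype.card J * (d : ℝ) ^ Fintype.card J := by
    rw [← Finset.sum_subset (Finset.subset_univ (univ.image a))]
    · refine (norm_sum_le _ _).trans ((Finset.sum_le_card_nsmul _ _ ((d : ℝ) ^ Fintype.card J)
        fun t _ => ?_).trans ?_)
      · rw [norm_prod, ← Finset.card_univ, ← Finset.prod_const]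
        refine Finset.prod_le_prod (fun _ _ => norm_nonneg _) fun j _ => ?_
        refine (norm_sum_le _ _).trans ((Finset.sum_le_card_nsmul _ _ 1 fun n _ => ?_).trans (by simp))
        rw [norm_pow]
        exact pow_le_one₀ (norm_nonneg _) (dir_norm hd0 (hz j t))
      · rw [nsmul_eq_mul, Finset.card_image_of_injective _ ha, Finset.card_univ]
    · intro t _ ht
      obtain ⟨j, hj⟩ := hno t E hE0
      refine Finset.prod_eq_zero (Finset.mem_univ j) ?_
      have h0 : a j - t ≠ 0 := fun h =>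
        ht (Finset.mem_image.2 ⟨j, Finset.mem_univ _, sub_eq_zero.1 h⟩)
      have h1 : χ (a j - t) * θ (v j)⁻¹ ≠ 1 := by
        rw [hχ, ← map_mul]
        intro h
        exact hj ((mul_inv_eq_one₀ (hv0 j)).1 (θ1 _ h))
      have h2 : (χ (a j - t) * θ (v j)⁻¹) ^ d = 1 := by
        rw [hχ, ← map_mul, ← map_pow, mul_pow, ← pow_mul, mul_comm E, ← hE,
          FiniteField.pow_card_sub_one_eq_one _ h0, inv_pow, hvd, inv_one, mul_one, map_one]
      have h3 := geom_sum_mul (χ (a j - t) * θ (v j)⁻¹) d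
      rw [h2, sub_self] at h3
      exact (mul_eq_zero.1 h3).resolve_right (sub_ne_zero.2 h1)
  have hexp : ∑ t : K, ∏ j, ∑ n ∈ range d, (χ (a j - t) * θ (v j)⁻¹) ^ n =
      ∑ n ∈ Fintype.piFinset (fun _ : J => range d),
        (∏ j, θ (v j)⁻¹ ^ n j) * ∑ t : K, ∏ j, χ (a j - t) ^ n j := by
    simp only [Finset.prod_univ_sum]
    rw [Finset.sum_comm]
    refine Finset.sum_congr rfl fun n _ => ?_
    rw [Finset.mul_sum]
    refine Finset.sum_congr rfl fun t _ => ?_
    rw [← Finset.prod_mul_distrib]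
    exact Finset.prod_congr rfl fun j _ => by rw [mul_pow, mul_comm]
  have h0m : (fun _ : J => 0) ∈ Fintype.piFinset (fun _ : J => range d) :=
    Fintype.mem_piFinset.2 fun _ => Finset.mem_range.2 hd0
  rw [hexp, ← Finset.add_sum_erase _ _ h0m] at hup
  simp only [pow_zero, Finset.prod_const_one, one_mul, Finset.sum_const, Finset.card_univ,
    nsmul_eq_mul, mul_one] at hup
  have hrest : ‖∑ n ∈ (Fintype.piFinset (fun _ : J => range d)).erase (fun _ => 0),
      (∏ j, θ (v j)⁻¹ ^ n j) * ∑ t : K, ∏ j, χ (a j - t) ^ n j‖ ≤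
      (d : ℝ) ^ Fintype.card J * (Fintype.card J * √(Fintype.card K)) := by
    refine (norm_sum_le _ _).trans ((Finset.sum_le_card_nsmul _ _
      (Fintype.card J * √(Fintype.card K) : ℝ) fun n hn => ?_).trans ?_)
    · obtain ⟨hn0, hn⟩ := Finset.mem_erase.1 hn
      obtain ⟨j0, hj0⟩ := Function.ne_iff.1 hn0
      have hlt := Finset.mem_range.1 (Fintype.mem_piFinset.1 hn j0)
      have hw := Pool.Agent.MP_1609a8_nt.H76.weil_tame (K := K) (F := K) a n χ j0 g.ne_zero
        (fun h => by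
          rw [hχ, ← map_pow, ← pow_mul] at h
          have h1 : g ^ (E * n j0) = 1 := Units.ext (by simpa using θ1 _ h)
          have h2 := orderOf_dvd_of_pow_eq_one h1
          rw [hg, hE, mul_comm d] at h2
          have h3 := Nat.le_of_dvd (Nat.pos_of_ne_zero hj0) (Nat.dvd_of_mul_dvd_mul_left hE0 h2)
          omega)
        (fun j i hi h => by
          rw [Module.finrank_self] at hi
          obtain rfl : i = 0 := by omega
          exact ⟨(ha (by simpa using h)).symm, rfl⟩)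
      rw [Module.finrank_self, Nat.cast_one, mul_one] at hw
      rw [norm_mul]
      refine le_trans (mul_le_of_le_one_left (norm_nonneg _) ?_) hw
      rw [norm_prod]
      exact Finset.prod_le_one (fun _ _ => norm_nonneg _) fun j _ => by
        rw [norm_pow]
        exact pow_le_one₀ (norm_nonneg _) (hc j)
    · rw [nsmul_eq_mul]
      refine mul_le_mul_of_nonneg_right ?_ (by positivity)
      have := Finset.card_erase_le (s := Fintype.piFinset (fun _ : J => range d)) (a := fun _ => 0)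
      rw [Fintype.card_piFinset] at this
      simp only [Finset.card_range, Finset.prod_const, Finset.card_univ] at this
      exact_mod_cast this
  have h5 := (norm_le_add_norm_add (Fintype.card K : ℂ) _).trans (add_le_add hup hrest)
  rw [Complex.norm_natCast] at h5
  have h6 : ((2 * Fintype.card J * M ^ Fintype.card J : ℕ) : ℝ) < √(Fintype.card K) :=
    Real.lt_sqrt_of_sq_lt (by exact_mod_cast hK)
  push_cast at h6
  have h7 : (d : ℝ) ^ Fintype.card J ≤ (M : ℝ) ^ Fintype.card J :=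
    pow_le_pow_left₀ (by positivity) (by exact_mod_cast hdM) _
  have h8 : √(Fintype.card K : ℝ) * √(Fintype.card K : ℝ) = Fintype.card K :=
    Real.mul_self_sqrt (by positivity)
  have h9 : (1 : ℝ) ≤ √(Fintype.card K : ℝ) := Real.one_le_sqrt.2 (by exact_mod_cast hq.le)
  have h10 : (Fintype.card J : ℝ) * (d : ℝ) ^ Fintype.card J ≤
      Fintype.card J * (M : ℝ) ^ Fintype.card J := mul_le_mul_of_nonneg_left h7 (by positivity)
  have h11 : (0 : ℝ) ≤ (Fintype.card J : ℝ) * (d : ℝ) ^ Fintype.card J := by positivity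
  nlinarith

variable {k : Type} [Field k]

theorem dir_fixpow {p : ℕ} {x : k} {n : ℕ} (h : x ^ p ^ n = x) (i : ℕ) : x ^ p ^ (n * i) = x := by
  induction i with
  | zero => simp
  | succ i ih => rw [Nat.mul_succ, pow_add, pow_mul, ih, h]

theorem dir_fixall {p : ℕ} (hk : ∀ x : k, ∃ n : ℕ, 0 < n ∧ x ^ p ^ n = x) (T : Finset k) :
    ∃ N : ℕ, 0 < N ∧ ∀ i : ℕ, ∀ x ∈ T, x ^ p ^ (N * i) = x := by
  choose n hn using hk
  refine ⟨∏ x ∈ T, n x, Finset.prod_pos fun x _ => (hn x).1, fun i x hx => ?_⟩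
  obtain ⟨c, hc⟩ := Finset.dvd_prod_of_mem n hx
  rw [hc, mul_assoc]
  exact dir_fixpow (hn x).2 _

theorem dir_main [IsAlgClosed k] (p : ℕ) [Fact p.Prime] [CharP k p]
    (hk : ∀ x : k, ∃ n : ℕ, 0 < n ∧ x ^ p ^ n = x) (S : Finset k) (w : k → k)
    (hw : ∀ x ∈ S, w x ≠ 0) {m : ℕ} (hm : 0 < m) :
    ∃ (ξ : k) (e : ℕ), 0 < e ∧ m ∣ e ∧ ∀ x ∈ S, (x - ξ) ^ e = w x := by
  classical
  have hp : 1 < p := (Fact.out : p.Prime).one_lt
  choose v hv using fun x => IsAlgClosed.exists_pow_nat_eq (w x) hm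
  obtain ⟨N0, hN0, h0⟩ := dir_fixall hk (S.image v)
  have hM : 0 < p ^ N0 - 1 := Nat.sub_pos_of_lt (Nat.one_lt_pow hN0.ne' hp)
  have hvM : ∀ x ∈ S, v x ^ (p ^ N0 - 1) = 1 := by
    intro x hx
    have h1 := h0 1 _ (Finset.mem_image_of_mem v hx)
    have h2 : v x ≠ 0 := fun h => hw x hx (by rw [← hv x, h, zero_pow hm.ne'])
    rw [mul_one, show p ^ N0 = (p ^ N0 - 1) + 1 by omega, pow_succ] at h1
    exact mul_right_cancel₀ h2 (h1.trans (one_mul _).symm)
  obtain ⟨U, hU⟩ := Infinite.exists_subset_card_eq k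
    ((2 * Fintype.card S * (p ^ N0 - 1) ^ Fintype.card S) ^ 2 + 1)
  obtain ⟨N, hN, h⟩ := dir_fixall hk (S ∪ S.image v ∪ U)
  let K : Subfield k := RingHom.eqLocusField (iterateFrobenius k p N) (RingHom.id k)
  have hmem : ∀ x ∈ S ∪ S.image v ∪ U, x ∈ K := fun x hx => by
    have := h 1 x hx
    rw [mul_one] at this
    exact this
  have hne : (X ^ p ^ N - X : k[X]) ≠ 0 :=
    FiniteField.X_pow_card_pow_sub_X_ne_zero k hN.ne' hp
  have hfin : (K : Set k).Finite := by
    refine (Finset.finite_toSet (X ^ p ^ N - X : k[X]).roots.toFinset).subset fun x hx => ?_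
    have hx' : x ^ p ^ N = x := hx
    simp [hne, hx']
  haveI : Fintype K := hfin.fintype
  have hcard : U.card ≤ Fintype.card K := by
    rw [← Fintype.card_coe]
    exact Fintype.card_le_of_injective
      (fun x : U => (⟨x.1, hmem _ (Finset.mem_union_right _ x.2)⟩ : K))
      fun x y hxy => Subtype.ext (congrArg (fun z : K => (z : k)) hxy)
  obtain ⟨t, E, hE, ht⟩ := dir_fin (K := K) (J := S)
    (fun x => ⟨x.1, hmem _ (Finset.mem_union_left _ (Finset.mem_union_left _ x.2))⟩)
    (fun x => ⟨v x.1, hmem _ (Finset.mem_union_left _ (Finset.mem_union_right _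
      (Finset.mem_image_of_mem v x.2)))⟩)
    (fun x y hxy => Subtype.ext (congrArg (fun z : K => (z : k)) hxy)) hM
    (fun x => Subtype.ext (hvM x.1 x.2)) (by omega)
  refine ⟨t.1, E * m, Nat.mul_pos hE hm, Dvd.intro_left _ rfl, fun x hx => ?_⟩
  have h1 : (x - t.1) ^ E = v x := congrArg Subtype.val (ht ⟨x, hx⟩)
  rw [pow_mul, h1, hv]

theorem dir_tors (p : ℕ) [Fact p.Prime] [CharP k p] (hT : Tors k) (x : k) :
    ∃ n : ℕ, 0 < n ∧ x ^ p ^ n = x := by
  have hp : p.Prime := Fact.out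
  rcases eq_or_ne x 0 with rfl | h0
  · exact ⟨1, one_pos, zero_pow (pow_pos hp.pos 1).ne'⟩
  obtain ⟨n, hn, h⟩ := hT x h0
  obtain ⟨a, m, hm, rfl⟩ := Nat.exists_eq_pow_mul_and_not_dvd hn.ne' p hp.ne_one
  rw [ExpChar.pow_prime_pow_mul_eq_one_iff] at h
  have hm0 : 0 < m := Nat.pos_of_mul_pos_left hn
  refine ⟨m.totient, Nat.totient_pos.2 hm0, ?_⟩
  have h1 := Nat.ModEq.pow_totient ((Nat.Prime.coprime_iff_not_dvd hp).2 hm)
  rw [pow_eq_pow_of_modEq h1 h, pow_one]

theorem dir_core [IsAlgClosed k] (p : ℕ) [Fact p.Prime] [CharP k p] (hT : Tors k) (S : Finset k)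
    (w : k → k) (hw : ∀ x ∈ S, w x ≠ 0) : ∃ ξ : k, ∃ e : ℕ, 0 < e ∧ ∀ x ∈ S, (x - ξ) ^ e = w x := by
  obtain ⟨ξ, e, he, -, h⟩ := dir_main p (dir_tors p hT) S w hw one_pos
  exact ⟨ξ, e, he, h⟩

end H62q

end PartDir

section PartFix

open Polynomial

namespace H62q

variable {k : Type} [Field k]

theorem dir [IsAlgClosed k] (p : ℕ) [Fact p.Prime] [CharP k p] (hT : Tors k) (S T : Finset k)
    (w : k → k) (hw : ∀ x ∈ S, w x ≠ 0) (m : ℕ) (hm : 0 < m) :
    ∃ ξ : k, ∃ e : ℕ, ξ ∉ T ∧ 0 < e ∧ m ∣ e ∧ ∀ x ∈ S, (x - ξ) ^ e = w x := by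
  classical
  choose v hv using fun x => IsAlgClosed.exists_pow_nat_eq (w x) hm
  have hv0 : ∀ x ∈ S, v x ≠ 0 := fun x hx h => hw x hx (by rw [← hv x, h, zero_pow hm.ne'])
  have hne : ∀ x, (if x ∈ S then v x else 1) ≠ 0 := fun x => by
    split_ifs with hx
    · exact hv0 x hx
    · exact one_ne_zero
  obtain ⟨ξ, e, he, h⟩ := dir_core p hT (S ∪ T) (fun x => if x ∈ S then v x else 1)
    (fun x _ => hne x)
  refine ⟨ξ, e * m, fun hz => ?_, Nat.mul_pos he hm, Dvd.intro_left _ rfl, fun x hx => ?_⟩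
  · have := h ξ (Finset.mem_union_right _ hz)
    rw [sub_self, zero_pow he.ne'] at this
    exact hne ξ this.symm
  · have := h x (Finset.mem_union_left _ hx)
    rw [if_pos hx] at this
    rw [pow_mul, this, hv]

theorem fix_tors (p : ℕ) [Fact p.Prime] [CharP k p] (hT : Tors k) (x : k) :
    ∃ n : ℕ, 0 < n ∧ x ^ p ^ n = x := by
  have hp : p.Prime := Fact.out
  rcases eq_or_ne x 0 with rfl | h0
  · exact ⟨1, one_pos, zero_pow (pow_pos hp.pos 1).ne'⟩
  obtain ⟨n, hn, h⟩ := hT x h0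
  obtain ⟨a, m, hm, rfl⟩ := Nat.exists_eq_pow_mul_and_not_dvd hn.ne' p hp.ne_one
  rw [ExpChar.pow_prime_pow_mul_eq_one_iff] at h
  have hm0 : 0 < m := Nat.pos_of_mul_pos_left hn
  refine ⟨m.totient, Nat.totient_pos.2 hm0, ?_⟩
  have h1 := Nat.ModEq.pow_totient ((Nat.Prime.coprime_iff_not_dvd hp).2 hm)
  rw [pow_eq_pow_of_modEq h1 h, pow_one]

theorem fix_powc {p n : ℕ} {x : k} (h : x ^ p ^ n = x) (c : ℕ) : x ^ p ^ (n * c) = x := by
  induction c with
  | zero => simp
  | succ c ih => rw [Nat.mul_succ, pow_add, pow_mul, ih, h]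

theorem fix (p : ℕ) [Fact p.Prime] [CharP k p] (hT : Tors k) (S : Finset k) (B : ℕ) :
    ∃ i : ℕ, B < p ^ i ∧ ∀ y ∈ S, y ^ p ^ i = y := by
  have hp : 1 < p := (Fact.out : p.Prime).one_lt
  choose n hn using fix_tors p hT
  have hN : 0 < ∏ x ∈ S, n x := Finset.prod_pos fun x _ => (hn x).1
  refine ⟨(∏ x ∈ S, n x) * B, ?_, fun y hy => ?_⟩
  · exact lt_of_lt_of_le (Nat.lt_pow_self hp)
      (Nat.pow_le_pow_right hp.le (Nat.le_mul_of_pos_left _ hN))
  · obtain ⟨c, hc⟩ := Finset.dvd_prod_of_mem n hy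
    rw [hc, mul_assoc]
    exact fix_powc (hn y).2 _

theorem exists_order (hT : Tors k) (S : Finset k) :
    ∃ m : ℕ, 0 < m ∧ ∀ y ∈ S, y ≠ 0 → y ^ m = 1 := by
  have h : ∀ y : k, ∃ n, 0 < n ∧ (y ≠ 0 → y ^ n = 1) := fun y => by
    rcases eq_or_ne y 0 with h0 | h0
    · exact ⟨1, one_pos, fun h => absurd h0 h⟩
    · obtain ⟨n, hn, h⟩ := hT y h0
      exact ⟨n, hn, fun _ => h⟩
  choose n hn using h
  refine ⟨∏ x ∈ S, n x, Finset.prod_pos fun x _ => (hn x).1, fun y hy h0 => ?_⟩
  obtain ⟨c, hc⟩ := Finset.dvd_prod_of_mem n hy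
  rw [hc, pow_mul, (hn y).2 h0, one_pow]

theorem tors_closure (p : ℕ) [Fact p.Prime] : Tors (AlgebraicClosure (ZMod p)) := by
  intro y hy
  have hi : IsIntegral (ZMod p) y := Algebra.IsIntegral.isIntegral y
  let K := IntermediateField.adjoin (ZMod p) ({y} : Set (AlgebraicClosure (ZMod p)))
  have : FiniteDimensional (ZMod p) K := IntermediateField.adjoin.finiteDimensional hi
  have : Finite K := Module.finite_of_finite (ZMod p)
  have : Fintype K := Fintype.ofFinite K
  have hm : y ∈ K := IntermediateField.mem_adjoin_simple_self (ZMod p) y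
  have h0 : (⟨y, hm⟩ : K) ≠ 0 := fun h => hy (congrArg Subtype.val h)
  refine ⟨Fintype.card K - 1, Nat.sub_pos_of_lt Fintype.one_lt_card, ?_⟩
  exact congrArg Subtype.val (FiniteField.pow_card_sub_one_eq_one _ h0)

theorem exists_H {D N : ℕ} {a : k[X]} (ha : a.natDegree ≤ D) (hND : N < D) (Φ : k[X]) (J D' : ℕ)
    (h1 : N * Φ.natDegree < J) (h2 : J + (D - N) * Φ.natDegree < D') :
    ∃ H : k[X], H.natDegree < D' ∧ H.eval 0 = 0 ∧
      ∀ u, u ≠ 0 → H.eval u = u ^ J * Φ.eval (fv N a u) := by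
  have hle : ∀ i ∈ Finset.range (Φ.natDegree + 1), N * i < J := fun i hi =>
    lt_of_le_of_lt (Nat.mul_le_mul_left _ (Nat.lt_succ_iff.1 (Finset.mem_range.1 hi))) h1
  refine ⟨∑ i ∈ Finset.range (Φ.natDegree + 1), C (Φ.coeff i) * (X ^ (J - N * i) * a ^ i), ?_, ?_,
    fun u hu => ?_⟩
  · refine lt_of_le_of_lt (natDegree_sum_le_of_forall_le _ _ fun i hi => ?_) h2
    refine (natDegree_C_mul_le _ _).trans (natDegree_mul_le.trans ?_)
    have e1 : (X ^ (J - N * i) : k[X]).natDegree = J - N * i := natDegree_X_pow _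
    have e2 : (a ^ i).natDegree ≤ i * D := natDegree_pow_le.trans (Nat.mul_le_mul_left _ ha)
    have e3 : (D - N) * i ≤ (D - N) * Φ.natDegree :=
      Nat.mul_le_mul_left _ (Nat.lt_succ_iff.1 (Finset.mem_range.1 hi))
    have e4 : (D - N) * i + N * i = i * D := by
      rw [← Nat.add_mul, Nat.sub_add_cancel hND.le, Nat.mul_comm]
    have := hle i hi
    omega
  · rw [eval_finsetSum]
    refine Finset.sum_eq_zero fun i hi => ?_
    have := hle i hi
    simp [zero_pow (show J - N * i ≠ 0 by omega)]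
  · rw [eval_finsetSum, eval_eq_sum_range, Finset.mul_sum]
    refine Finset.sum_congr rfl fun i hi => ?_
    have h3 : u ^ J = u ^ (J - N * i) * (u ^ N) ^ i := by
      rw [← pow_mul, ← pow_add, Nat.sub_add_cancel (hle i hi).le]
    have h4 : (u ^ N) ^ i ≠ 0 := pow_ne_zero _ (pow_ne_zero _ hu)
    simp only [eval_mul, eval_C, eval_pow, eval_X, fv, div_pow]
    rw [h3]
    field_simp

theorem fix_mono (c : k) (j : ℕ) : ∃ R : k[X], R.natDegree ≤ j + 1 ∧ R.coeff (j + 1) = c ^ j ∧
    ∀ U U' : k, U ≠ 0 → U' ≠ 0 → U⁻¹ + c * U = U'⁻¹ + c * U' →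
      R.eval U - R.eval U' = (U⁻¹ + c * U) ^ j * (U - U') := by
  induction j with
  | zero => exact ⟨X, natDegree_X_le, by simp, fun U U' _ _ _ => by simp⟩
  | succ j ih =>
    obtain ⟨R, hd, hc, hR⟩ := ih
    have hq : R.divX.natDegree ≤ j := by
      rw [natDegree_divX_eq_natDegree_tsub_one]; omega
    refine ⟨C c * (X ^ 2 * R.divX) + R.divX, ?_, ?_, fun U U' hU hU' h => ?_⟩
    · refine (natDegree_add_le _ _).trans (max_le ?_ (by omega))
      refine (natDegree_C_mul_le _ _).trans (natDegree_mul_le.trans ?_)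
      rw [natDegree_X_pow]; omega
    · rw [coeff_add, coeff_C_mul, show j + 1 + 1 = j + 2 by ring, coeff_X_pow_mul,
        coeff_eq_zero_of_natDegree_lt (show R.divX.natDegree < j + 2 by omega), coeff_divX, hc]
      ring
    · have e : ∀ V : k, R.eval V = V * R.divX.eval V + R.coeff 0 := fun V => by
        have e0 := congrArg (eval V) (X_mul_divX_add R)
        rw [eval_add, eval_mul, eval_X, eval_C] at e0
        exact e0.symm
      have h5 := hR U U' hU hU' h
      rw [e U, e U'] at h5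
      have a1 : (U⁻¹ + c * U) * U = 1 + c * U ^ 2 := by field_simp
      have a2 : (U⁻¹ + c * U) * U' = 1 + c * U' ^ 2 := by rw [h]; field_simp
      simp only [eval_add, eval_mul, eval_C, eval_pow, eval_X]
      linear_combination (U⁻¹ + c * U) * h5 - R.divX.eval U * a1 + R.divX.eval U' * a2

theorem exists_R (c : k) (n : ℕ) (Φ : k[X]) (hΦ : Φ.natDegree ≤ n) :
    ∃ R : k[X], R.natDegree ≤ n + 1 ∧ R.coeff (n + 1) = c ^ n * Φ.coeff n ∧
      ∀ U U' : k, U ≠ 0 → U' ≠ 0 → U⁻¹ + c * U = U'⁻¹ + c * U' →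
        R.eval U - R.eval U' = Φ.eval (U⁻¹ + c * U) * (U - U') := by
  choose R hd hc hR using fix_mono c
  refine ⟨∑ j ∈ Finset.range (n + 1), C (Φ.coeff j) * R j, ?_, ?_, fun U U' hU hU' h => ?_⟩
  · refine natDegree_sum_le_of_forall_le _ _ fun j hj => (natDegree_C_mul_le _ _).trans ?_
    have := hd j
    have := Finset.mem_range.1 hj
    omega
  · rw [finsetSum_coeff, Finset.sum_range_succ, Finset.sum_eq_zero, coeff_C_mul, hc]
    · ring
    · intro j hj
      have h1 := hd j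
      have h2 := Finset.mem_range.1 hj
      rw [coeff_C_mul, coeff_eq_zero_of_natDegree_lt (show (R j).natDegree < n + 1 by omega),
        mul_zero]
  · rw [eval_finsetSum, eval_finsetSum, ← Finset.sum_sub_distrib,
      eval_eq_sum_range' (Nat.lt_succ_of_le hΦ), Finset.sum_mul]
    refine Finset.sum_congr rfl fun j _ => ?_
    simp only [eval_mul, eval_C]
    rw [← mul_sub, hR j U U' hU hU' h, mul_assoc]

end H62q

end PartFix

section PartProjfin

open Polynomial

namespace H62q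

variable {k : Type} [Field k]

theorem projfin_gen {A : Type} [Fintype A] (Sol : (A → k) → Prop)
    (h : ∀ (D : Type) (τ : D → A → k), (∀ d, Sol (τ d)) → ∃ G : List (D → k),
      G.length < Fintype.card A ∧ ∀ S : Subalgebra k (D → k),
        (∀ z c b : D → k, c ∈ S → b ∈ S → (∀ d, c d ≠ 0) → (∀ d, z d * c d = b d) → z ∈ S) →
        (∀ γ ∈ G, γ ∈ S) → ∀ a, (fun d => τ d a) ∈ S) :
    ∃ d : MvPolynomial A k, d ≠ 0 ∧ ∀ τ, Sol τ → MvPolynomial.eval τ d = 0 := by
  classical
  by_contra hcon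
  push Not at hcon
  let D := {d : MvPolynomial A k // d ≠ 0}
  choose τ hτ hτ0 using fun d : D => hcon d.1 d.2
  obtain ⟨G, hG, hC⟩ := h D τ hτ
  let ev : MvPolynomial A k →ₐ[k] (D → k) := MvPolynomial.aeval fun a d => τ d a
  have hev : ∀ (q : MvPolynomial A k) (d : D), ev q d = MvPolynomial.eval (τ d) q := by
    intro q d
    have := MvPolynomial.comp_aeval_apply (f := fun a (d : D) => τ d a)
      (Pi.evalAlgHom k (fun _ : D => k) d) q
    rw [← MvPolynomial.coe_aeval_eq_eval]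
    exact this
  let S : Submonoid (D → k) := (nonZeroDivisors (MvPolynomial A k)).map ev
  have hdis : Disjoint ((⊥ : Ideal (D → k)) : Set (D → k)) (S : Set (D → k)) := by
    rw [Set.disjoint_left]
    rintro z hz ⟨q, hq, rfl⟩
    have hq0 : q ≠ 0 := nonZeroDivisors.ne_zero hq
    have : ev q = 0 := hz
    exact hτ0 ⟨q, hq0⟩ (by rw [← hev, this]; rfl)
  obtain ⟨P, hP, -, hPS⟩ := Ideal.exists_le_prime_disjoint _ S hdis
  let L := FractionRing ((D → k) ⧸ P)
  let π : (D → k) →ₐ[k] L :=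
    (IsScalarTower.toAlgHom k ((D → k) ⧸ P) L).comp (Ideal.Quotient.mkₐ k P)
  have hπ : ∀ z, π z = 0 → z ∈ P := by
    intro z hz
    have h1 : algebraMap ((D → k) ⧸ P) L (Ideal.Quotient.mk P z) = 0 := hz
    exact Ideal.Quotient.eq_zero_iff_mem.1
      ((map_eq_zero_iff _ (IsFractionRing.injective ((D → k) ⧸ P) L)).1 h1)
  have hind : AlgebraicIndependent k fun a => π fun d => τ d a := by
    rw [algebraicIndependent_iff]
    intro q hq
    by_contra hq0
    have h1 : π (ev q) = 0 := by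
      rw [← hq]
      exact MvPolynomial.comp_aeval_apply (f := fun a (d : D) => τ d a) π q
    exact Set.disjoint_left.1 hPS (hπ _ h1) ⟨q, mem_nonZeroDivisors_of_ne_zero hq0, rfl⟩
  let G' : Finset L := (G.map π).toFinset
  refine dep _ G' (lt_of_le_of_lt ((List.toFinset_card_le _).trans (by simp)) hG)
    (fun a => ?_) hind
  refine hC ((cl k (G' : Set L)).toSubalgebra.comap π) ?_ ?_ a
  · intro z c b hc hb hc0 hz
    have hu : IsUnit c := Pi.isUnit_iff.2 fun d => isUnit_iff_ne_zero.2 (hc0 d)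
    have h1 : π z * π c = π b := by
      rw [← map_mul]
      exact congrArg π (funext hz)
    have h2 : π z = π b / π c := (eq_div_iff (hu.map π).ne_zero).2 h1
    have h3 : π z ∈ cl k (G' : Set L) := by
      rw [h2]
      exact div_mem (H := cl k (G' : Set L)) hb hc
    exact h3
  · intro γ hγ
    exact subset_cl (k := k) (G := (G' : Set L)) (by simpa [G'] using ⟨γ, hγ, rfl⟩)

theorem projfin_ev {D : Type} (S : Subalgebra k (D → k)) (P : k[X]) {u : D → k} (hu : u ∈ S) :
    (fun d => P.eval (u d)) ∈ S := by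
  have : (fun d => P.eval (u d)) = ∑ i ∈ Finset.range (P.natDegree + 1), P.coeff i • u ^ i := by
    funext d
    rw [eval_eq_sum_range, Finset.sum_apply]
    rfl
  rw [this]
  exact sum_mem fun i _ => S.smul_mem (pow_mem hu i) _

theorem projfin_const {D : Type} (S : Subalgebra k (D → k)) (c : k) : (fun _ : D => c) ∈ S :=
  S.algebraMap_mem c

theorem projfin [IsAlgClosed k] {D : ℕ} {b0 b1 b2 b3 : k[X]} (hG : Good D ![b0, b1, b2, b3])
    (h0 : b0 ≠ 0) : ∃ t1 t2 : k, ∃ S : Finset k,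
      (∀ u, b0.eval u ≠ 0 ∨ (b1 + C t1 * b3).eval u ≠ 0 ∨ (b2 + C t2 * b3).eval u ≠ 0) ∧
      (b0.coeff D ≠ 0 ∨ (b1 + C t1 * b3).coeff D ≠ 0 ∨ (b2 + C t2 * b3).coeff D ≠ 0) ∧
      (∀ u u' l, u ≠ u' → b0.eval u = l * b0.eval u' →
        (b1 + C t1 * b3).eval u = l * (b1 + C t1 * b3).eval u' →
        (b2 + C t2 * b3).eval u = l * (b2 + C t2 * b3).eval u' → u ∈ S ∧ u' ∈ S) ∧
      ∀ u l, b0.eval u = l * b0.coeff D →
        (b1 + C t1 * b3).eval u = l * (b1 + C t1 * b3).coeff D →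
        (b2 + C t2 * b3).eval u = l * (b2 + C t2 * b3).coeff D → u ∈ S := by
  classical
  have hinj : ∀ u u' l : k, b0.eval u = l * b0.eval u' → b1.eval u = l * b1.eval u' →
      b2.eval u = l * b2.eval u' → b3.eval u = l * b3.eval u' → u = u' := by
    intro u u' l e0 e1 e2 e3
    refine hG.inj u u' l fun i => ?_
    fin_cases i
    exacts [e0, e1, e2, e3]
  have hinj' : ∀ u l : k, b0.eval u = l * b0.coeff D → b1.eval u = l * b1.coeff D →
      b2.eval u = l * b2.coeff D → b3.eval u = l * b3.coeff D → False := by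
    intro u l e0 e1 e2 e3
    refine hG.inj' u l fun i => ?_
    fin_cases i
    exacts [e0, e1, e2, e3]
  have htop : b0.coeff D = 0 → b1.coeff D = 0 → b2.coeff D = 0 → b3.coeff D = 0 → False := by
    intro e0 e1 e2 e3
    obtain ⟨i, hi⟩ := hG.top
    fin_cases i
    exacts [hi e0, hi e1, hi e2, hi e3]
  obtain ⟨d1, hd1, H1⟩ := projfin_gen (k := k) (A := Option (Fin 2))
    (fun τ => ∃ u' l, τ none ≠ u' ∧ b0.eval (τ none) ≠ 0 ∧ b0.eval (τ none) = l * b0.eval u' ∧
      b1.eval (τ none) + τ (some 0) * b3.eval (τ none) =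
        l * (b1.eval u' + τ (some 0) * b3.eval u') ∧
      b2.eval (τ none) + τ (some 1) * b3.eval (τ none) =
        l * (b2.eval u' + τ (some 1) * b3.eval u')) (by
    intro E τ hτ
    choose u' l hne hb e0 e1 e2 using hτ
    refine ⟨[fun d => τ d none, u'], by simp, fun S hS hγ a => ?_⟩
    have hu : (fun d => τ d none) ∈ S := hγ _ (by simp)
    have hu' : u' ∈ S := hγ _ (by simp)
    have hl : l ∈ S := hS l _ _ (projfin_ev S b0 hu') (projfin_ev S b0 hu)
      (fun d h => hb d (by rw [e0 d, h, mul_zero])) (fun d => (e0 d).symm)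
    have hc : ∀ d, b3.eval (τ d none) - l d * b3.eval (u' d) ≠ 0 := by
      intro d h
      exact hne d (hinj _ _ (l d) (e0 d) (by linear_combination e1 d - τ d (some 0) * h)
        (by linear_combination e2 d - τ d (some 1) * h) (by linear_combination h))
    have hcS : (fun d => b3.eval (τ d none) - l d * b3.eval (u' d)) ∈ S :=
      sub_mem (projfin_ev S b3 hu) (mul_mem hl (projfin_ev S b3 hu'))
    rcases a with _ | a
    · exact hu
    · fin_cases a
      · exact hS _ _ (fun d => l d * b1.eval (u' d) - b1.eval (τ d none)) hcS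
          (sub_mem (mul_mem hl (projfin_ev S b1 hu')) (projfin_ev S b1 hu)) hc
          (fun d => by
            show τ d (some 0) * _ = _
            linear_combination e1 d)
      · exact hS _ _ (fun d => l d * b2.eval (u' d) - b2.eval (τ d none)) hcS
          (sub_mem (mul_mem hl (projfin_ev S b2 hu')) (projfin_ev S b2 hu)) hc
          (fun d => by
            show τ d (some 1) * _ = _
            linear_combination e2 d))
  obtain ⟨d2, hd2, H2⟩ := projfin_gen (k := k) (A := Option (Fin 2))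
    (fun τ => ∃ l, b0.eval (τ none) ≠ 0 ∧ b0.eval (τ none) = l * b0.coeff D ∧
      b1.eval (τ none) + τ (some 0) * b3.eval (τ none) =
        l * (b1.coeff D + τ (some 0) * b3.coeff D) ∧
      b2.eval (τ none) + τ (some 1) * b3.eval (τ none) =
        l * (b2.coeff D + τ (some 1) * b3.coeff D)) (by
    intro E τ hτ
    choose l hb e0 e1 e2 using hτ
    refine ⟨[fun d => τ d none], by simp, fun S hS hγ a => ?_⟩
    have hu : (fun d => τ d none) ∈ S := hγ _ (by simp)
    have hl : l ∈ S := hS l _ _ (projfin_const S (b0.coeff D)) (projfin_ev S b0 hu)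
      (fun d h => hb d (by rw [e0 d, h, mul_zero])) (fun d => (e0 d).symm)
    have hc : ∀ d, b3.eval (τ d none) - l d * b3.coeff D ≠ 0 := by
      intro d h
      exact hinj' _ (l d) (e0 d) (by linear_combination e1 d - τ d (some 0) * h)
        (by linear_combination e2 d - τ d (some 1) * h) (by linear_combination h)
    have hcS : (fun d => b3.eval (τ d none) - l d * b3.coeff D) ∈ S :=
      sub_mem (projfin_ev S b3 hu) (mul_mem hl (projfin_const S _))
    rcases a with _ | a
    · exact hu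
    · fin_cases a
      · exact hS _ _ (fun d => l d * b1.coeff D - b1.eval (τ d none)) hcS
          (sub_mem (mul_mem hl (projfin_const S _)) (projfin_ev S b1 hu)) hc
          (fun d => by
            show τ d (some 0) * _ = _
            linear_combination e1 d)
      · exact hS _ _ (fun d => l d * b2.coeff D - b2.eval (τ d none)) hcS
          (sub_mem (mul_mem hl (projfin_const S _)) (projfin_ev S b2 hu)) hc
          (fun d => by
            show τ d (some 1) * _ = _
            linear_combination e2 d))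
  obtain ⟨d3, hd3, H3⟩ := projfin_gen (k := k) (A := Fin 2)
    (fun τ => ∃ u, b0.eval u = 0 ∧ b1.eval u + τ 0 * b3.eval u = 0 ∧
      b2.eval u + τ 1 * b3.eval u = 0) (by
    intro E τ hτ
    choose u e0 e1 e2 using hτ
    refine ⟨[u], by simp, fun S hS hγ a => ?_⟩
    have hu : u ∈ S := hγ _ (by simp)
    have hc : ∀ d, b3.eval (u d) ≠ 0 := by
      intro d h
      exact hinj' (u d) 0 (by linear_combination e0 d) (by linear_combination e1 d - τ d 0 * h)
        (by linear_combination e2 d - τ d 1 * h) (by linear_combination h)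
    fin_cases a
    · exact hS _ _ (fun d => -b1.eval (u d)) (projfin_ev S b3 hu) (neg_mem (projfin_ev S b1 hu)) hc
        (fun d => by
          show τ d 0 * _ = _
          linear_combination e1 d)
    · exact hS _ _ (fun d => -b2.eval (u d)) (projfin_ev S b3 hu) (neg_mem (projfin_ev S b2 hu)) hc
        (fun d => by
          show τ d 1 * _ = _
          linear_combination e2 d))
  obtain ⟨d4, hd4, H4⟩ := projfin_gen (k := k) (A := Fin 2)
    (fun τ => b0.coeff D = 0 ∧ b1.coeff D + τ 0 * b3.coeff D = 0 ∧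
      b2.coeff D + τ 1 * b3.coeff D = 0) (by
    intro E τ hτ
    refine ⟨[], by simp, fun S hS hγ a => ?_⟩
    have hc : ∀ _ : E, b3.coeff D ≠ 0 := by
      intro d h
      obtain ⟨e0, e1, e2⟩ := hτ d
      exact htop e0 (by linear_combination e1 - τ d 0 * h) (by linear_combination e2 - τ d 1 * h) h
    fin_cases a
    · exact hS _ _ (fun _ => -b1.coeff D) (projfin_const S _) (projfin_const S _) hc
        (fun d => by
          show τ d 0 * _ = _
          linear_combination (hτ d).2.1)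
    · exact hS _ _ (fun _ => -b2.coeff D) (projfin_const S _) (projfin_const S _) hc
        (fun d => by
          show τ d 1 * _ = _
          linear_combination (hτ d).2.2))
  obtain ⟨τ, hτ, hfin⟩ := fin_of_param (d1 * d2) (mul_ne_zero hd1 hd2) (d3 * d4)
    (mul_ne_zero hd3 hd4)
  rw [map_mul] at hτ
  have hA : ∀ u, b0.eval u ≠ 0 ∨ (b1 + C (τ 0) * b3).eval u ≠ 0 ∨
      (b2 + C (τ 1) * b3).eval u ≠ 0 := by
    intro u
    by_contra hcon
    push Not at hcon
    simp only [eval_add, eval_mul, eval_C] at hcon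
    exact left_ne_zero_of_mul hτ (H3 τ ⟨u, hcon⟩)
  have hB : ∀ u u' l, u ≠ u' → b0.eval u = l * b0.eval u' →
      (b1 + C (τ 0) * b3).eval u = l * (b1 + C (τ 0) * b3).eval u' →
      (b2 + C (τ 1) * b3).eval u = l * (b2 + C (τ 1) * b3).eval u' →
      u ∈ b0.roots.toFinset ∪ hfin.toFinset := by
    intro u u' l hne e0 e1 e2
    rw [Finset.mem_union]
    by_cases hb : b0.eval u = 0
    · exact Or.inl (by simp [h0, hb])
    · right
      simp only [eval_add, eval_mul, eval_C] at e1 e2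
      rw [Set.Finite.mem_toFinset]
      show MvPolynomial.eval _ (d1 * d2) = 0
      rw [map_mul, H1 (fun o => o.elim u τ) ⟨u', l, hne, hb, e0, e1, e2⟩, zero_mul]
  refine ⟨τ 0, τ 1, b0.roots.toFinset ∪ hfin.toFinset, hA, ?_, ?_, ?_⟩
  · by_contra hcon
    push Not at hcon
    simp only [coeff_add, coeff_C_mul] at hcon
    exact right_ne_zero_of_mul hτ (H4 τ hcon)
  · intro u u' l hne e0 e1 e2
    refine ⟨hB u u' l hne e0 e1 e2, ?_⟩
    have hl : l ≠ 0 := by
      rintro rfl
      rw [zero_mul] at e0 e1 e2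
      rcases hA u with h | h | h
      exacts [h e0, h e1, h e2]
    refine hB u' u l⁻¹ hne.symm ?_ ?_ ?_
    · rw [e0, inv_mul_cancel_left₀ hl]
    · rw [e1, inv_mul_cancel_left₀ hl]
    · rw [e2, inv_mul_cancel_left₀ hl]
  · intro u l e0 e1 e2
    rw [Finset.mem_union]
    by_cases hb : b0.eval u = 0
    · exact Or.inl (by simp [h0, hb])
    · right
      simp only [eval_add, eval_mul, eval_C, coeff_add, coeff_C_mul] at e1 e2
      rw [Set.Finite.mem_toFinset]
      show MvPolynomial.eval _ (d1 * d2) = 0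
      rw [map_mul, H2 (fun o => o.elim u τ) ⟨l, hb, e0, e1, e2⟩, mul_zero]

end H62q

end PartProjfin

section PartNodefin

open Polynomial

namespace H62q

variable {k : Type} [Field k]

theorem nodefin_ne {L : Type} [Field L] {N : ℕ} (hN : 0 < N) {A : L[X]} (hA : A.eval 0 ≠ 0)
    (x : L) : A - C x * X ^ N ≠ 0 := by
  intro h0
  have h1 := congrArg (Polynomial.eval 0) h0
  simp [hN.ne'] at h1
  exact hA h1

theorem fibre_finite {N : ℕ} (hN : 0 < N) {a : k[X]} (ha : a.eval 0 ≠ 0) (x : k) :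
    {u : k | u ≠ 0 ∧ fv N a u = x}.Finite := by
  refine (Polynomial.finite_setOf_isRoot (nodefin_ne hN ha x)).subset ?_
  rintro u ⟨hu, hx⟩
  have h1 : u ^ N ≠ 0 := pow_ne_zero _ hu
  have h2 : a.eval u = x * u ^ N := by
    rw [← hx, fv, div_mul_cancel₀ _ h1]
  simp [IsRoot, h2]

theorem fibre_mem {L : Type} [Field L] [Algebra k L] {G : Set L} {N : ℕ} (hN : 0 < N) {a : k[X]}
    (ha : a.eval 0 ≠ 0) {x u : L} (hx : x ∈ cl k G) (hu : aeval u a = x * u ^ N) :
    u ∈ cl k G := by
  have h0 : (a.map (algebraMap k L)).eval 0 ≠ 0 := by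
    rw [← coeff_zero_eq_eval_zero, coeff_map, coeff_zero_eq_eval_zero]
    exact (_root_.map_ne_zero _).2 ha
  refine root_mem (a.map (algebraMap k L) - C x * X ^ N) (nodefin_ne hN h0 x) (fun m => ?_) ?_
  · rw [coeff_sub, coeff_map, coeff_C_mul, coeff_X_pow]
    refine sub_mem (IntermediateField.algebraMap_mem _ _) (mul_mem hx ?_)
    split_ifs
    · exact one_mem _
    · exact zero_mem _
  · rw [eval_sub, eval_map_algebraMap, hu]
    simp

theorem nodefin_av {σ L : Type} [Field L] [Algebra k L] (v : σ → L) (s : σ) (P : k[X]) :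
    MvPolynomial.aeval v (aeval (MvPolynomial.X s : MvPolynomial σ k) P) = aeval (v s) P := by
  rw [← Polynomial.aeval_algHom_apply, MvPolynomial.aeval_X]

/-- The three equations of a node. -/
noncomputable def nodefin_E (N : ℕ) (a g h : k[X]) (n : ℕ) :
    Option Bool → MvPolynomial (Option Unit ⊕ Bool) k
  | some b => aeval (MvPolynomial.X (Sum.inr b)) a
      - MvPolynomial.X (Sum.inl none) * MvPolynomial.X (Sum.inr b) ^ N
  | none => (aeval (MvPolynomial.X (Sum.inr false)) g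
        + MvPolynomial.X (Sum.inl (some ())) * aeval (MvPolynomial.X (Sum.inr false)) h)
        * MvPolynomial.X (Sum.inr true) ^ n
      - (aeval (MvPolynomial.X (Sum.inr true)) g
        + MvPolynomial.X (Sum.inl (some ())) * aeval (MvPolynomial.X (Sum.inr true)) h)
        * MvPolynomial.X (Sum.inr false) ^ n

/-- The inequation of a node. -/
noncomputable def nodefin_G (h : k[X]) (n : ℕ) : MvPolynomial (Option Unit ⊕ Bool) k :=
  aeval (MvPolynomial.X (Sum.inr false)) h * MvPolynomial.X (Sum.inr true) ^ n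
    - aeval (MvPolynomial.X (Sum.inr true)) h * MvPolynomial.X (Sum.inr false) ^ n

theorem nodefin_E_some {L : Type} [Field L] [Algebra k L] (N : ℕ) (a g h : k[X]) (n : ℕ)
    (v : Option Unit ⊕ Bool → L) (b : Bool) :
    MvPolynomial.aeval v (nodefin_E N a g h n (some b))
      = aeval (v (Sum.inr b)) a - v (Sum.inl none) * v (Sum.inr b) ^ N := by
  simp only [nodefin_E, map_sub, map_mul, map_pow, nodefin_av, MvPolynomial.aeval_X]

theorem nodefin_E_none {L : Type} [Field L] [Algebra k L] (N : ℕ) (a g h : k[X]) (n : ℕ)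
    (v : Option Unit ⊕ Bool → L) :
    MvPolynomial.aeval v (nodefin_E N a g h n none)
      = (aeval (v (Sum.inr false)) g + v (Sum.inl (some ())) * aeval (v (Sum.inr false)) h)
          * v (Sum.inr true) ^ n
        - (aeval (v (Sum.inr true)) g + v (Sum.inl (some ())) * aeval (v (Sum.inr true)) h)
          * v (Sum.inr false) ^ n := by
  simp only [nodefin_E, map_sub, map_add, map_mul, map_pow, nodefin_av, MvPolynomial.aeval_X]

theorem nodefin_G_eq {L : Type} [Field L] [Algebra k L] (h : k[X]) (n : ℕ)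
    (v : Option Unit ⊕ Bool → L) :
    MvPolynomial.aeval v (nodefin_G h n)
      = aeval (v (Sum.inr false)) h * v (Sum.inr true) ^ n
        - aeval (v (Sum.inr true)) h * v (Sum.inr false) ^ n := by
  simp only [nodefin_G, map_sub, map_mul, map_pow, nodefin_av, MvPolynomial.aeval_X]

theorem nodefin_gen {N : ℕ} (hN : 0 < N) {a : k[X]} (ha : a.eval 0 ≠ 0) (g h : k[X]) (n : ℕ) :
    ∃ d : MvPolynomial (Option Unit) k, d ≠ 0 ∧ ∀ v : Option Unit ⊕ Bool → k,
      (∀ e, MvPolynomial.aeval v (nodefin_E N a g h n e) = 0) →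
      MvPolynomial.aeval v (nodefin_G h n) ≠ 0 →
      MvPolynomial.eval (fun i => v (Sum.inl i)) d = 0 := by
  classical
  refine gen _ _ fun L _ _ v hE hG => ?_
  refine dep _ {v (Sum.inl none)} (by simp) ?_
  have hx : v (Sum.inl none) ∈ cl k (({v (Sum.inl none)} : Finset L) : Set L) :=
    subset_cl (by simp)
  have hu : ∀ b, v (Sum.inr b) ∈ cl k (({v (Sum.inl none)} : Finset L) : Set L) := fun b => by
    have h1 := hE (some b)
    rw [nodefin_E_some, sub_eq_zero] at h1
    exact fibre_mem hN ha hx h1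
  rintro (_ | ⟨⟨⟩⟩)
  · exact hx
  · have h1 := hE none
    rw [nodefin_E_none] at h1
    rw [nodefin_G_eq] at hG
    have h2 : v (Sum.inl (some ())) =
        (aeval (v (Sum.inr true)) g * v (Sum.inr false) ^ n
          - aeval (v (Sum.inr false)) g * v (Sum.inr true) ^ n)
        / (aeval (v (Sum.inr false)) h * v (Sum.inr true) ^ n
          - aeval (v (Sum.inr true)) h * v (Sum.inr false) ^ n) := by
      rw [eq_div_iff hG]
      linear_combination h1
    show v (Sum.inl (some ())) ∈ _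
    rw [h2]
    exact div_mem
      (sub_mem (mul_mem (aeval_mem _ _ (hu _)) (pow_mem (hu _) _))
        (mul_mem (aeval_mem _ _ (hu _)) (pow_mem (hu _) _)))
      (sub_mem (mul_mem (aeval_mem _ _ (hu _)) (pow_mem (hu _) _))
        (mul_mem (aeval_mem _ _ (hu _)) (pow_mem (hu _) _)))

theorem nodefin_dd (n : ℕ) (P : k[X]) {u u' : k} (hu : u ≠ 0) (hu' : u' ≠ 0) :
    dd n P u u' = 0 ↔ P.eval u * u' ^ n - P.eval u' * u ^ n = 0 := by
  rw [dd, fv, fv, sub_eq_zero, sub_eq_zero,
    div_eq_div_iff (pow_ne_zero _ hu) (pow_ne_zero _ hu')]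

theorem nodefin [IsAlgClosed k] {N : ℕ} (hN : 0 < N) {a : k[X]} (ha : a.eval 0 ≠ 0) (g h : k[X])
    (n : ℕ) (X2 T : Finset k)
    (hgh : ∀ u u', Pair N a u u' → fv N a u ∉ X2 → dd n g u u' ≠ 0 ∨ dd n h u u' ≠ 0) :
    ∃ θ : k, θ ∉ T ∧ ∃ X3 : Finset k,
      ∀ u u', Pair N a u u' → dd n (g + C θ * h) u u' = 0 → fv N a u ∈ X3 := by
  classical
  obtain ⟨d, hd, hdv⟩ := nodefin_gen hN ha g h n
  have hd' : (∏ t ∈ T, (MvPolynomial.X () - MvPolynomial.C t) : MvPolynomial Unit k) ≠ 0 := by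
    refine Finset.prod_ne_zero_iff.2 fun t _ h0 => ?_
    have h1 := congrArg (MvPolynomial.eval fun _ => t + 1) h0
    simp at h1
  obtain ⟨τ, hτ, hfin⟩ := fin_of_param d hd _ hd'
  refine ⟨τ (), fun hT => hτ ?_, hfin.toFinset ∪ X2, fun u u' hp h0 => ?_⟩
  · rw [map_prod]
    exact Finset.prod_eq_zero hT (by simp)
  · obtain ⟨hu, hu', hne, hx⟩ := hp
    by_cases hX : fv N a u ∈ X2
    · exact Finset.mem_union_right _ hX
    refine Finset.mem_union_left _ ?_
    rw [nodefin_dd _ _ hu hu'] at h0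
    simp only [eval_add, eval_mul, eval_C] at h0
    have hh : h.eval u * u' ^ n - h.eval u' * u ^ n ≠ 0 := by
      intro h1
      rcases hgh u u' ⟨hu, hu', hne, hx⟩ hX with h2 | h2
      · refine h2 ((nodefin_dd _ _ hu hu').2 ?_)
        linear_combination h0 - τ () * h1
      · exact h2 ((nodefin_dd _ _ hu hu').2 h1)
    let v : Option Unit ⊕ Bool → k :=
      Sum.elim (fun o => o.elim (fv N a u) τ) fun b => if b then u' else u
    have h1 := hdv v ?_ ?_
    · rw [Set.Finite.mem_toFinset]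
      exact h1
    · rintro (_ | _ | _)
      · rw [nodefin_E_none]
        simp only [v, Sum.elim_inl, Sum.elim_inr, Option.elim_some, coe_aeval_eq_eval]
        simpa using h0
      · rw [nodefin_E_some]
        simp only [v, Sum.elim_inl, Sum.elim_inr, Option.elim_none, coe_aeval_eq_eval]
        simp [fv, div_mul_cancel₀ _ (pow_ne_zero N hu)]
      · rw [nodefin_E_some]
        simp only [v, Sum.elim_inl, Sum.elim_inr, Option.elim_none, coe_aeval_eq_eval]
        rw [hx]
        simp [fv, div_mul_cancel₀ _ (pow_ne_zero N hu')]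
    · rw [nodefin_G_eq]
      simp only [v, Sum.elim_inl, Sum.elim_inr, coe_aeval_eq_eval]
      simpa using hh


end H62q

end PartNodefin

section PartGf

open Polynomial

namespace H62q

variable {k : Type} [Field k]

/-- The fibre equation of the perturbed pencil. -/
noncomputable def gfE (N : ℕ) (a0 W : k[X]) {R : Type} [CommRing R] [Algebra k R]
    (τ : Option (Fin 4) → R) (y : R) : R :=
  aeval y a0 + aeval y W * (τ (some 0) + τ (some 1) * y + τ (some 2) * y ^ 2 + τ (some 3) * y ^ 3)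
    - τ none * y ^ N

theorem gf_map (N : ℕ) (a0 W : k[X]) {R R' : Type} [CommRing R] [Algebra k R] [CommRing R']
    [Algebra k R'] (φ : R →ₐ[k] R') (τ : Option (Fin 4) → R) (y : R) :
    φ (gfE N a0 W τ y) = gfE N a0 W (fun o => φ (τ o)) (φ y) := by
  simp only [gfE, map_add, map_sub, map_mul, map_pow, aeval_algHom_apply]

theorem gf_mapW (W : k[X]) {R R' : Type} [CommRing R] [Algebra k R] [CommRing R']
    [Algebra k R'] (φ : R →ₐ[k] R') (y : R) : φ (aeval y W) = aeval (φ y) W :=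
  (aeval_algHom_apply φ y W).symm

theorem gf_core {L : Type} [Field L] [Algebra k L] (N : ℕ) (a0 W : k[X])
    (τ : Option (Fin 4) → L) (G : Finset L) (hG : G.card ≤ 4) {n : ℕ} (u : Fin n → L)
    (hi : Function.Injective u) (hu : ∀ i, u i ∈ cl k (G : Set L))
    (hx : τ none ∈ cl k (G : Set L)) (hW : ∀ i, aeval (u i) W ≠ 0)
    (hE : ∀ i, gfE N a0 W τ (u i) = 0)
    (ht : ∀ m : Fin 4, n ≤ m.val → τ (some m) ∈ cl k (G : Set L)) :
    ¬ AlgebraicIndependent k τ := by
  refine dep τ G (by simpa using Nat.lt_succ_of_le hG) fun o => ?_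
  cases o with
  | none => exact hx
  | some m =>
    refine cub_mem (cl k (G : Set L)) (fun m => τ (some m)) u hi hu (fun i => ?_) ht m
    have h1 : (cub fun m => τ (some m)).eval (u i) =
        (τ none * u i ^ N - aeval (u i) a0) / aeval (u i) W := by
      rw [eq_div_iff (hW i)]
      have h2 := hE i
      simp only [cub, gfE, eval_add, eval_mul, eval_C, eval_X, eval_pow] at h2 ⊢
      linear_combination h2
    rw [h1]
    exact div_mem (sub_mem (mul_mem hx (pow_mem (hu i) _)) (aeval_mem _ _ (hu i)))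
      (aeval_mem _ _ (hu i))

theorem gf_root {L : Type} [Field L] [Algebra k L] {G : Set L} {c A B y : L} {n N j : ℕ}
    (hN : n ≠ N) (hj : n ≠ j) (h0 : c ≠ 0) (hc : c ∈ cl k G) (hA : A ∈ cl k G) (hB : B ∈ cl k G)
    (h : c * y ^ n + A * y ^ N + B * y ^ j = 0) : y ∈ cl k G := by
  refine root_mem (C c * X ^ n + C A * X ^ N + C B * X ^ j) (fun h1 => h0 ?_) (fun m => ?_) ?_
  · have h2 := congrArg (coeff · n) h1
    simpa [coeff_X_pow, hN, hj] using h2
  · simp only [coeff_add, coeff_C_mul, coeff_X_pow]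
    refine add_mem (add_mem (mul_mem hc ?_) (mul_mem hA ?_)) (mul_mem hB ?_) <;>
      split_ifs <;> first | exact one_mem _ | exact zero_mem _
  · simpa only [eval_add, eval_mul, eval_C, eval_X, eval_pow] using h

theorem gf_card {L : Type} [DecidableEq L] (a b c d : L) : ({a, b, c, d} : Finset L).card ≤ 4 :=
  Finset.card_le_four

theorem gf_A {N j : ℕ} (hNj : N ≠ j) (a0 W : k[X]) :
    ∃ d : MvPolynomial (Option (Fin 4)) k, d ≠ 0 ∧ ∀ (τ : Option (Fin 4) → k) (y z : k),
      gfE N a0 W τ y = 0 → gfE N a0 W τ z = 0 → y ^ j * z ^ N - z ^ j * y ^ N = 0 → y ≠ z →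
      z ≠ 0 → aeval y W ≠ 0 → aeval z W ≠ 0 → MvPolynomial.eval τ d = 0 := by
  classical
  let x : Fin 2 → MvPolynomial (Option (Fin 4) ⊕ Fin 2) k := fun i => MvPolynomial.X (Sum.inr i)
  let T : Option (Fin 4) → MvPolynomial (Option (Fin 4) ⊕ Fin 2) k :=
    fun o => MvPolynomial.X (Sum.inl o)
  obtain ⟨d, hd, H⟩ := gen (ι := Option (Fin 4)) (κ := Fin 2) (ε := Option (Fin 2))
    (fun e => e.elim (x 0 ^ j * x 1 ^ N - x 1 ^ j * x 0 ^ N) fun i => gfE N a0 W T (x i))
    ((x 0 - x 1) * x 1 * aeval (x 0) W * aeval (x 1) W) (by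
      intro L _ _ v hE hg
      have e0 := hE none
      have e1 := fun i => hE (some i)
      simp only [Option.elim, x, T, gf_map, gf_mapW, map_sub, map_mul, map_pow,
        MvPolynomial.aeval_X, mul_ne_zero_iff, sub_ne_zero] at e0 e1 hg
      obtain ⟨⟨⟨g1, g2⟩, g3⟩, g4⟩ := hg
      have m1 : v (Sum.inr 1) ∈ cl k (({v (Sum.inr 1), v (Sum.inl none), v (Sum.inl (some 2)),
          v (Sum.inl (some 3))} : Finset L) : Set L) := subset_cl (by simp)
      refine gf_core N a0 W _ _ (gf_card (v (Sum.inr 1)) (v (Sum.inl none))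
        (v (Sum.inl (some 2))) (v (Sum.inl (some 3)))) (fun i => v (Sum.inr i)) ?_ ?_
        (subset_cl (by simp)) ?_ e1 ?_
      · intro a b hab
        fin_cases a <;> fin_cases b <;> first | rfl | exact absurd hab g1 | exact absurd hab.symm g1
      · intro i
        fin_cases i
        · exact gf_root (y := v (Sum.inr 0)) (n := j) (N := N) (j := N) hNj.symm hNj.symm (pow_ne_zero N g2)
            (pow_mem m1 N) (neg_mem (pow_mem m1 j)) (zero_mem _) (by linear_combination e0)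
        · exact m1
      · intro i
        fin_cases i
        · exact g3
        · exact g4
      · intro m hm
        fin_cases m
        · simp at hm
        · simp at hm
        · exact subset_cl (by simp)
        · exact subset_cl (by simp))
  refine ⟨d, hd, fun τ y z h1 h2 h3 h4 h5 h6 h7 => H (Sum.elim τ ![y, z]) (fun e => ?_) ?_⟩
  · rcases e with _ | i
    · simpa only [Option.elim, x, map_sub, map_mul, map_pow, MvPolynomial.aeval_X, Sum.elim_inr,
        Matrix.cons_val_zero, Matrix.cons_val_one] using h3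
    · simp only [Option.elim, x, T, gf_map, MvPolynomial.aeval_X, Sum.elim_inr, Sum.elim_inl]
      fin_cases i
      · exact h1
      · exact h2
  · simp only [x, gf_mapW, map_sub, map_mul, MvPolynomial.aeval_X, Sum.elim_inr,
      Matrix.cons_val_zero, Matrix.cons_val_one]
    exact mul_ne_zero (mul_ne_zero (mul_ne_zero (sub_ne_zero.2 h4) h5) h6) h7

theorem gf_rel {L : Type} [Field L] [Algebra k L] {G : Set L} {N j : ℕ} (hN : 0 < N) (hj : 0 < j)
    {y y' z z' : L} (h1 : y' ∈ cl k G) (h2 : z ∈ cl k G) (h3 : z' ∈ cl k G) (h0 : y' ≠ 0)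
    (hm : z ^ j * z' ^ N - z' ^ j * z ^ N ≠ 0)
    (h : (y' ^ N - y ^ N) * (z ^ j * z' ^ N - z' ^ j * z ^ N) -
      (z' ^ N - z ^ N) * (y ^ j * y' ^ N - y' ^ j * y ^ N) = 0) : y ∈ cl k G := by
  have m1 : z ^ j * z' ^ N - z' ^ j * z ^ N ∈ cl k G :=
    sub_mem (mul_mem (pow_mem h2 _) (pow_mem h3 _)) (mul_mem (pow_mem h3 _) (pow_mem h2 _))
  have m2 : z' ^ N - z ^ N ∈ cl k G := sub_mem (pow_mem h3 _) (pow_mem h2 _)
  exact gf_root (n := 0) hN.ne hj.ne (mul_ne_zero (pow_ne_zero N h0) hm)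
    (mul_mem (pow_mem h1 N) m1) (sub_mem (mul_mem m2 (pow_mem h1 j)) m1)
    (neg_mem (mul_mem m2 (pow_mem h1 N))) (by linear_combination h)

theorem gf_B {N j : ℕ} (hN : 0 < N) (hj : 0 < j) (a0 W : k[X]) :
    ∃ d : MvPolynomial (Option (Fin 4)) k, d ≠ 0 ∧ ∀ (τ : Option (Fin 4) → k) (y z z' : k),
      gfE N a0 W τ y = 0 → gfE N a0 W τ z = 0 → gfE N a0 W τ z' = 0 →
      (z ^ N - y ^ N) * (z ^ j * z' ^ N - z' ^ j * z ^ N) -
        (z' ^ N - z ^ N) * (y ^ j * z ^ N - z ^ j * y ^ N) = 0 →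
      y ≠ z → y ≠ z' → z ≠ z' → z ≠ 0 → z ^ j * z' ^ N - z' ^ j * z ^ N ≠ 0 →
      aeval y W ≠ 0 → aeval z W ≠ 0 → aeval z' W ≠ 0 → MvPolynomial.eval τ d = 0 := by
  classical
  let x : Fin 3 → MvPolynomial (Option (Fin 4) ⊕ Fin 3) k := fun i => MvPolynomial.X (Sum.inr i)
  let T : Option (Fin 4) → MvPolynomial (Option (Fin 4) ⊕ Fin 3) k :=
    fun o => MvPolynomial.X (Sum.inl o)
  obtain ⟨d, hd, H⟩ := gen (ι := Option (Fin 4)) (κ := Fin 3) (ε := Option (Fin 3))
    (fun e => e.elim ((x 1 ^ N - x 0 ^ N) * (x 1 ^ j * x 2 ^ N - x 2 ^ j * x 1 ^ N) -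
        (x 2 ^ N - x 1 ^ N) * (x 0 ^ j * x 1 ^ N - x 1 ^ j * x 0 ^ N))
      fun i => gfE N a0 W T (x i))
    ((x 0 - x 1) * (x 0 - x 2) * (x 1 - x 2) * x 1 * (x 1 ^ j * x 2 ^ N - x 2 ^ j * x 1 ^ N) *
      aeval (x 0) W * aeval (x 1) W * aeval (x 2) W) (by
      intro L _ _ v hE hg
      have e0 := hE none
      have e1 := fun i => hE (some i)
      simp only [Option.elim, x, T, gf_map, gf_mapW, map_sub, map_mul, map_pow,
        MvPolynomial.aeval_X, mul_ne_zero_iff] at e0 e1 hg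
      obtain ⟨⟨⟨⟨⟨⟨⟨g1, g2⟩, g3⟩, g4⟩, g5⟩, g6⟩, g7⟩, g8⟩ := hg
      rw [sub_ne_zero] at g1 g2 g3
      have m1 : v (Sum.inr 1) ∈ cl k (({v (Sum.inr 1), v (Sum.inr 2), v (Sum.inl none),
          v (Sum.inl (some 3))} : Finset L) : Set L) := subset_cl (by simp)
      have m2 : v (Sum.inr 2) ∈ cl k (({v (Sum.inr 1), v (Sum.inr 2), v (Sum.inl none),
          v (Sum.inl (some 3))} : Finset L) : Set L) := subset_cl (by simp)
      refine gf_core N a0 W _ _ (gf_card (v (Sum.inr 1)) (v (Sum.inr 2)) (v (Sum.inl none))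
        (v (Sum.inl (some 3)))) (fun i => v (Sum.inr i)) ?_ ?_
        (subset_cl (by simp)) ?_ e1 ?_
      · intro a b hab
        fin_cases a <;> fin_cases b <;>
          first
          | rfl
          | exact absurd hab g1
          | exact absurd hab.symm g1
          | exact absurd hab g2
          | exact absurd hab.symm g2
          | exact absurd hab g3
          | exact absurd hab.symm g3
      · intro i
        fin_cases i
        · exact gf_rel hN hj m1 m1 m2 g4 g5 e0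
        · exact m1
        · exact m2
      · intro i
        fin_cases i
        · exact g6
        · exact g7
        · exact g8
      · intro m hm
        fin_cases m
        · simp at hm
        · simp at hm
        · simp at hm
        · exact subset_cl (by simp))
  refine ⟨d, hd, fun τ y z z' h1 h2 h3 h4 h5 h6 h7 h8 h9 w1 w2 w3 =>
    H (Sum.elim τ ![y, z, z']) (fun e => ?_) ?_⟩
  · rcases e with _ | i
    · simp only [Option.elim, x, map_sub, map_mul, map_pow, MvPolynomial.aeval_X, Sum.elim_inr]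
      exact h4
    · simp only [Option.elim, x, T, gf_map, MvPolynomial.aeval_X, Sum.elim_inr, Sum.elim_inl]
      fin_cases i
      · exact h1
      · exact h2
      · exact h3
  · simp only [x, gf_mapW, map_sub, map_mul, map_pow, MvPolynomial.aeval_X, Sum.elim_inr,
      mul_ne_zero_iff]
    exact ⟨⟨⟨⟨⟨⟨⟨sub_ne_zero.2 h5, sub_ne_zero.2 h6⟩, sub_ne_zero.2 h7⟩, h8⟩, h9⟩, w1⟩, w2⟩, w3⟩

theorem gf_C {N j : ℕ} (hN : 0 < N) (hj : 0 < j) (a0 W : k[X]) :
    ∃ d : MvPolynomial (Option (Fin 4)) k, d ≠ 0 ∧ ∀ (τ : Option (Fin 4) → k) (y y' z z' : k),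
      gfE N a0 W τ y = 0 → gfE N a0 W τ y' = 0 → gfE N a0 W τ z = 0 → gfE N a0 W τ z' = 0 →
      (y' ^ N - y ^ N) * (z ^ j * z' ^ N - z' ^ j * z ^ N) -
        (z' ^ N - z ^ N) * (y ^ j * y' ^ N - y' ^ j * y ^ N) = 0 →
      y ≠ y' → y ≠ z → y ≠ z' → y' ≠ z → y' ≠ z' → z ≠ z' → y' ≠ 0 →
      z ^ j * z' ^ N - z' ^ j * z ^ N ≠ 0 →
      aeval y W ≠ 0 → aeval y' W ≠ 0 → aeval z W ≠ 0 → aeval z' W ≠ 0 →
      MvPolynomial.eval τ d = 0 := by
  classical
  let x : Fin 4 → MvPolynomial (Option (Fin 4) ⊕ Fin 4) k := fun i => MvPolynomial.X (Sum.inr i)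
  let T : Option (Fin 4) → MvPolynomial (Option (Fin 4) ⊕ Fin 4) k :=
    fun o => MvPolynomial.X (Sum.inl o)
  obtain ⟨d, hd, H⟩ := gen (ι := Option (Fin 4)) (κ := Fin 4) (ε := Option (Fin 4))
    (fun e => e.elim ((x 1 ^ N - x 0 ^ N) * (x 2 ^ j * x 3 ^ N - x 3 ^ j * x 2 ^ N) -
        (x 3 ^ N - x 2 ^ N) * (x 0 ^ j * x 1 ^ N - x 1 ^ j * x 0 ^ N))
      fun i => gfE N a0 W T (x i))
    ((x 0 - x 1) * (x 0 - x 2) * (x 0 - x 3) * (x 1 - x 2) * (x 1 - x 3) * (x 2 - x 3) * x 1 *
      (x 2 ^ j * x 3 ^ N - x 3 ^ j * x 2 ^ N) *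
      aeval (x 0) W * aeval (x 1) W * aeval (x 2) W * aeval (x 3) W) (by
      intro L _ _ v hE hg
      have e0 := hE none
      have e1 := fun i => hE (some i)
      simp only [Option.elim, x, T, gf_map, gf_mapW, map_sub, map_mul, map_pow,
        MvPolynomial.aeval_X, mul_ne_zero_iff] at e0 e1 hg
      obtain ⟨⟨⟨⟨⟨⟨⟨⟨⟨⟨⟨g1, g2⟩, g3⟩, g4⟩, g5⟩, g6⟩, g7⟩, g8⟩, w0⟩, w1⟩, w2⟩, w3⟩ := hg
      rw [sub_ne_zero] at g1 g2 g3 g4 g5 g6
      have m1 : v (Sum.inr 1) ∈ cl k (({v (Sum.inr 1), v (Sum.inr 2), v (Sum.inr 3),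
          v (Sum.inl none)} : Finset L) : Set L) := subset_cl (by simp)
      have m2 : v (Sum.inr 2) ∈ cl k (({v (Sum.inr 1), v (Sum.inr 2), v (Sum.inr 3),
          v (Sum.inl none)} : Finset L) : Set L) := subset_cl (by simp)
      have m3 : v (Sum.inr 3) ∈ cl k (({v (Sum.inr 1), v (Sum.inr 2), v (Sum.inr 3),
          v (Sum.inl none)} : Finset L) : Set L) := subset_cl (by simp)
      refine gf_core N a0 W _ _ (gf_card (v (Sum.inr 1)) (v (Sum.inr 2)) (v (Sum.inr 3))
        (v (Sum.inl none))) (fun i => v (Sum.inr i)) ?_ ?_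
        (subset_cl (by simp)) ?_ e1 ?_
      · intro a b hab
        fin_cases a <;> fin_cases b <;>
          first
          | rfl
          | exact absurd hab g1
          | exact absurd hab.symm g1
          | exact absurd hab g2
          | exact absurd hab.symm g2
          | exact absurd hab g3
          | exact absurd hab.symm g3
          | exact absurd hab g4
          | exact absurd hab.symm g4
          | exact absurd hab g5
          | exact absurd hab.symm g5
          | exact absurd hab g6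
          | exact absurd hab.symm g6
      · intro i
        fin_cases i
        · exact gf_rel hN hj m1 m2 m3 g7 g8 e0
        · exact m1
        · exact m2
        · exact m3
      · intro i
        fin_cases i
        · exact w0
        · exact w1
        · exact w2
        · exact w3
      · intro m hm
        exact absurd m.2 (by omega))
  refine ⟨d, hd, fun τ y y' z z' h1 h2 h3 h4 h5 n1 n2 n3 n4 n5 n6 h8 h9 w0 w1 w2 w3 =>
    H (Sum.elim τ ![y, y', z, z']) (fun e => ?_) ?_⟩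
  · rcases e with _ | i
    · simp only [Option.elim, x, map_sub, map_mul, map_pow, MvPolynomial.aeval_X, Sum.elim_inr]
      exact h5
    · simp only [Option.elim, x, T, gf_map, MvPolynomial.aeval_X, Sum.elim_inr, Sum.elim_inl]
      fin_cases i
      · exact h1
      · exact h2
      · exact h3
      · exact h4
  · simp only [x, gf_mapW, map_sub, map_mul, map_pow, MvPolynomial.aeval_X, Sum.elim_inr,
      mul_ne_zero_iff]
    exact ⟨⟨⟨⟨⟨⟨⟨⟨⟨⟨⟨sub_ne_zero.2 n1, sub_ne_zero.2 n2⟩, sub_ne_zero.2 n3⟩, sub_ne_zero.2 n4⟩,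
      sub_ne_zero.2 n5⟩, sub_ne_zero.2 n6⟩, h8⟩, h9⟩, w0⟩, w1⟩, w2⟩, w3⟩

theorem gf_fib {N : ℕ} (a0 W : k[X]) (t : Fin 4 → k) {u x : k} (hu : u ≠ 0)
    (h : fv N (a0 + W * cub t) u = x) : gfE N a0 W (fun o => o.elim x t) u = 0 := by
  unfold fv at h
  rw [div_eq_iff (pow_ne_zero _ hu)] at h
  simp only [cub, eval_add, eval_mul, eval_C, eval_X, eval_pow] at h
  simp only [gfE, Option.elim, coe_aeval_eq_eval]
  linear_combination h

theorem gf_dm (N j : ℕ) {u u' : k} (hu : u ≠ 0) (hu' : u' ≠ 0) :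
    dd N (X ^ j) u u' * (u ^ N * u' ^ N) = u ^ j * u' ^ N - u' ^ j * u ^ N := by
  have h1 := pow_ne_zero N hu
  have h2 := pow_ne_zero N hu'
  simp only [dd, fv, eval_pow, eval_X]
  field_simp

theorem gf_dL (N : ℕ) {u u' : k} (hu : u ≠ 0) (hu' : u' ≠ 0) :
    dd N 1 u u' * (u ^ N * u' ^ N) = u' ^ N - u ^ N := by
  have h1 := pow_ne_zero N hu
  have h2 := pow_ne_zero N hu'
  simp only [dd, fv, eval_one]
  field_simp

theorem gf [IsAlgClosed k] {N j : ℕ} (hN : 0 < N) (hj : 0 < j) (hNj : N ≠ j) (a0 W : k[X])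
    (hW : W ≠ 0) : ∃ t : Fin 4 → k, ∃ XS : Finset k, Sig N j (a0 + W * cub t) XS := by
  classical
  obtain ⟨d1, n1, H1⟩ := gf_A hNj a0 W
  obtain ⟨d2, n2, H2⟩ := gf_B hN hj a0 W
  obtain ⟨d3, n3, H3⟩ := gf_C hN hj a0 W
  obtain ⟨t, -, hfin⟩ := fin_of_param (d1 * d2 * d3) (mul_ne_zero (mul_ne_zero n1 n2) n3) 1
    one_ne_zero
  refine ⟨t, hfin.toFinset ∪ W.roots.toFinset.image (fv N (a0 + W * cub t)), ?_⟩
  generalize hXS : hfin.toFinset ∪ W.roots.toFinset.image (fv N (a0 + W * cub t)) = XS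
  have hd : ∀ x, x ∉ XS → MvPolynomial.eval (fun o : Option (Fin 4) => o.elim x t) d1 ≠ 0 ∧
      MvPolynomial.eval (fun o : Option (Fin 4) => o.elim x t) d2 ≠ 0 ∧
      MvPolynomial.eval (fun o : Option (Fin 4) => o.elim x t) d3 ≠ 0 := by
    intro x hx
    have h1 : MvPolynomial.eval (fun o : Option (Fin 4) => o.elim x t) (d1 * d2 * d3) ≠ 0 :=
      fun h => hx (hXS ▸ Finset.mem_union_left _ (hfin.mem_toFinset.2 h))
    rw [map_mul, map_mul, mul_ne_zero_iff, mul_ne_zero_iff] at h1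
    exact ⟨h1.1.1, h1.1.2, h1.2⟩
  have hw : ∀ u x, fv N (a0 + W * cub t) u = x → x ∉ XS → aeval u W ≠ 0 := by
    intro u x hu hx h
    rw [coe_aeval_eq_eval] at h
    exact hx (hXS ▸ Finset.mem_union_right _ (Finset.mem_image.2
      ⟨u, Multiset.mem_toFinset.2 ((mem_roots hW).2 h), hu⟩))
  have P1 : ∀ x u u', x ∉ XS → u ≠ 0 → u' ≠ 0 → u ≠ u' → fv N (a0 + W * cub t) u = x →
      fv N (a0 + W * cub t) u' = x → u ^ j * u' ^ N - u' ^ j * u ^ N ≠ 0 :=
    fun x u u' hx h1 h2 h3 h4 h5 h6 => (hd x hx).1 (H1 _ u u' (gf_fib a0 W t h1 h4)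
      (gf_fib a0 W t h2 h5) h6 h3 h2 (hw u x h4 hx) (hw u' x h5 hx))
  have P2 : ∀ x y y' z z', x ∉ XS → y ≠ 0 → y' ≠ 0 → z ≠ 0 → z' ≠ 0 → y ≠ y' → z ≠ z' →
      fv N (a0 + W * cub t) y = x → fv N (a0 + W * cub t) y' = x →
      fv N (a0 + W * cub t) z = x → fv N (a0 + W * cub t) z' = x →
      (y' ^ N - y ^ N) * (z ^ j * z' ^ N - z' ^ j * z ^ N) -
        (z' ^ N - z ^ N) * (y ^ j * y' ^ N - y' ^ j * y ^ N) = 0 → y = z ∨ y = z' := by
    intro x y y' z z' hx a1 a2 a3 a4 b1 b2 c1 c2 c3 c4 h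
    by_contra hcon
    rw [not_or] at hcon
    obtain ⟨e1, e2⟩ := hcon
    by_cases e3 : y' = z
    · rw [e3] at h
      exact (hd x hx).2.1 (H2 _ y z z' (gf_fib a0 W t a1 c1) (gf_fib a0 W t a3 c3)
        (gf_fib a0 W t a4 c4) h e1 e2 b2 a3 (P1 x z z' hx a3 a4 b2 c3 c4) (hw y x c1 hx)
        (hw z x c3 hx) (hw z' x c4 hx))
    by_cases e4 : y' = z'
    · rw [e4] at h
      exact (hd x hx).2.1 (H2 _ y z' z (gf_fib a0 W t a1 c1) (gf_fib a0 W t a4 c4)
        (gf_fib a0 W t a3 c3) (by linear_combination -h) e2 e1 b2.symm a4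
        (P1 x z' z hx a4 a3 b2.symm c4 c3) (hw y x c1 hx) (hw z' x c4 hx) (hw z x c3 hx))
    exact (hd x hx).2.2 (H3 _ y y' z z' (gf_fib a0 W t a1 c1) (gf_fib a0 W t a2 c2)
      (gf_fib a0 W t a3 c3) (gf_fib a0 W t a4 c4) h b1 e1 e2 e3 e4 b2 a2
      (P1 x z z' hx a3 a4 b2 c3 c4) (hw y x c1 hx) (hw y' x c2 hx) (hw z x c3 hx)
      (hw z' x c4 hx))
  refine ⟨fun u u' hp hx h0 => ?_, fun u1 u1' u2 u2' h1 h2 h3 hx h => ?_⟩
  · refine P1 _ u u' hx hp.1 hp.2.1 hp.2.2.1 rfl hp.2.2.2.symm ?_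
    rw [← gf_dm N j hp.1 hp.2.1, h0, zero_mul]
  · obtain ⟨a1, a2, b1, c1⟩ := h1
    obtain ⟨a3, a4, b2, c2⟩ := h2
    have r : (u1' ^ N - u1 ^ N) * (u2 ^ j * u2' ^ N - u2' ^ j * u2 ^ N) -
        (u2' ^ N - u2 ^ N) * (u1 ^ j * u1' ^ N - u1' ^ j * u1 ^ N) = 0 := by
      rw [← gf_dm N j a1 a2, ← gf_dm N j a3 a4, ← gf_dL N a1 a2, ← gf_dL N a3 a4]
      linear_combination (u1 ^ N * u1' ^ N) * (u2 ^ N * u2' ^ N) * h
    have q1 := P2 _ u1 u1' u2 u2' hx a1 a2 a3 a4 b1 b2 rfl c1.symm h3.symm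
      (c2.symm.trans h3.symm) r
    have q2 := P2 _ u1' u1 u2 u2' hx a2 a1 a3 a4 b1.symm b2 c1.symm rfl h3.symm
      (c2.symm.trans h3.symm) (by linear_combination -r)
    rcases q1 with q1 | q1 <;> rcases q2 with q2 | q2
    · exact absurd (q1.trans q2.symm) b1
    · exact Or.inl ⟨q1, q2⟩
    · exact Or.inr ⟨q1, q2⟩
    · exact absurd (q1.trans q2.symm) b1

end H62q

end PartGf
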