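import Pool.Agent.MP_b04567_ag.Rat.PA

section PartGya

open Polynomial

namespace H62q

variable {k : Type} [Field k]

theorem gya_core {L : Type} [Field L] [Algebra k L] {N : ℕ} (hN : 0 < N) {a : k[X]}
    (ha : a.eval 0 ≠ 0) (Y0 W : k[X]) (n : ℕ) (G : Set L) (x : L) (t : Fin 4 → L) {r : ℕ}
    (u y : Fin r → L) (hi : Function.Injective u) (hF : ∀ i, aeval (u i) a = x * u i ^ N)
    (hV : ∀ i, aeval (u i) Y0 + aeval (u i) W * (cub t).eval (u i) = y i * u i ^ n)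
    (hW : ∀ i, aeval (u i) W ≠ 0) (hx : x ∈ cl k G) (hy : ∀ i, y i ∈ cl k G)
    (ht : ∀ m : Fin 4, r ≤ m.val → t m ∈ cl k G) (m : Fin 4) : t m ∈ cl k G := by
  have hu : ∀ i, u i ∈ cl k G := by
    intro i
    refine root_mem (a.map (algebraMap k L) - C x * X ^ N) ?_ ?_ ?_
    · intro h
      have h0 := congrArg (eval 0) h
      rw [eval_sub, eval_mul, eval_pow, eval_X, zero_pow hN.ne', mul_zero, sub_zero, eval_zero,
        ← coeff_zero_eq_eval_zero, coeff_map, coeff_zero_eq_eval_zero] at h0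
      exact ha ((map_eq_zero _).1 h0)
    · intro j
      rw [coeff_sub, coeff_map, coeff_C_mul, coeff_X_pow]
      refine sub_mem (IntermediateField.algebraMap_mem _ _) (mul_mem hx ?_)
      split_ifs
      · exact one_mem _
      · exact zero_mem _
    · rw [eval_sub, eval_mul, eval_pow, eval_X, eval_C, eval_map_algebraMap, hF, sub_self]
  refine cub_mem (cl k G) t u hi hu (fun i => ?_) ht m
  have h : (cub t).eval (u i) = (y i * u i ^ n - aeval (u i) Y0) / aeval (u i) W := by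
    rw [eq_div_iff (hW i), ← hV i]
    ring
  rw [h]
  exact div_mem (sub_mem (mul_mem (hy i) (pow_mem (hu i) n)) (aeval_mem _ _ (hu i)))
    (aeval_mem _ _ (hu i))

theorem gya_cub {L : Type} [Field L] (t : Fin 4 → L) (u : L) :
    (cub t).eval u = t 0 + t 1 * u + t 2 * u ^ 2 + t 3 * u ^ 3 := by
  simp [cub]

theorem gya_ae {σ L : Type} [Field L] [Algebra k L] (v : σ → L) (s : σ) (P : k[X]) :
    MvPolynomial.aeval v (aeval (MvPolynomial.X s : MvPolynomial σ k) P) = aeval (v s) P := by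
  rw [← aeval_algHom_apply, MvPolynomial.aeval_X]

theorem gya_gen {ι κ : Type} [Fintype ι] {N : ℕ} (hN : 0 < N) {a : k[X]}
    (ha : a.eval 0 ≠ 0) (Y0 W : k[X]) (n r : ℕ) (ix : ι ⊕ κ) (it : Fin 4 → ι ⊕ κ)
    (iu iy : Fin r → ι ⊕ κ) (Gs : Finset (ι ⊕ κ)) (hc : Gs.card < Fintype.card ι) (hx : ix ∈ Gs)
    (hy : ∀ i, iy i ∈ Gs) (ht : ∀ m : Fin 4, r ≤ m.val → it m ∈ Gs)
    (hι : ∀ j : ι, Sum.inl j = ix ∨ ∃ m, Sum.inl j = it m) :
    ∃ d : MvPolynomial ι k, d ≠ 0 ∧ ∀ v : ι ⊕ κ → k, (Function.Injective fun i => v (iu i)) →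
      (∀ i, a.eval (v (iu i)) = v ix * v (iu i) ^ N) →
      (∀ i, (Y0 + W * cub fun m => v (it m)).eval (v (iu i)) = v (iy i) * v (iu i) ^ n) →
      (∀ i, W.eval (v (iu i)) ≠ 0) → MvPolynomial.eval (fun i => v (Sum.inl i)) d = 0 := by
  classical
  let E : Fin r ⊕ Fin r → MvPolynomial (ι ⊕ κ) k := Sum.elim
    (fun i => aeval (MvPolynomial.X (iu i)) a - MvPolynomial.X ix * MvPolynomial.X (iu i) ^ N)
    (fun i => aeval (MvPolynomial.X (iu i)) Y0 + aeval (MvPolynomial.X (iu i)) W *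
      (MvPolynomial.X (it 0) + MvPolynomial.X (it 1) * MvPolynomial.X (iu i) +
        MvPolynomial.X (it 2) * MvPolynomial.X (iu i) ^ 2 +
        MvPolynomial.X (it 3) * MvPolynomial.X (iu i) ^ 3) -
      MvPolynomial.X (iy i) * MvPolynomial.X (iu i) ^ n)
  let g : MvPolynomial (ι ⊕ κ) k := (∏ i, aeval (MvPolynomial.X (iu i)) W) *
    ∏ i, ∏ j ∈ Finset.univ.erase i, (MvPolynomial.X (iu i) - MvPolynomial.X (iu j))
  have hE : ∀ (L : Type) [Field L] [Algebra k L] (v : ι ⊕ κ → L),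
      (∀ e, MvPolynomial.aeval v (E e) = 0) ↔ (∀ i, aeval (v (iu i)) a = v ix * v (iu i) ^ N) ∧
        ∀ i, aeval (v (iu i)) Y0 + aeval (v (iu i)) W * (cub fun m => v (it m)).eval (v (iu i)) =
          v (iy i) * v (iu i) ^ n := by
    intro L _ _ v
    simp only [Sum.forall, E, Sum.elim_inl, Sum.elim_inr, map_sub, map_add, map_mul, map_pow,
      gya_ae, MvPolynomial.aeval_X, sub_eq_zero, gya_cub]
  have hg : ∀ (L : Type) [Field L] [Algebra k L] (v : ι ⊕ κ → L),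
      MvPolynomial.aeval v g ≠ 0 ↔ (∀ i, aeval (v (iu i)) W ≠ 0) ∧
        Function.Injective fun i => v (iu i) := by
    intro L _ _ v
    simp only [g, map_mul, map_prod, map_sub, gya_ae, MvPolynomial.aeval_X, mul_ne_zero_iff,
      Finset.prod_ne_zero_iff, Finset.mem_univ, true_imp_iff, Finset.mem_erase, and_true,
      sub_ne_zero]
    refine and_congr_right fun _ => ⟨fun h i j hij => ?_, fun h i j hij hh => hij (h hh).symm⟩
    by_contra hne
    exact h i j (Ne.symm hne) hij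
  obtain ⟨d, hd, h⟩ := gen E g (fun L _ _ v h1 h2 => by
    obtain ⟨e1, e2⟩ := (hE L v).1 h1
    obtain ⟨g1, g2⟩ := (hg L v).1 h2
    have hm : ∀ s ∈ Gs, v s ∈ cl k ((Gs.image v : Finset L) : Set L) := fun s hs =>
      subset_cl (Finset.mem_coe.2 (Finset.mem_image_of_mem v hs))
    refine dep _ (Gs.image v) (lt_of_le_of_lt Finset.card_image_le hc) fun j => ?_
    rcases hι j with hj | ⟨m, hj⟩
    · rw [hj]
      exact hm _ hx
    · rw [hj]
      exact gya_core hN ha Y0 W n _ (v ix) (fun m => v (it m)) (fun i => v (iu i))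
        (fun i => v (iy i)) g2 e1 e2 g1 (hm _ hx) (fun i => hm _ (hy i))
        (fun m hm' => hm _ (ht m hm')) m)
  refine ⟨d, hd, fun v h1 h2 h3 h4 => h v ((hE k v).2 ⟨?_, ?_⟩) ((hg k v).2 ⟨?_, h1⟩)⟩
  · simpa only [coe_aeval_eq_eval] using h2
  · simpa only [coe_aeval_eq_eval, eval_add, eval_mul] using h3
  · simpa only [coe_aeval_eq_eval] using h4

theorem gya_fv {N : ℕ} {a : k[X]} {u x : k} (hu : u ≠ 0) (h : fv N a u = x) :
    a.eval u = x * u ^ N := by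
  rw [← h, fv, div_mul_cancel₀ _ (pow_ne_zero N hu)]

theorem gy_alg [IsAlgClosed k] {N : ℕ} (hN : 0 < N) {a : k[X]} (ha : a.eval 0 ≠ 0) (Y0 W : k[X])
    (n : ℕ) : ∃ t : Fin 4 → k, ∃ X1 : Finset k,
      (∀ u u', Pair N a u u' → W.eval u ≠ 0 → W.eval u' ≠ 0 → dd n (Y0 + W * cub t) u u' = 0 →
        fv N a u ∈ X1) ∧
      ∀ u1 u1' u2 u2', Pair N a u1 u1' → Pair N a u2 u2' → fv N a u1 = fv N a u2 →
        W.eval u1 ≠ 0 → W.eval u1' ≠ 0 → W.eval u2 ≠ 0 → W.eval u2' ≠ 0 →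
        dd n (Y0 + W * cub t) u1 u1' = 0 → dd n (Y0 + W * cub t) u2 u2' = 0 →
        Same u1 u1' u2 u2' := by
  classical
  obtain ⟨dA, hA0, hA⟩ := gya_gen (ι := Option (Fin 4)) (κ := Fin 3) hN ha Y0 W n 2 (Sum.inl none)
    (fun m => Sum.inl (some m)) ![Sum.inr 0, Sum.inr 1] (fun _ => Sum.inr 2)
    {Sum.inl none, Sum.inr 2, Sum.inl (some 2), Sum.inl (some 3)} (by decide) (by decide)
    (by decide) (by decide) (by decide)
  obtain ⟨dB, hB0, hB⟩ := gya_gen (ι := Fin 4) (κ := Fin 7) hN ha Y0 W n 4 (Sum.inr 0)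
    Sum.inl ![Sum.inr 1, Sum.inr 2, Sum.inr 3, Sum.inr 4] ![Sum.inr 5, Sum.inr 5, Sum.inr 6, Sum.inr 6]
    {Sum.inr 0, Sum.inr 5, Sum.inr 6} (by decide) (by decide) (by decide) (by decide) (by decide)
  obtain ⟨dC, hC0, hC⟩ := gya_gen (ι := Fin 4) (κ := Fin 5) hN ha Y0 W n 3 (Sum.inr 0)
    Sum.inl ![Sum.inr 1, Sum.inr 2, Sum.inr 3] (fun _ => Sum.inr 4)
    {Sum.inr 0, Sum.inr 4, Sum.inl 3} (by decide) (by decide) (by decide) (by decide) (by decide)
  obtain ⟨t, ht, hfin⟩ := fin_of_param dA hA0 (dB * dC) (mul_ne_zero hB0 hC0)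
  rw [map_mul, mul_ne_zero_iff] at ht
  have h3 : ∀ p1 p2 p3 : k, p1 ≠ 0 → p2 ≠ 0 → p3 ≠ 0 → p1 ≠ p2 → p1 ≠ p3 → p2 ≠ p3 →
      fv N a p2 = fv N a p1 → fv N a p3 = fv N a p1 → W.eval p1 ≠ 0 → W.eval p2 ≠ 0 →
      W.eval p3 ≠ 0 → fv n (Y0 + W * cub t) p2 = fv n (Y0 + W * cub t) p1 →
      fv n (Y0 + W * cub t) p3 = fv n (Y0 + W * cub t) p1 → False := by
    intro p1 p2 p3 a1 a2 a3 b1 b2 b3 c2 c3 w1 w2 w3 y2 y3
    refine ht.2 (hC (Sum.elim t ![fv N a p1, p1, p2, p3, fv n (Y0 + W * cub t) p1]) ?_ ?_ ?_ ?_)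
    · intro i j hij
      fin_cases i <;> fin_cases j <;> first
        | rfl
        | exact absurd hij b1 | exact absurd hij b2 | exact absurd hij b3
        | exact absurd hij b1.symm | exact absurd hij b2.symm | exact absurd hij b3.symm
    · intro i
      fin_cases i
      exacts [gya_fv a1 rfl, gya_fv a2 c2, gya_fv a3 c3]
    · intro i
      fin_cases i
      exacts [gya_fv a1 rfl, gya_fv a2 y2, gya_fv a3 y3]
    · intro i
      fin_cases i
      exacts [w1, w2, w3]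
  refine ⟨t, hfin.toFinset, ?_, ?_⟩
  · rintro u u' ⟨a1, a2, b1, c⟩ w1 w2 hd
    rw [Set.Finite.mem_toFinset]
    have hd' := sub_eq_zero.1 hd
    refine hA (Sum.elim (fun o : Option (Fin 4) => o.elim (fv N a u) t)
      ![u, u', fv n (Y0 + W * cub t) u]) ?_ ?_ ?_ ?_
    · intro i j hij
      fin_cases i <;> fin_cases j <;> first
        | rfl
        | exact absurd hij b1 | exact absurd hij b1.symm
    · intro i
      fin_cases i
      exacts [gya_fv a1 rfl, gya_fv a2 c.symm]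
    · intro i
      fin_cases i
      exacts [gya_fv a1 rfl, gya_fv a2 hd'.symm]
    · intro i
      fin_cases i
      exacts [w1, w2]
  · rintro u1 u1' u2 u2' ⟨a1, a2, b1, c1⟩ ⟨a3, a4, b2, c2⟩ c w1 w2 w3 w4 d1 d2
    have e1 := sub_eq_zero.1 d1
    have e2 := sub_eq_zero.1 d2
    by_contra hne
    by_cases p1 : u1 = u2
    · subst p1
      exact h3 u1 u1' u2' a1 a2 a4 b1 b2 (fun h => hne (Or.inl ⟨rfl, h⟩)) c1.symm c2.symm w1 w2 w4
        e1.symm e2.symm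
    by_cases p2 : u1 = u2'
    · subst p2
      exact h3 u1 u1' u2 a1 a2 a3 b1 p1 (fun h => hne (Or.inr ⟨rfl, h⟩)) c1.symm c2 w1 w2 w3
        e1.symm e2
    by_cases p3 : u1' = u2
    · subst p3
      exact h3 u1' u1 u2' a2 a1 a4 b1.symm b2 p2 c1 c2.symm w2 w1 w4 e1 e2.symm
    by_cases p4 : u1' = u2'
    · subst p4
      exact h3 u1' u1 u2 a2 a1 a3 b1.symm p3 p1 c1 c2 w2 w1 w3 e1 e2
    refine ht.1 (hB (Sum.elim t ![fv N a u1, u1, u1', u2, u2', fv n (Y0 + W * cub t) u1,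
      fv n (Y0 + W * cub t) u2]) ?_ ?_ ?_ ?_)
    · intro i j hij
      fin_cases i <;> fin_cases j <;> first
        | rfl
        | exact absurd hij b1 | exact absurd hij b2 | exact absurd hij p1 | exact absurd hij p2
        | exact absurd hij p3 | exact absurd hij p4
        | exact absurd hij b1.symm | exact absurd hij b2.symm | exact absurd hij (Ne.symm p1)
        | exact absurd hij (Ne.symm p2) | exact absurd hij (Ne.symm p3)
        | exact absurd hij (Ne.symm p4)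
    · intro i
      fin_cases i
      exacts [gya_fv a1 rfl, gya_fv a2 c1.symm, gya_fv a3 c.symm, gya_fv a4 (c2.symm.trans c.symm)]
    · intro i
      fin_cases i
      exacts [gya_fv a1 rfl, gya_fv a2 e1.symm, gya_fv a3 rfl, gya_fv a4 e2.symm]
    · intro i
      fin_cases i
      exacts [w1, w2, w3, w4]

end H62q

end PartGya

section PartGy

open Polynomial

namespace H62q

variable {k : Type} [Field k]

theorem gy_avoid [Infinite k] (S : Finset (k × k)) (hS : ∀ z ∈ S, z.1 ≠ 0 ∨ z.2 ≠ 0) :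
    ∃ l : k, ∀ z ∈ S, z.1 + l * z.2 ≠ 0 := by
  classical
  obtain ⟨l, hl⟩ := Infinite.exists_notMem_finset (S.image fun z => -z.1 / z.2)
  refine ⟨l, fun z hz h0 => ?_⟩
  by_cases h2 : z.2 = 0
  · rw [h2, mul_zero, add_zero] at h0
    rcases hS z hz with h | h
    · exact h h0
    · exact h h2
  · refine hl (Finset.mem_image.mpr ⟨z, hz, ?_⟩)
    rw [div_eq_iff h2]
    linear_combination -h0

theorem gy_dd (n : ℕ) (g h : k[X]) (l u u' : k) :
    dd n (g + C l * h) u u' = dd n g u u' + l * dd n h u u' := by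
  simp only [dd, fv, eval_add, eval_mul, eval_C]
  ring

theorem gy_dd0 (n : ℕ) (g W h : k[X]) {u u' : k} (hu : W.eval u = 0) (hu' : W.eval u' = 0) :
    dd n (g + W * h) u u' = dd n g u u' := by
  simp only [dd, fv, eval_add, eval_mul, hu, hu', zero_mul, add_zero]

theorem gy_cub (t : Fin 4 → k) : (cub t).natDegree ≤ 3 := by
  unfold cub
  compute_degree

theorem gy_sep [IsAlgClosed k] {D N : ℕ} {a Y Z : k[X]} (hG : Good D ![X ^ N, a, Z, Y])
    (hN : 0 < N) (hND : N < D) (haD : a.coeff D ≠ 0) (F : Finset k) :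
    ∃ l : k, (∀ u ∈ F, ∀ u' ∈ F, Pair N a u u' → dd N (Y + C l * Z) u u' ≠ 0) ∧
      (Y + C l * Z).eval 0 ≠ a.eval 0 / a.coeff D * (Y + C l * Z).coeff D := by
  classical
  obtain ⟨l, hl⟩ := gy_avoid (k := k)
    (insert (Y.eval 0 - a.eval 0 / a.coeff D * Y.coeff D, Z.eval 0 - a.eval 0 / a.coeff D * Z.coeff D)
      (((F ×ˢ F).filter fun z => Pair N a z.1 z.2).image
        fun z => (dd N Y z.1 z.2, dd N Z z.1 z.2))) (by
      intro z hz
      rcases Finset.mem_insert.mp hz with rfl | hz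
      · by_contra hc
        push Not at hc
        refine hG.inj' 0 (a.eval 0 / a.coeff D) fun i => ?_
        fin_cases i
        · simp [hN.ne', coeff_X_pow, hND.ne']
        · simp only [Fin.mk_one, Matrix.cons_val_one, Matrix.cons_val_zero]
          rw [div_mul_cancel₀ _ haD]
        · exact sub_eq_zero.mp hc.2
        · exact sub_eq_zero.mp hc.1
      · obtain ⟨w, hw, rfl⟩ := Finset.mem_image.mp hz
        exact (hG.pair_ne (Finset.mem_filter.mp hw).2).symm)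
  refine ⟨l, fun u hu u' hu' hp => ?_, fun h0 => ?_⟩
  · rw [gy_dd]
    exact hl (dd N Y u u', dd N Z u u') (Finset.mem_insert_of_mem (Finset.mem_image.mpr
      ⟨(u, u'), Finset.mem_filter.mpr ⟨Finset.mem_product.mpr ⟨hu, hu'⟩, hp⟩, rfl⟩))
  · refine hl _ (Finset.mem_insert_self _ _) ?_
    simp only [eval_add, eval_mul, eval_C, coeff_add, coeff_C_mul] at h0
    linear_combination h0

theorem gy [IsAlgClosed k] (p : ℕ) [Fact p.Prime] [CharP k p] {D N : ℕ} {a Y Z : k[X]}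
    (hG : Good D ![X ^ N, a, Y, Z]) (hN : 0 < N) (hND : N < D) (ha : a.eval 0 ≠ 0)
    (haD : a.coeff D ≠ 0) (X0 : Finset k) :
    ∃ (i : ℕ) (Y2 Z2 : k[X]) (X1 : Finset k),
      Red D ![X ^ N, a, Y, Z] (D * p ^ i) ![X ^ (N * p ^ i), a ^ p ^ i, Y2, Z2] ∧
      (∀ u u', Pair N a u u' → dd (N * p ^ i) Y2 u u' = 0 → fv N a u ∈ X1 ∧ fv N a u ∉ X0) ∧
      One N a (N * p ^ i) Y2 ∧
      ∀ l, (a ^ p ^ i).eval 0 = l * (a ^ p ^ i).coeff (D * p ^ i) →
        Y2.eval 0 ≠ l * Y2.coeff (D * p ^ i) := by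
  classical
  have hp1 : 1 < p := (Fact.out : p.Prime).one_lt
  obtain ⟨θ, -, XZ, hXZ⟩ := nodefin hN ha Z Y N ∅ ∅ fun u u' hp _ => (hG.pair_ne hp).symm
  have r1 : Red D ![X ^ N, a, Y, Z] D ![X ^ N, a, Y, Z + C θ * Y] := by
    have := red_lin hG 0 0 θ 1 one_ne_zero
    rwa [show C (0 : k) * X ^ N + C 0 * a + C θ * Y + C 1 * Z = Z + C θ * Y by
      simp [add_comm]] at this
  generalize Z + C θ * Y = Z1 at hXZ r1
  have r2 := r1.trans (red_swap23 r1.1)
  have hfin : {u : k | u ≠ 0 ∧ fv N a u ∈ XZ ∪ X0}.Finite := by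
    refine (Set.Finite.biUnion (XZ ∪ X0).finite_toSet fun x _ => fibre_finite hN ha x).subset ?_
    rintro u ⟨h0, h1⟩
    exact Set.mem_biUnion (Finset.mem_coe.mpr h1) ⟨h0, rfl⟩
  obtain ⟨F, hF⟩ : ∃ F : Finset k, ∀ u, u ∈ F ↔ u ≠ 0 ∧ fv N a u ∈ XZ ∪ X0 :=
    ⟨hfin.toFinset, fun u => hfin.mem_toFinset⟩
  obtain ⟨l1, hl1, hl2⟩ := gy_sep r2.1 hN hND haD F
  have r3 : Red D ![X ^ N, a, Y, Z] D ![X ^ N, a, Z1, Y + C l1 * Z1] := by
    have := red_lin r2.1 0 0 l1 1 one_ne_zero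
    rw [show C (0 : k) * X ^ N + C 0 * a + C l1 * Z1 + C 1 * Y = Y + C l1 * Z1 by
      simp [add_comm]] at this
    exact r2.trans this
  generalize Y + C l1 * Z1 = Y1 at hl1 hl2 r3
  obtain ⟨W, hW, hWz⟩ : ∃ W : k[X], W ≠ 0 ∧ ∀ u, W.eval u = 0 ↔ u = 0 ∨ u ∈ F := by
    refine ⟨∏ u ∈ insert 0 F, (X - C u), (monic_prod_X_sub_C _ _).ne_zero, fun u => ?_⟩
    simp only [eval_prod, eval_sub, eval_X, eval_C, Finset.prod_eq_zero_iff, sub_eq_zero,
      exists_eq_right', Finset.mem_insert]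
  obtain ⟨i, hi⟩ : ∃ i : ℕ, W.natDegree + 3 < p ^ i := ⟨_, Nat.lt_pow_self hp1⟩
  have hq : 0 < p ^ i := by omega
  have r4 : Red D ![X ^ N, a, Y, Z] (D * p ^ i)
      ![X ^ (N * p ^ i), a ^ p ^ i, Z1 ^ p ^ i, Y1 ^ p ^ i] := by
    have := red_pow p r3.1 i
    rw [← pow_mul] at this
    exact r3.trans this
  obtain ⟨t, X1, hX1, hone⟩ := gy_alg hN ha (Y1 ^ p ^ i) W (N * p ^ i)
  have had : a.natDegree ≤ D := hG.deg 1
  have hYd : Y1.natDegree ≤ D := r3.1.deg 3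
  have hdeg : (W * cub t).natDegree < D * p ^ i := by
    refine lt_of_le_of_lt natDegree_mul_le ?_
    have := gy_cub t
    have h2 : p ^ i ≤ D * p ^ i := Nat.le_mul_of_pos_left _ hG.pos
    omega
  have he0 : (Y1 ^ p ^ i + W * cub t).eval 0 = Y1.eval 0 ^ p ^ i := by
    rw [eval_add, eval_mul, (hWz 0).mpr (Or.inl rfl), zero_mul, add_zero, eval_pow]
  have hc0 : (Y1 ^ p ^ i + W * cub t).coeff (D * p ^ i) = Y1.coeff D ^ p ^ i := by
    rw [coeff_add, coeff_eq_zero_of_natDegree_lt hdeg, add_zero, coeff_pow_top hYd]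
  have hin : ∀ u u', Pair N a u u' → fv N a u ∈ XZ ∪ X0 → u ∈ F ∧ u' ∈ F := fun u u' hp hx =>
    ⟨(hF u).mpr ⟨hp.1, hx⟩, (hF u').mpr ⟨hp.2.1, hp.2.2.2 ▸ hx⟩⟩
  have r5 := pmv p r4.1 (Nat.mul_pos hN hq) (Nat.mul_lt_mul_of_pos_right hND hq)
    (by rw [eval_pow]; exact pow_ne_zero _ ha)
    (Or.inl (by rw [coeff_pow_top had]; exact pow_ne_zero _ haD)) (Y1 ^ p ^ i + W * cub t)
    (le_trans (natDegree_add_le _ _) (max_le (r4.1.deg 3) hdeg.le))
    (fun u u' hp h0 => by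
      rw [pair_pow] at hp
      rw [dd_pow] at h0
      obtain ⟨h1, h2⟩ := hin u u' hp
        (Finset.mem_union_left _ (hXZ u u' hp (pow_eq_zero_iff hq.ne' |>.mp h0)))
      exact gy_dd0 _ _ _ _ ((hWz u).mpr (Or.inr h1)) ((hWz u').mpr (Or.inr h2)))
    (fun l _ _ => by rw [he0, hc0, eval_pow, coeff_pow_top hYd])
  have key : ∀ u u', Pair N a u u' → dd (N * p ^ i) (Y1 ^ p ^ i + W * cub t) u u' = 0 →
      fv N a u ∉ XZ ∪ X0 ∧ W.eval u ≠ 0 ∧ W.eval u' ≠ 0 := by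
    intro u u' hp h0
    have hx : fv N a u ∉ XZ ∪ X0 := fun hx => by
      obtain ⟨h1, h2⟩ := hin u u' hp hx
      rw [gy_dd0 _ _ _ _ ((hWz u).mpr (Or.inr h1)) ((hWz u').mpr (Or.inr h2)), dd_pow] at h0
      exact hl1 u h1 u' h2 hp (pow_eq_zero_iff hq.ne' |>.mp h0)
    refine ⟨hx, fun hw => ?_, fun hw => ?_⟩
    · rcases (hWz u).mp hw with h | h
      · exact hp.1 h
      · exact hx ((hF u).mp h).2
    · rcases (hWz u').mp hw with h | h
      · exact hp.2.1 h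
      · exact hx (hp.2.2.2 ▸ ((hF u').mp h).2)
  refine ⟨i, Y1 ^ p ^ i + W * cub t, Z1 ^ p ^ i, X1, (r4.trans r5).trans (red_swap23 r5.1),
    fun u u' hp h0 => ?_, fun u1 u1' u2 u2' h1 h2 hx e1 e2 => ?_, fun l hl h0 => ?_⟩
  · obtain ⟨hx, w1, w2⟩ := key u u' hp h0
    exact ⟨hX1 u u' hp w1 w2 h0, fun h => hx (Finset.mem_union_right _ h)⟩
  · obtain ⟨-, w1, w2⟩ := key u1 u1' h1 e1
    obtain ⟨-, w3, w4⟩ := key u2 u2' h2 e2
    exact hone u1 u1' u2 u2' h1 h2 hx w1 w2 w3 w4 e1 e2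
  · rw [eval_pow, coeff_pow_top had] at hl
    rw [he0, hc0] at h0
    have hl' : l = (a.eval 0 / a.coeff D) ^ p ^ i := by
      rw [div_pow, hl, mul_div_cancel_right₀ _ (pow_ne_zero _ haD)]
    rw [hl', ← mul_pow, ← sub_eq_zero, ← sub_pow_char_pow] at h0
    exact hl2 (sub_eq_zero.mp (pow_eq_zero_iff hq.ne' |>.mp h0))


end H62q

end PartGy

section PartM1

open Polynomial

namespace H62q

variable {k : Type} [Field k]

theorem m1_dd_add (n : ℕ) (g h : k[X]) (u u' : k) :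
    dd n (g + h) u u' = dd n g u u' + dd n h u u' := by
  simp only [dd, fv, eval_add]
  ring

theorem m1_dd_swap (n : ℕ) (g : k[X]) (u u' : k) : dd n g u' u = - dd n g u u' := by
  simp only [dd]
  ring

theorem m1_dd {N : ℕ} {a Φ H : k[X]} (n J : ℕ)
    (hH : ∀ u, u ≠ 0 → H.eval u = u ^ J * Φ.eval (fv N a u)) {u u' : k}
    (hp : Pair N a u u') :
    dd n H u u' = Φ.eval (fv N a u) * dd n (X ^ J) u u' := by
  obtain ⟨hu, hu', -, hf⟩ := hp
  have e1 : fv n H u = Φ.eval (fv N a u) * fv n (X ^ J) u := by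
    show H.eval u / u ^ n = _ * ((X ^ J : k[X]).eval u / u ^ n)
    rw [hH u hu, eval_pow, eval_X]
    ring
  have e2 : fv n H u' = Φ.eval (fv N a u) * fv n (X ^ J) u' := by
    show H.eval u' / u' ^ n = _ * ((X ^ J : k[X]).eval u' / u' ^ n)
    rw [hH u' hu', eval_pow, eval_X, hf]
    ring
  unfold dd
  rw [e1, e2]
  ring

theorem m1_val [Infinite k] {N : ℕ} (hN : 0 < N) {a : k[X]} (ha : a.eval 0 ≠ 0) (n m : ℕ)
    (A B E Y : k[X]) (XS : Finset k)
    (hAB : ∀ u u', Pair N a u u' → dd n A u u' ≠ 0 ∨ dd n B u u' ≠ 0)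
    (hB : ∀ u u', Pair N a u u' → fv N a u ∉ XS → dd n B u u' ≠ 0)
    (h2 : One N a m Y) (x : k) :
    ∃ v : k, (x ∈ XS → ∀ u u', Pair N a u u' → fv N a u = x →
        dd n A u u' + v * dd n B u u' ≠ 0) ∧
      (x ∉ XS → ∀ u u', Pair N a u u' → fv N a u = x → dd m Y u u' = 0 →
        dd n A u u' + v * dd n B u u' = dd n E u u') := by
  by_cases hx : x ∈ XS
  · have hF := fibre_finite hN ha x
    have hE : ((fun w : k × k => - dd n A w.1 w.2 / dd n B w.1 w.2) ''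
        ({u : k | u ≠ 0 ∧ fv N a u = x} ×ˢ {u : k | u ≠ 0 ∧ fv N a u = x})).Finite :=
      (hF.prod hF).image _
    obtain ⟨v, hv⟩ := hE.exists_notMem
    refine ⟨v, fun _ u u' hp hu h0 => ?_, fun h => absurd hx h⟩
    by_cases hb : dd n B u u' = 0
    · rcases hAB u u' hp with h | h
      · apply h
        rw [hb, mul_zero, add_zero] at h0
        exact h0
      · exact h hb
    · apply hv
      refine ⟨(u, u'), ⟨⟨hp.1, hu⟩, ⟨hp.2.1, hp.2.2.2 ▸ hu⟩⟩, ?_⟩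
      show - dd n A u u' / dd n B u u' = v
      rw [div_eq_iff hb]
      linear_combination -h0
  · by_cases hex : ∃ u1 u1', Pair N a u1 u1' ∧ fv N a u1 = x ∧ dd m Y u1 u1' = 0
    · obtain ⟨u1, u1', hp1, hu1, hY1⟩ := hex
      have hb := hB u1 u1' hp1 (hu1 ▸ hx)
      have key : dd n A u1 u1' + (dd n E u1 u1' - dd n A u1 u1') / dd n B u1 u1' * dd n B u1 u1'
          = dd n E u1 u1' := by
        rw [div_mul_cancel₀ _ hb]
        ring
      refine ⟨(dd n E u1 u1' - dd n A u1 u1') / dd n B u1 u1', fun h => absurd h hx,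
        fun _ u u' hp hu hY => ?_⟩
      rcases h2 u1 u1' u u' hp1 hp (hu1.trans hu.symm) hY1 hY with ⟨e1, e2⟩ | ⟨e1, e2⟩
      · rw [← e1, ← e2]
        exact key
      · rw [← e1, ← e2, m1_dd_swap n A u1 u1', m1_dd_swap n B u1 u1', m1_dd_swap n E u1 u1']
        linear_combination -key
    · exact ⟨0, fun h => absurd h hx, fun _ u u' hp hu hY => absurd ⟨u, u', hp, hu, hY⟩ hex⟩

theorem m1_sep {N j : ℕ} {a : k[X]}
    (hsep : ∀ u u' : k, u ≠ 0 → u' ≠ 0 → u ^ N = u' ^ N → u ^ j = u' ^ j → u = u') {u u' : k}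
    (hp : Pair N a u u') : dd N 1 u u' ≠ 0 ∨ dd N (X ^ j) u u' ≠ 0 := by
  obtain ⟨hu, hu', hne, -⟩ := hp
  by_contra hcon
  push Not at hcon
  obtain ⟨h1, h2⟩ := hcon
  simp only [dd, fv, eval_one, eval_pow, eval_X, sub_eq_zero] at h1 h2
  have e1 : u ^ N = u' ^ N := by
    rw [one_div, one_div] at h1
    exact inv_injective h1
  rw [e1] at h2
  exact hne (hsep u u' hu hu' e1 ((div_left_inj' (pow_ne_zero N hu')).1 h2))

theorem m1 [IsAlgClosed k] (p : ℕ) [Fact p.Prime] [CharP k p] {D N j i : ℕ} {a Y Z : k[X]}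
    (hN : 0 < N) (hND : N < D) (hj : 0 < j) (hjD : j < D) (had : a.natDegree ≤ D)
    (ha : a.eval 0 ≠ 0) (haD : a.coeff D ≠ 0)
    (hsep : ∀ u u' : k, u ≠ 0 → u' ≠ 0 → u ^ N = u' ^ N → u ^ j = u' ^ j → u = u')
    {XS X1 : Finset k} (hS : Sig N j a XS)
    (hG : Good (D * p ^ i) ![X ^ (N * p ^ i), a ^ p ^ i, Y, Z])
    (h1 : ∀ u u', Pair N a u u' → dd (N * p ^ i) Y u u' = 0 → fv N a u ∈ X1 ∧ fv N a u ∉ XS)
    (h2 : One N a (N * p ^ i) Y)
    (h3 : ∀ l, (a ^ p ^ i).eval 0 = l * (a ^ p ^ i).coeff (D * p ^ i) →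
      Y.eval 0 ≠ l * Y.coeff (D * p ^ i)) :
    ∃ (i' : ℕ) (Y1 Φ H : k[X]) (X3 : Finset k), Φ ≠ 0 ∧ H.natDegree < D * p ^ i' ∧ H.eval 0 = 0 ∧
      (∀ u, u ≠ 0 → H.eval u = u ^ (j * p ^ i') * Φ.eval (fv N a u)) ∧
      Red (D * p ^ i) ![X ^ (N * p ^ i), a ^ p ^ i, Y, Z]
        (D * p ^ i') ![X ^ (N * p ^ i'), a ^ p ^ i', Y1, 1 + H] ∧
      ∀ u u', Pair N a u u' → dd (N * p ^ i') (1 + H) u u' = 0 →
        fv N a u ∈ X3 ∧ fv N a u ∉ XS := by
  classical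
  have hp1 : 1 < p := (Fact.out : p.Prime).one_lt
  have hp0 : 0 < p := by omega
  obtain ⟨S, hSdef⟩ : ∃ S : Finset k, S = X1 ∪ XS := ⟨_, rfl⟩
  obtain ⟨s, hs⟩ : ∃ s : ℕ, D * S.card < p ^ s := ⟨_, Nat.lt_pow_self hp1⟩
  have hq : D * S.card < p ^ (i + s) :=
    lt_of_lt_of_le hs (Nat.pow_le_pow_right hp0 (Nat.le_add_left s i))
  have hq0 : 0 < p ^ (i + s) := pow_pos hp0 _
  have hr0 : p ^ s ≠ 0 := (pow_pos hp0 _).ne'
  have eD : D * p ^ i * p ^ s = D * p ^ (i + s) := by rw [pow_add, mul_assoc]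
  have eN : N * p ^ i * p ^ s = N * p ^ (i + s) := by rw [pow_add, mul_assoc]
  have ea : (a ^ p ^ i) ^ p ^ s = a ^ p ^ (i + s) := by rw [← pow_mul, pow_add]
  have eX : ((X : k[X]) ^ (N * p ^ i)) ^ p ^ s = X ^ (N * p ^ (i + s)) := by rw [← pow_mul, eN]
  have hR1 := red_pow p hG s
  rw [eD, ea, eX] at hR1
  have eL : ∀ u u' : k, dd (N * p ^ (i + s)) 1 u u' = dd N 1 u u' ^ p ^ (i + s) := fun u u' => by
    rw [← dd_pow p N 1 (i + s) u u', one_pow]
  have eM : ∀ u u' : k, dd (N * p ^ (i + s)) (X ^ (j * p ^ (i + s))) u u' =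
      dd N (X ^ j) u u' ^ p ^ (i + s) := fun u u' => by
    rw [← dd_pow p N (X ^ j) (i + s) u u', pow_mul]
  have hM : ∀ u u', Pair N a u u' → fv N a u ∉ XS →
      dd (N * p ^ (i + s)) (X ^ (j * p ^ (i + s))) u u' ≠ 0 := fun u u' hp hx => by
    rw [eM]
    exact pow_ne_zero _ (hS.1 u u' hp hx)
  choose v hv1 hv2 using m1_val hN ha (N * p ^ (i + s)) (N * p ^ i) 1 (X ^ (j * p ^ (i + s)))
    (Z ^ p ^ s) Y XS (fun u u' hp => by
      rw [eL, eM]
      exact (m1_sep hsep hp).imp (pow_ne_zero _) (pow_ne_zero _)) hM h2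
  obtain ⟨Z1, hZ1d, hZ1⟩ : ∃ Z1 : k[X], Z1.degree < S.card ∧ ∀ x ∈ S, Z1.eval x = v x :=
    ⟨Lagrange.interpolate S id v, Lagrange.degree_interpolate_lt v (Set.injOn_id _),
      fun x hx => Lagrange.eval_interpolate_at_node v (Set.injOn_id _) hx⟩
  obtain ⟨W, hWm, hWd, hW⟩ : ∃ W : k[X], W.Monic ∧ W.natDegree = S.card ∧
      ∀ x, W.eval x = 0 ↔ x ∈ S := by
    refine ⟨∏ x ∈ S, (X - C x), monic_prod_of_monic _ _ fun x _ => monic_X_sub_C x, ?_,
      fun x => ?_⟩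
    · rw [natDegree_prod_of_monic _ _ fun x _ => monic_X_sub_C x]
      simp
    · simp [eval_prod, Finset.prod_eq_zero_iff, sub_eq_zero]
  have hZ1n : Z1.natDegree ≤ S.card := natDegree_le_of_degree_le hZ1d.le
  have hb1 : ∀ n, n ≤ S.card → N * n < j * p ^ (i + s) := fun n hn => by
    calc N * n ≤ D * S.card := Nat.mul_le_mul hND.le hn
      _ < p ^ (i + s) := hq
      _ ≤ j * p ^ (i + s) := Nat.le_mul_of_pos_left _ hj
  have hb2 : ∀ n, n ≤ S.card → j * p ^ (i + s) + (D - N) * n < D * p ^ (i + s) := fun n hn => by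
    calc j * p ^ (i + s) + (D - N) * n ≤ j * p ^ (i + s) + D * S.card :=
          Nat.add_le_add_left (Nat.mul_le_mul (Nat.sub_le _ _) hn) _
      _ < j * p ^ (i + s) + p ^ (i + s) := Nat.add_lt_add_left hq _
      _ = (j + 1) * p ^ (i + s) := by ring
      _ ≤ D * p ^ (i + s) := Nat.mul_le_mul_right _ hjD
  obtain ⟨H1, hH1d, hH10, hH1⟩ := exists_H had hND Z1 _ _ (hb1 _ hZ1n) (hb2 _ hZ1n)
  obtain ⟨H2, hH2d, hH20, hH2⟩ := exists_H had hND W _ _ (hb1 _ hWd.le) (hb2 _ hWd.le)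
  obtain ⟨θ, hθ, X3, hX3⟩ := nodefin hN ha (1 + H1) H2 (N * p ^ (i + s)) S {0}
    (fun u u' hp hx => Or.inr (by
      rw [m1_dd _ _ hH2 hp]
      refine mul_ne_zero (fun h => hx ((hW _).1 h)) (hM u u' hp fun h => hx ?_)
      rw [hSdef]
      exact Finset.mem_union_right _ h))
  have hθ0 : θ ≠ 0 := fun h => hθ (by rw [h]; exact Finset.mem_singleton_self _)
  have hH : ∀ u : k, u ≠ 0 → (H1 + C θ * H2).eval u =
      u ^ (j * p ^ (i + s)) * (Z1 + C θ * W).eval (fv N a u) := fun u hu => by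
    rw [eval_add, eval_mul, eval_C, hH1 u hu, hH2 u hu, eval_add, eval_mul, eval_C]
    ring
  have hHd : (H1 + C θ * H2).natDegree < D * p ^ (i + s) :=
    lt_of_le_of_lt (natDegree_add_le _ _)
      (max_lt hH1d (lt_of_le_of_lt (natDegree_C_mul_le _ _) hH2d))
  have hval : ∀ u u', Pair N a u u' → fv N a u ∈ S →
      dd (N * p ^ (i + s)) (1 + (H1 + C θ * H2)) u u' = dd (N * p ^ (i + s)) 1 u u' +
        v (fv N a u) * dd (N * p ^ (i + s)) (X ^ (j * p ^ (i + s))) u u' := fun u u' hp hx => by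
    rw [m1_dd_add, m1_dd _ _ hH hp, eval_add, eval_mul, (hW _).2 hx, mul_zero, add_zero, hZ1 _ hx]
  refine ⟨i + s, Y ^ p ^ s, Z1 + C θ * W, H1 + C θ * H2, X3, ?_, hHd, ?_, hH, ?_, ?_⟩
  · intro h0
    have := congrArg (fun P : k[X] => P.coeff S.card) h0
    simp only [coeff_add, coeff_C_mul, coeff_zero] at this
    rw [coeff_eq_zero_of_degree_lt hZ1d, ← hWd, hWm.coeff_natDegree, zero_add, mul_one] at this
    exact hθ0 this
  · rw [eval_add, eval_mul, hH10, hH20, mul_zero, add_zero]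
  · refine hR1.trans (pmv p hR1.1 (Nat.mul_pos hN hq0) (Nat.mul_lt_mul_of_pos_right hND hq0) ?_
      (Or.inl ?_) _ ?_ ?_ ?_)
    · rw [eval_pow]
      exact pow_ne_zero _ ha
    · rw [coeff_pow_top had]
      exact pow_ne_zero _ haD
    · refine le_trans (natDegree_add_le _ _) (max_le ?_ hHd.le)
      rw [natDegree_one]
      exact Nat.zero_le _
    · intro u u' hp hY
      rw [pair_pow] at hp
      rw [← eN, dd_pow] at hY
      have hY0 := (pow_eq_zero_iff hr0).1 hY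
      obtain ⟨hx1, hx2⟩ := h1 u u' hp hY0
      rw [hval u u' hp (by rw [hSdef]; exact Finset.mem_union_left _ hx1)]
      exact hv2 _ hx2 u u' hp rfl hY0
    · intro l hl1 hl2
      exfalso
      obtain ⟨l0, rfl⟩ := IsAlgClosed.exists_pow_nat_eq l (Nat.pos_of_ne_zero hr0)
      have hda : (a ^ p ^ i).natDegree ≤ D * p ^ i := hG.deg 1
      have hdY : Y.natDegree ≤ D * p ^ i := hG.deg 2
      rw [← ea, ← eD, coeff_pow_top hda, eval_pow, ← mul_pow] at hl1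
      rw [← eD, coeff_pow_top hdY, eval_pow, ← mul_pow] at hl2
      exact h3 l0 (H33s.pow_q_inj p s hl1) (H33s.pow_q_inj p s hl2)
  · intro u u' hp h0
    refine ⟨hX3 u u' hp (by rw [add_assoc]; exact h0), fun hx => ?_⟩
    rw [hval u u' hp (by rw [hSdef]; exact Finset.mem_union_right _ hx)] at h0
    exact hv1 _ hx u u' hp rfl h0

end H62q

end PartM1

section PartM23

open Polynomial

namespace H62q

variable {k : Type} [Field k]

theorem m23_add (n : ℕ) (f g : k[X]) (u u' : k) :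
    dd n (f + g) u u' = dd n f u u' + dd n g u u' := by
  simp only [dd, fv, eval_add]
  ring

theorem m23_C (n : ℕ) (c : k) (g : k[X]) (u u' : k) : dd n (C c * g) u u' = c * dd n g u u' := by
  simp only [dd, fv, eval_mul, eval_C]
  ring

theorem m23_swap (n : ℕ) (g : k[X]) (u u' : k) : dd n g u' u = -dd n g u u' := by
  simp only [dd]
  ring

theorem m23_H {N J : ℕ} (n : ℕ) {a Φ H : k[X]}
    (hH : ∀ u, u ≠ 0 → H.eval u = u ^ J * Φ.eval (fv N a u)) {u u' : k} (hp : Pair N a u u') :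
    dd n H u u' = Φ.eval (fv N a u) * dd n (X ^ J) u u' := by
  unfold dd
  rw [show fv n H u = H.eval u / u ^ n from rfl, show fv n H u' = H.eval u' / u' ^ n from rfl,
    hH u hp.1, hH u' hp.2.1, ← hp.2.2.2]
  generalize Φ.eval (fv N a u) = y
  simp only [fv, eval_pow, eval_X]
  ring

theorem m23 [IsAlgClosed k] (p : ℕ) [Fact p.Prime] [CharP k p] (hT : Tors k) {D N j i : ℕ}
    {a Y Φ H : k[X]} (hN : 0 < N) (hND : N < D) (hj : 0 < j) (hjD : j < D)
    (had : a.natDegree ≤ D) (ha : a.eval 0 ≠ 0) (haD : a.coeff D ≠ 0)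
    {XS X3 : Finset k} (hS : Sig N j a XS) (hΦ : Φ ≠ 0) (hHd : H.natDegree < D * p ^ i)
    (hH0 : H.eval 0 = 0) (hH : ∀ u, u ≠ 0 → H.eval u = u ^ (j * p ^ i) * Φ.eval (fv N a u))
    (hG : Good (D * p ^ i) ![X ^ (N * p ^ i), a ^ p ^ i, Y, 1 + H])
    (h1 : ∀ u u', Pair N a u u' → dd (N * p ^ i) (1 + H) u u' = 0 →
      fv N a u ∈ X3 ∧ fv N a u ∉ XS) :
    ∃ (i' : ℕ) (Y' : k[X]) (c : k), c ≠ 0 ∧
      Red (D * p ^ i) ![X ^ (N * p ^ i), a ^ p ^ i, Y, 1 + H]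
        (D * p ^ i') ![X ^ (N * p ^ i'), a ^ p ^ i', Y', 1 + C c * X ^ (j * p ^ i')] := by
  classical
  have hp : 0 < p := (Fact.out : p.Prime).pos
  have dM : ∀ (s : ℕ) (u u' : k), dd (N * p ^ s) (X ^ (j * p ^ s)) u u' =
      dd N (X ^ j) u u' ^ p ^ s := fun s u u' => by rw [pow_mul X, dd_pow p]
  have dL : ∀ (s : ℕ) (u u' : k), dd (N * p ^ s) (1 : k[X]) u u' = dd N 1 u u' ^ p ^ s :=
    fun s u u' => by rw [← dd_pow p, one_pow]
  have dZ : ∀ u u', Pair N a u u' → dd (N * p ^ i) (1 + H) u u' =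
      dd N 1 u u' ^ p ^ i + Φ.eval (fv N a u) * dd N (X ^ j) u u' ^ p ^ i := fun u u' h => by
    rw [m23_add, m23_H _ hH h, dL, dM]
  obtain ⟨w, w0, hw⟩ : ∃ w : k → k, (∀ x, w x ≠ 0) ∧ ∀ u u', Pair N a u u' →
      dd (N * p ^ i) (1 + H) u u' = 0 →
      dd (N * p ^ i) Y u u' = w (fv N a u) * dd (N * p ^ i) (X ^ (j * p ^ i)) u u' := by
    have key : ∀ x : k, ∃ y : k, y ≠ 0 ∧ ∀ u u', Pair N a u u' →
        dd (N * p ^ i) (1 + H) u u' = 0 → fv N a u = x →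
        dd (N * p ^ i) Y u u' = y * dd (N * p ^ i) (X ^ (j * p ^ i)) u u' := by
      intro x
      by_cases h : ∃ v v', Pair N a v v' ∧ dd (N * p ^ i) (1 + H) v v' = 0 ∧ fv N a v = x
      · obtain ⟨v, v', a1, a2, a3⟩ := h
        have m0 : dd (N * p ^ i) (X ^ (j * p ^ i)) v v' ≠ 0 := by
          rw [dM]
          exact pow_ne_zero _ (hS.1 v v' a1 (h1 v v' a1 a2).2)
        have y0 : dd (N * p ^ i) Y v v' ≠ 0 :=
          (hG.pair_ne ((pair_pow p N a i v v').2 a1)).resolve_right (not_not.2 a2)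
        refine ⟨dd (N * p ^ i) Y v v' / dd (N * p ^ i) (X ^ (j * p ^ i)) v v',
          div_ne_zero y0 m0, fun u u' b1 b2 b3 => ?_⟩
        have e := b3.trans a3.symm
        have sm := hS.2 u u' v v' b1 a1 e (h1 u u' b1 b2).2 (by
          have c1 := dZ u u' b1
          have c2 := dZ v v' a1
          rw [b2, e] at c1
          rw [a2] at c2
          rw [← sub_eq_zero, ← pow_eq_zero_iff (n := p ^ i) (by positivity), sub_pow_char_pow,
            mul_pow, mul_pow]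
          linear_combination dd N (X ^ j) u u' ^ p ^ i * c2 - dd N (X ^ j) v v' ^ p ^ i * c1)
        rcases sm with ⟨rfl, rfl⟩ | ⟨rfl, rfl⟩
        · rw [div_mul_cancel₀ _ m0]
        · rw [m23_swap _ Y u' u, m23_swap _ (X ^ (j * p ^ i)) u' u, mul_neg,
            div_mul_cancel₀ _ m0]
      · exact ⟨1, one_ne_zero, fun u u' b1 b2 b3 => (h ⟨u, u', b1, b2, b3⟩).elim⟩
    choose w w0 hw using key
    exact ⟨w, w0, fun u u' b1 b2 => hw _ u u' b1 b2 rfl⟩
  obtain ⟨ξ, e, x1, e0, -, x2⟩ := dir p hT X3 Φ.roots.toFinset w (fun x _ => w0 x) 1 one_pos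
  obtain ⟨s, s1, s2⟩ := fix p hT (X3.image w) (D * e)
  have Q0 : 0 < p ^ (i + s) := by positivity
  have Q1 : D * e < p ^ (i + s) := s1.trans_le (Nat.pow_le_pow_right hp (by omega))
  have nd : ((X - C ξ) ^ e).natDegree = e := by rw [natDegree_pow, natDegree_X_sub_C, mul_one]
  obtain ⟨Y', y1, y2, y3⟩ := exists_H had hND ((X - C ξ) ^ e) (j * p ^ (i + s)) (D * p ^ (i + s))
    (by rw [nd]; nlinarith) (by
      rw [nd]
      have := Nat.mul_le_mul_right e (Nat.sub_le D N)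
      nlinarith)
  have c0 : Φ.eval ξ ≠ 0 := fun h => x1 (Multiset.mem_toFinset.2 ((mem_roots hΦ).2 h))
  refine ⟨i + s, Y', Φ.eval ξ ^ p ^ s, pow_ne_zero _ c0, ?_⟩
  have l1 : ∀ n : ℕ, n * p ^ i * p ^ s = n * p ^ (i + s) := fun n => by rw [pow_add, mul_assoc]
  have r1 := red_pow p hG s
  rw [← pow_mul X, ← pow_mul a, l1, l1, ← pow_add] at r1
  have N0 : 0 < N * p ^ (i + s) := by positivity
  have N1 : N * p ^ (i + s) < D * p ^ (i + s) := Nat.mul_lt_mul_of_pos_right hND Q0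
  have J0 : 0 < j * p ^ (i + s) := by positivity
  have J1 : j * p ^ (i + s) < D * p ^ (i + s) := Nat.mul_lt_mul_of_pos_right hjD Q0
  have a0 : (a ^ p ^ (i + s)).eval 0 ≠ 0 := by rw [eval_pow]; exact pow_ne_zero _ ha
  have aD : (a ^ p ^ (i + s)).coeff (D * p ^ (i + s)) ≠ 0 := by
    rw [coeff_pow_top had]; exact pow_ne_zero _ haD
  have zd : (1 + H).natDegree < D * p ^ i :=
    (natDegree_add_le _ _).trans_lt (max_lt (by rw [natDegree_one]; omega) hHd)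
  have z0 : ((1 + H) ^ p ^ s).eval 0 = 1 := by simp [hH0]
  have zD : ((1 + H) ^ p ^ s).coeff (D * p ^ (i + s)) = 0 := by
    rw [← l1, coeff_pow_top zd.le, coeff_eq_zero_of_natDegree_lt zd, zero_pow (by positivity)]
  have dp : ∀ (g : k[X]) (u u' : k), dd (N * p ^ (i + s)) (g ^ p ^ s) u u' =
      dd (N * p ^ i) g u u' ^ p ^ s := fun g u u' => by rw [← l1, dd_pow p]
  have dY : ∀ u u', Pair N a u u' → dd (N * p ^ (i + s)) Y' u u' =
      (fv N a u - ξ) ^ e * dd N (X ^ j) u u' ^ p ^ (i + s) := fun u u' h => by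
    rw [m23_H _ y3 h, dM]
    simp
  have r2 := red_swap23 r1.1
  have r3 := pmv p r2.1 N0 N1 a0 (Or.inl aD) Y' y1.le (fun u u' b1 b2 => by
      have b1 := (pair_pow p N a _ u u').1 b1
      rw [dp, pow_eq_zero_iff (by positivity)] at b2
      have b3 := (h1 u u' b1 b2).1
      rw [dY u u' b1, dp, hw u u' b1 b2, mul_pow, s2 _ (Finset.mem_image_of_mem w b3), x2 _ b3, dM,
        ← pow_mul, ← pow_add])
    fun l _ b2 => by
      rw [z0, zD, mul_zero] at b2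
      exact (one_ne_zero b2).elim
  have r4 := red_swap23 r3.1
  have r5 := pmv p r4.1 N0 N1 a0 (Or.inl aD) (1 + C (Φ.eval ξ ^ p ^ s) * X ^ (j * p ^ (i + s)))
    ((natDegree_add_le _ _).trans (max_le (by rw [natDegree_one]; omega)
      ((natDegree_C_mul_X_pow_le _ _).trans J1.le)))
    (fun u u' b1 b2 => by
      have b1 := (pair_pow p N a _ u u').1 b1
      rw [dY u u' b1] at b2
      rw [dp, dZ u u' b1, add_pow_char_pow, mul_pow, ← pow_mul, ← pow_mul, ← pow_add, m23_add,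
        m23_C, dL, dM]
      rcases mul_eq_zero.1 b2 with b | b
      · rw [sub_eq_zero.1 (pow_eq_zero_iff e0.ne' |>.1 b)]
      · rw [b, mul_zero, mul_zero])
    fun l _ _ => by
      rw [z0, zD, coeff_add, coeff_C_mul, coeff_X_pow, if_neg J1.ne', coeff_one, if_neg (by omega)]
      simp [J0.ne']
  exact r1.trans (r2.trans (r3.trans (r4.trans r5)))


end H62q

end PartM23

section PartThree

open Polynomial

namespace H62q

variable {k : Type} [Field k]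

theorem three_rho [Infinite k] {a b c a' b' c' : k} (h : a ≠ 0 ∨ b ≠ 0 ∨ c ≠ 0)
    (h' : a' ≠ 0 ∨ b' ≠ 0 ∨ c' ≠ 0) :
    ∃ ρ : k, a + ρ * b + ρ ^ 2 * c ≠ 0 ∧ a' + ρ * b' + ρ ^ 2 * c' ≠ 0 := by
  classical
  have hne : ∀ a b c : k, (a ≠ 0 ∨ b ≠ 0 ∨ c ≠ 0) →
      (C a + C b * X + C c * X ^ 2 : k[X]) ≠ 0 := by
    intro a b c h h0
    have e0 := congrArg (fun P : k[X] => P.coeff 0) h0
    have e1 := congrArg (fun P : k[X] => P.coeff 1) h0
    have e2 := congrArg (fun P : k[X] => P.coeff 2) h0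
    simp [coeff_X, coeff_C, coeff_X_pow] at e0 e1 e2
    exact h.elim (fun h => h e0) fun h => h.elim (fun h => h e1) fun h => h e2
  have hP := mul_ne_zero (hne a b c h) (hne a' b' c' h')
  obtain ⟨ρ, hρ⟩ := Infinite.exists_notMem_finset
    ((C a + C b * X + C c * X ^ 2) * (C a' + C b' * X + C c' * X ^ 2) : k[X]).roots.toFinset
  rw [Multiset.mem_toFinset, mem_roots hP, IsRoot.def, eval_mul, mul_eq_zero, not_or] at hρ
  refine ⟨ρ, fun h0 => hρ.1 ?_, fun h0 => hρ.2 ?_⟩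
  · simp only [eval_add, eval_mul, eval_pow, eval_C, eval_X]
    linear_combination h0
  · simp only [eval_add, eval_mul, eval_pow, eval_C, eval_X]
    linear_combination h0

theorem three_cub_deg (t : Fin 4 → k) : (cub t).natDegree ≤ 3 := by
  unfold cub
  compute_degree

theorem three [IsAlgClosed k] (p : ℕ) [Fact p.Prime] [CharP k p] (hT : Tors k) {D N j : ℕ}
    {a Y Z : k[X]} (hG : Good D ![X ^ N, a, Y, Z]) (hN : 0 < N) (hND : N < D) (hj : 0 < j)
    (hjD : j < D) (hNj : N ≠ j)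
    (hsep : ∀ u u' : k, u ≠ 0 → u' ≠ 0 → u ^ N = u' ^ N → u ^ j = u' ^ j → u = u') :
    ∃ (i : ℕ) (a' Y' : k[X]) (c : k), c ≠ 0 ∧
      Red D ![X ^ N, a, Y, Z] (D * p ^ i)
        ![X ^ (N * p ^ i), a', Y', 1 + C c * X ^ (j * p ^ i)] := by
  classical
  have h0 : a.eval 0 ≠ 0 ∨ Y.eval 0 ≠ 0 ∨ Z.eval 0 ≠ 0 := by
    by_contra hcon
    push Not at hcon
    refine hG.inj' 0 0 fun i => ?_
    fin_cases i <;> simp [hN.ne', hcon.1, hcon.2.1, hcon.2.2]
  have hD : a.coeff D ≠ 0 ∨ Y.coeff D ≠ 0 ∨ Z.coeff D ≠ 0 := by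
    by_contra hcon
    push Not at hcon
    obtain ⟨i, hi⟩ := hG.top
    apply hi
    fin_cases i <;> simp [coeff_X_pow, hND.ne', hcon.1, hcon.2.1, hcon.2.2]
  obtain ⟨ρ, hρ0, hρD⟩ := three_rho h0 hD
  have r1 := red_swap13 hG
  have r2 := red_lin r1.1 0 (ρ ^ 2) ρ 1 one_ne_zero
  set a1 : k[X] := C 0 * X ^ N + C (ρ ^ 2) * Z + C ρ * Y + C 1 * a with ha1
  have ha10 : a1.eval 0 ≠ 0 := by
    intro h
    apply hρ0
    simp only [ha1, eval_add, eval_mul, eval_C] at h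
    linear_combination h
  have ha1D : a1.coeff D ≠ 0 := by
    intro h
    apply hρD
    simp only [ha1, coeff_add, coeff_C_mul] at h
    linear_combination h
  have ha1d : a1.natDegree ≤ D := r2.1.deg 3
  obtain ⟨t1, t2, S, hb, ht, hn1, hn2⟩ := projfin r2.1 (pow_ne_zero _ X_ne_zero)
  have r3 := red_swap13 r2.1
  have r4 := red_lin r3.1 0 t1 0 1 one_ne_zero
  rw [show C 0 * X ^ N + C t1 * a1 + C 0 * Y + C 1 * Z = Z + C t1 * a1 by
    simp only [map_zero, map_one]; ring] at r4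
  have r5 := red_swap23 r4.1
  have r6 := red_lin r5.1 0 t2 0 1 one_ne_zero
  rw [show C 0 * X ^ N + C t2 * a1 + C 0 * (Z + C t1 * a1) + C 1 * Y = Y + C t2 * a1 by
    simp only [map_zero, map_one]; ring] at r6
  have r7 := red_swap13 r6.1
  set Z1 : k[X] := Z + C t1 * a1 with hZ1
  set Y1 : k[X] := Y + C t2 * a1 with hY1
  have hZ1d : Z1.natDegree ≤ D := r7.1.deg 2
  have hY1d : Y1.natDegree ≤ D := r7.1.deg 1
  obtain ⟨i, hi, -⟩ := fix p hT ∅ (S.card + 4)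
  have hq : 0 < p ^ i := by omega
  have r8 := red_pow p r7.1 i
  set W : k[X] := X * ∏ s ∈ S, (X - C s) with hW
  have hW0 : W ≠ 0 :=
    mul_ne_zero X_ne_zero (Finset.prod_ne_zero_iff.2 fun s _ => X_sub_C_ne_zero s)
  have hWS : ∀ u ∈ S, W.eval u = 0 := fun u hu => by
    rw [hW, eval_mul, eval_prod, Finset.prod_eq_zero hu (by simp), mul_zero]
  have hWd : W.natDegree ≤ S.card + 1 := by
    refine natDegree_mul_le.trans ?_
    rw [natDegree_X, natDegree_finsetProd_X_sub_C_eq_card]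
    omega
  obtain ⟨t, XS, hSig⟩ := gf (Nat.mul_pos hN hq) (Nat.mul_pos hj hq)
    (fun h => hNj (Nat.eq_of_mul_eq_mul_right hq h)) (a1 ^ p ^ i) W hW0
  have hlt : (W * cub t).natDegree < D * p ^ i := by
    have h1 := natDegree_mul_le (p := W) (q := cub t)
    have h2 := three_cub_deg t
    have h3 : p ^ i ≤ D * p ^ i := Nat.le_mul_of_pos_left _ hG.pos
    omega
  have hco : (W * cub t).coeff (D * p ^ i) = 0 := coeff_eq_zero_of_natDegree_lt hlt
  set a2 : k[X] := a1 ^ p ^ i + W * cub t with ha2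
  have ha2d : a2.natDegree ≤ D * p ^ i :=
    (natDegree_add_le _ _).trans (max_le (r8.1.deg 3) hlt.le)
  have hXd : (X ^ N : k[X]).natDegree ≤ D := hG.deg 0
  have hroot : ∀ x y l0 : k, x ^ p ^ i = l0 ^ p ^ i * y ^ p ^ i → x = l0 * y := fun x y l0 h =>
    H33s.pow_q_inj p i (by rw [h, mul_pow])
  have r9 := mv p r8.1 a2 ha2d
    (fun u => by
      simp only [eval_pow (p := X ^ N), eval_pow (p := Y1), eval_pow (p := Z1), ne_eq,
        pow_eq_zero_iff hq.ne']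
      exact (hb u).imp_right Or.symm)
    (by
      simp only [coeff_pow_top hXd, coeff_pow_top hY1d, coeff_pow_top hZ1d, ne_eq,
        pow_eq_zero_iff hq.ne']
      exact ht.imp_right Or.symm)
    (fun u u' l hne e0 e1 e2 => by
      obtain ⟨l0, rfl⟩ := IsAlgClosed.exists_pow_nat_eq l hq
      rw [eval_pow (p := X ^ N), eval_pow (p := X ^ N)] at e0
      rw [eval_pow, eval_pow] at e1 e2
      obtain ⟨hu, hu'⟩ := hn1 u u' l0 hne (hroot _ _ _ e0) (hroot _ _ _ e2) (hroot _ _ _ e1)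
      simp only [ha2, eval_add, eval_mul, hWS u hu, hWS u' hu', zero_mul, add_zero])
    (fun u l e0 e1 e2 => by
      obtain ⟨l0, rfl⟩ := IsAlgClosed.exists_pow_nat_eq l hq
      rw [eval_pow (p := X ^ N), coeff_pow_top hXd] at e0
      rw [eval_pow, coeff_pow_top hY1d] at e1
      rw [eval_pow, coeff_pow_top hZ1d] at e2
      have hu := hn2 u l0 (hroot _ _ _ e0) (hroot _ _ _ e2) (hroot _ _ _ e1)
      simp only [ha2, eval_add, eval_mul, hWS u hu, zero_mul, add_zero, coeff_add, hco])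
  have r10 := red_swap13 r9.1
  have rA := (((((((((r1.trans r2).trans r3).trans r4).trans r5).trans r6).trans r7).trans
    r8).trans r9).trans r10)
  rw [← pow_mul] at rA
  have ha20 : a2.eval 0 ≠ 0 := by
    rw [ha2, eval_add, eval_mul, eval_pow, hW, eval_mul, eval_X, zero_mul, zero_mul, add_zero]
    exact pow_ne_zero _ ha10
  have ha2D : a2.coeff (D * p ^ i) ≠ 0 := by
    rw [ha2, coeff_add, hco, add_zero, coeff_pow_top ha1d]
    exact pow_ne_zero _ ha1D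
  have hN' : 0 < N * p ^ i := Nat.mul_pos hN hq
  have hj' : 0 < j * p ^ i := Nat.mul_pos hj hq
  have hND' : N * p ^ i < D * p ^ i := Nat.mul_lt_mul_of_pos_right hND hq
  have hjD' : j * p ^ i < D * p ^ i := Nat.mul_lt_mul_of_pos_right hjD hq
  obtain ⟨i2, Y2, Z2, X1, rB, g1, g2, g3⟩ := gy p rA.1 hN' hND' ha20 ha2D XS
  obtain ⟨i3, Y3, Φ, H, X3, hΦ, hHd, hH0, hH, rC, m1'⟩ := m1 p hN' hND' hj' hjD' ha2d ha20 ha2D
    (fun u u' hu hu' e1 e2 => hsep u u' hu hu'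
      (H33s.pow_q_inj p i (by rw [← pow_mul, ← pow_mul, e1]))
      (H33s.pow_q_inj p i (by rw [← pow_mul, ← pow_mul, e2]))) hSig rB.1 g1 g2 g3
  obtain ⟨i4, Y4, c, hc, rD⟩ := m23 p hT hN' hND' hj' hjD' ha2d ha20 ha2D hSig hΦ hHd hH0 hH
    rC.1 m1'
  refine ⟨i + i4, a2 ^ p ^ i4, Y4, c, hc, ?_⟩
  have rE := ((rA.trans rB).trans rC).trans rD
  simpa only [pow_add, mul_assoc] using rE

end H62q

end PartThree

section PartSt0

open Polynomial

namespace H62q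

variable {k : Type} [Field k]

theorem st0_lin [IsAlgClosed k] {D D' : ℕ} {P : Fin 4 → k[X]} {a b c h : k[X]}
    (R : Red D P D' ![a, b, c, h]) (α β γ : k) :
    Red D P D' ![a, b, c, h + C α * a + C β * b + C γ * c] := by
  have := R.trans (red_lin R.1 α β γ 1 one_ne_zero)
  rwa [show C α * a + C β * b + C γ * c + C 1 * h = h + C α * a + C β * b + C γ * c by
    rw [C_1]; ring] at this

theorem st0_top [IsAlgClosed k] {D : ℕ} {P : Fin 4 → k[X]} {a b c h : k[X]}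
    (R : Red D P D ![a, b, c, h]) (ha : a.coeff D ≠ 0) :
    ∃ h' : k[X], h'.coeff D = 0 ∧ Red D P D ![a, b, c, h'] :=
  ⟨_, by simp [ha], st0_lin R (-(h.coeff D / a.coeff D)) 0 0⟩

theorem st0_root [IsAlgClosed k] (p : ℕ) [Fact p.Prime] [CharP k p] (i : ℕ) (l : k) :
    ∃ l' : k, ∀ x y : k, x ^ p ^ i = l * y ^ p ^ i → x = l' * y := by
  obtain ⟨l', rfl⟩ := IsAlgClosed.exists_pow_nat_eq l (pow_pos (Fact.out : p.Prime).pos i)
  refine ⟨l', fun x y h => ?_⟩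
  rw [← mul_pow, ← sub_eq_zero, ← sub_pow_char_pow] at h
  exact sub_eq_zero.1 (pow_eq_zero_iff (pow_pos (Fact.out : p.Prime).pos i).ne' |>.1 h)

theorem st0 [IsAlgClosed k] (p : ℕ) [Fact p.Prime] [CharP k p] (hT : Tors k) {D : ℕ}
    {P : Fin 4 → k[X]} (hG : Good D P) :
    ∃ (D0 e : ℕ) (a Y Z : k[X]), 2 ≤ e ∧ e < D0 ∧ Red D P D0 ![X ^ e, a, Y, Z] := by
  classical
  obtain ⟨j, hj⟩ := hG.top
  have R0 := red_perm hG (Equiv.swap 0 j) ![P j, P (Equiv.swap 0 j 1), P (Equiv.swap 0 j 2),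
    P (Equiv.swap 0 j 3)] fun i => by fin_cases i <;> simp
  generalize P j = a at hj R0
  obtain ⟨c2, z2, R1⟩ := st0_top R0 hj
  obtain ⟨c1, z1, R2⟩ := st0_top (R1.trans (red_swap23 R1.1)) hj
  obtain ⟨c3, z3, R3⟩ := st0_top (R2.trans (red_swap13 R2.1)) hj
  obtain ⟨t1, t2, S, s1, -, s3, s4⟩ := projfin R3.1 (fun h => hj (by simp [h]))
  have R4 := st0_lin (R3.trans (red_swap13 R3.1)) 0 t1 0
  simp only [C_0, zero_mul, add_zero] at R4
  have R5 := R4.trans (red_swap13 R4.1)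
  have R6 := st0_lin (R5.trans (red_swap23 R5.1)) 0 0 t2
  simp only [C_0, zero_mul, add_zero] at R6
  have R7 := R6.trans (red_swap23 R6.1)
  have y1 : (c1 + C t1 * c3).coeff D = 0 := by simp [z1, z3]
  have y2 : (c2 + C t2 * c3).coeff D = 0 := by simp [z2, z3]
  generalize c1 + C t1 * c3 = b1 at *
  generalize c2 + C t2 * c3 = b2 at *
  have nz : ∀ u : k, (C (c3.eval u) + C (b1.eval u) * X + C (b2.eval u) * X ^ 2 : k[X]) ≠ 0 := by
    intro u h
    have e0 := congrArg (coeff · 0) h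
    have e1 := congrArg (coeff · 1) h
    have e2 := congrArg (coeff · 2) h
    simp [coeff_X, coeff_C] at e0 e1 e2
    refine R7.1.inj' u (a.eval u / a.coeff D) fun i => ?_
    fin_cases i <;> simp [hj, e0, e1, e2, y1, y2, z3]
  obtain ⟨ρ, hρ⟩ := Infinite.exists_notMem_finset (∏ u ∈ S,
    (C (c3.eval u) + C (b1.eval u) * X + C (b2.eval u) * X ^ 2 : k[X])).roots.toFinset
  rw [Multiset.mem_toFinset, mem_roots (Finset.prod_ne_zero_iff.2 fun u _ => nz u), IsRoot,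
    eval_prod, ← Ne, Finset.prod_ne_zero_iff] at hρ
  have R8 := st0_lin R7 0 ρ (ρ ^ 2)
  have y3 : (c3 + C 0 * a + C ρ * b1 + C (ρ ^ 2) * b2).coeff D = 0 := by
    simp only [coeff_add, coeff_C_mul, y1, y2, z3]
    ring
  have y4 : ∀ u ∈ S, (c3 + C 0 * a + C ρ * b1 + C (ρ ^ 2) * b2).eval u ≠ 0 := fun u hu h =>
    hρ u hu (by simp at h ⊢; linear_combination h)
  generalize c3 + C 0 * a + C ρ * b1 + C (ρ ^ 2) * b2 = y at R8 y3 y4
  obtain ⟨ξ, e, -, e0, e2, he⟩ := dir p hT S ∅ (fun u => y.eval u) y4 2 two_pos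
  obtain ⟨i, hi, hf⟩ := fix p hT (S.image fun u => y.eval u) e
  have q0 : p ^ i ≠ 0 := by omega
  have lt : e < D * p ^ i := hi.trans_le (Nat.le_mul_of_pos_left _ hG.pos)
  have dg : ((X - C ξ) ^ e : k[X]).natDegree = e := by simp
  have R9 := R8.trans (red_pow p R8.1 i)
  have v : ∀ u ∈ S, ((X - C ξ) ^ e : k[X]).eval u = (y ^ p ^ i).eval u := fun u hu => by
    rw [eval_pow, eval_pow, hf _ (Finset.mem_image_of_mem _ hu), ← he u hu]
    simp
  have ta := coeff_pow_top (R8.1.deg 0) (p ^ i)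
  have tb := coeff_pow_top (R8.1.deg 1) (p ^ i)
  have tc := coeff_pow_top (R8.1.deg 2) (p ^ i)
  have ty := coeff_pow_top (R8.1.deg 3) (p ^ i)
  simp only [Matrix.cons_val_zero, Matrix.cons_val_one, Matrix.cons_val] at ta tb tc ty
  have R10 := R9.trans (mv p R9.1 ((X - C ξ) ^ e) (by omega)
    (fun u => by simpa only [eval_pow, Ne, pow_eq_zero_iff q0] using s1 u) (Or.inl (by rw [ta]; exact pow_ne_zero _ hj))
    (fun u u' l hne h1 h2 h3 => by
      obtain ⟨l', hl⟩ := st0_root p i l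
      simp only [eval_pow] at h1 h2 h3
      obtain ⟨m1, m2⟩ := s3 u u' l' hne (hl _ _ h1) (hl _ _ h2) (hl _ _ h3)
      rw [v u m1, v u' m2])
    fun u l h1 h2 h3 => by
      obtain ⟨l', hl⟩ := st0_root p i l
      simp only [eval_pow, ta, tb, tc] at h1 h2 h3
      rw [v u (s4 u l' (hl _ _ h1) (hl _ _ h2) (hl _ _ h3)), ty, y3, zero_pow q0,
        coeff_eq_zero_of_natDegree_lt (by omega)])
  have R11 := R10.trans (red_taylor R10.1 ξ)
  rw [show ((X - C ξ) ^ e : k[X]).comp (X + C ξ) = X ^ e by simp] at R11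
  exact ⟨_, e, _, _, _, Nat.le_of_dvd e0 e2, lt, R11.trans (red_swap03 R11.1)⟩


end H62q

end PartSt0

section PartSt3

open Polynomial

namespace H62q

variable {k : Type} [Field k]

theorem st3_fv (K : ℕ) (c : k) {u : k} (hu : u ≠ 0) :
    fv K (1 + C c * X ^ (2 * K)) u = (u ^ K)⁻¹ + c * u ^ K := by
  unfold fv
  simp only [eval_add, eval_one, eval_mul, eval_C, eval_pow, eval_X]
  have h : u ^ K ≠ 0 := pow_ne_zero _ hu
  rw [mul_comm 2 K, pow_mul]
  field_simp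

theorem st3_inj (p : ℕ) [Fact p.Prime] [CharP k p] (i : ℕ) {u u' : k}
    (h : u ^ p ^ i = u' ^ p ^ i) : u = u' := by
  have h0 : (u - u') ^ p ^ i = 0 := by rw [sub_pow_char_pow, h, sub_self]
  exact sub_eq_zero.mp ((pow_eq_zero_iff (pow_ne_zero _ (Fact.out : p.Prime).ne_zero)).mp h0)

theorem st3_or {c U V : k} (hU : U ≠ 0) (hV : V ≠ 0) (h : U⁻¹ + c * U = V⁻¹ + c * V) :
    U = V ∨ c * U * V = 1 := by
  have h1 : (U - V) * (c * U * V - 1) = 0 := by
    have e1 : U * U⁻¹ = 1 := mul_inv_cancel₀ hU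
    have e2 : V * V⁻¹ = 1 := mul_inv_cancel₀ hV
    linear_combination U * V * h - V * e1 + U * e2
  rcases mul_eq_zero.mp h1 with h2 | h2
  · exact Or.inl (sub_eq_zero.mp h2)
  · exact Or.inr (sub_eq_zero.mp h2)

theorem st3_pair (p : ℕ) [Fact p.Prime] [CharP k p] (i : ℕ) {c u u' : k}
    (h : Pair (p ^ i) (1 + C c * X ^ (2 * p ^ i)) u u') :
    u ^ p ^ i ≠ u' ^ p ^ i ∧ c * u ^ p ^ i * u' ^ p ^ i = 1 := by
  obtain ⟨h1, h2, h3, h4⟩ := h
  have hne : u ^ p ^ i ≠ u' ^ p ^ i := fun e => h3 (st3_inj p i e)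
  rw [st3_fv _ _ h1, st3_fv _ _ h2] at h4
  rcases st3_or (pow_ne_zero _ h1) (pow_ne_zero _ h2) h4 with h5 | h5
  · exact absurd h5 hne
  · exact ⟨hne, h5⟩

theorem st3_same (p : ℕ) [Fact p.Prime] [CharP k p] (i : ℕ) {c u1 u1' u2 u2' : k} (hc : c ≠ 0)
    (h1 : Pair (p ^ i) (1 + C c * X ^ (2 * p ^ i)) u1 u1')
    (h2 : Pair (p ^ i) (1 + C c * X ^ (2 * p ^ i)) u2 u2')
    (h : fv (p ^ i) (1 + C c * X ^ (2 * p ^ i)) u1 = fv (p ^ i) (1 + C c * X ^ (2 * p ^ i)) u2) :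
    Same u1 u1' u2 u2' := by
  have e1 := (st3_pair p i h1).2
  have e2 := (st3_pair p i h2).2
  have n1 : u1 ^ p ^ i ≠ 0 := pow_ne_zero _ h1.1
  have n2 : u2 ^ p ^ i ≠ 0 := pow_ne_zero _ h2.1
  rw [st3_fv _ _ h1.1, st3_fv _ _ h2.1] at h
  rcases st3_or n1 n2 h with h5 | h5
  · refine Or.inl ⟨st3_inj p i h5, st3_inj p i ?_⟩
    rw [← h5] at e2
    exact mul_left_cancel₀ (mul_ne_zero hc n1) (e1.trans e2.symm)
  · refine Or.inr ⟨st3_inj p i ?_, st3_inj p i ?_⟩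
    · refine mul_left_cancel₀ (mul_ne_zero hc n2) ?_
      rw [e2]
      linear_combination h5
    · exact mul_left_cancel₀ (mul_ne_zero hc n1) (e1.trans h5.symm)

theorem st3_ne (p : ℕ) [Fact p.Prime] [CharP k p] (i : ℕ) {c r u u' : k} (hc : c ≠ 0)
    (hr : r * r = c) (h : Pair (p ^ i) (1 + C c * X ^ (2 * p ^ i)) u u') :
    fv (p ^ i) (1 + C c * X ^ (2 * p ^ i)) u - 2 * r ≠ 0 := by
  obtain ⟨hne, e⟩ := st3_pair p i h
  have n1 : u ^ p ^ i ≠ 0 := pow_ne_zero _ h.1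
  rw [st3_fv _ _ h.1]
  generalize u ^ p ^ i = U at hne e n1 ⊢
  generalize u' ^ p ^ i = V at hne e ⊢
  intro h0
  have e1 : U * U⁻¹ = 1 := mul_inv_cancel₀ n1
  have h1 : (1 - r * U) ^ 2 = 0 := by
    linear_combination U * h0 - e1 + U ^ 2 * hr
  have h2 : r * U = 1 := by
    have h3 := (pow_eq_zero_iff (two_ne_zero)).mp h1
    linear_combination -h3
  apply hne
  refine mul_left_cancel₀ (mul_ne_zero hc n1) ?_
  rw [e, ← hr]
  linear_combination (r * U + 1) * h2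

theorem st3_dd_swap (n : ℕ) (h : k[X]) (u u' : k) : dd n h u' u = -dd n h u u' := by
  unfold dd
  ring

theorem st3_w (p : ℕ) [Fact p.Prime] [CharP k p] (i : ℕ) {c : k} (hc : c ≠ 0) (n : ℕ) (h : k[X])
    (δ : k → k → k) (hδ : ∀ u u', δ u' u = -δ u u')
    (hδ0 : ∀ u u', Pair (p ^ i) (1 + C c * X ^ (2 * p ^ i)) u u' → δ u u' ≠ 0) :
    ∃ w : k → k, ∀ u u', Pair (p ^ i) (1 + C c * X ^ (2 * p ^ i)) u u' →
      w (fv (p ^ i) (1 + C c * X ^ (2 * p ^ i)) u) * δ u u' = dd n h u u' := by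
  have key : ∀ t : k, ∃ s : k, ∀ u u', Pair (p ^ i) (1 + C c * X ^ (2 * p ^ i)) u u' →
      fv (p ^ i) (1 + C c * X ^ (2 * p ^ i)) u = t → s * δ u u' = dd n h u u' := by
    intro t
    by_cases hex : ∃ v v', Pair (p ^ i) (1 + C c * X ^ (2 * p ^ i)) v v' ∧
        fv (p ^ i) (1 + C c * X ^ (2 * p ^ i)) v = t
    · obtain ⟨v, v', hv, hvt⟩ := hex
      refine ⟨dd n h v v' / δ v v', fun u u' hu hut => ?_⟩
      have hd := hδ0 v v' hv
      rcases st3_same p i hc hu hv (hut.trans hvt.symm) with ⟨a1, a2⟩ | ⟨a1, a2⟩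
      · rw [a1, a2]
        exact div_mul_cancel₀ _ hd
      · rw [a1, a2, hδ v v', st3_dd_swap n h v v', mul_neg, div_mul_cancel₀ _ hd]
    · exact ⟨0, fun u u' hu hut => absurd ⟨u, u', hu, hut⟩ hex⟩
  choose w hw using key
  exact ⟨w, fun u u' hu => hw _ u u' hu rfl⟩

theorem st3_atop {D0 K : ℕ} (hD : 3 ≤ D0) (hK : 0 < K) (c : k) :
    (1 + C c * X ^ (2 * K) : k[X]).coeff (D0 * K) = 0 := by
  have h1 : D0 * K ≠ 0 := by positivity
  have h2 : D0 * K ≠ 2 * K := by nlinarith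
  simp [coeff_one, coeff_X_pow, h1, h2]

theorem st3_pow_top (p : ℕ) [Fact p.Prime] {D0 i : ℕ} (hD : 3 ≤ D0) (c : k) (j : ℕ) :
    ((1 + C c * X ^ (2 * p ^ i) : k[X]) ^ p ^ j).coeff (D0 * p ^ i * p ^ j) = 0 := by
  have hp : 0 < p := (Fact.out : p.Prime).pos
  have hK : 0 < p ^ i := pow_pos hp _
  have hd : (1 + C c * X ^ (2 * p ^ i) : k[X]).natDegree ≤ D0 * p ^ i := by
    refine (natDegree_add_le _ _).trans (max_le (by simp) ?_)
    exact (natDegree_C_mul_X_pow_le c _).trans (Nat.mul_le_mul_right _ (by omega))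
  rw [coeff_pow_top hd, st3_atop hD hK, zero_pow (pow_ne_zero _ hp.ne')]

theorem st3_ev0 (p : ℕ) [Fact p.Prime] (i : ℕ) (c : k) :
    (1 + C c * X ^ (2 * p ^ i) : k[X]).eval 0 = 1 := by
  have hp : 0 < p := (Fact.out : p.Prime).pos
  have hK : 2 * p ^ i ≠ 0 := by positivity
  simp [hK]

theorem st3_last [IsAlgClosed k] (p : ℕ) [Fact p.Prime] [CharP k p] {D0 i j : ℕ} {c ξ : k}
    {xs z : k[X]} (hD : 3 ≤ D0) (hc : c ≠ 0)
    (hG : Good (D0 * p ^ i * p ^ j)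
      ![X ^ (p ^ i * p ^ j), (1 + C c * X ^ (2 * p ^ i)) ^ p ^ j, xs, z])
    (hx : xs.coeff (D0 * p ^ i * p ^ j) ≠ 0)
    (hn : ∀ u u', Pair (p ^ i) (1 + C c * X ^ (2 * p ^ i)) u u' →
      dd (p ^ i * p ^ j) xs u u' = 0 → fv (p ^ i) (1 + C c * X ^ (2 * p ^ i)) u = ξ) :
    Cut (D0 * p ^ i * p ^ j)
      ![X ^ (p ^ i * p ^ j), (1 + C c * X ^ (2 * p ^ i)) ^ p ^ j, xs, z] := by
  have hp : 0 < p := (Fact.out : p.Prime).pos
  have hK : 0 < p ^ i := pow_pos hp _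
  have hq : 0 < p ^ j := pow_pos hp _
  have hN : 0 < p ^ i * p ^ j := Nat.mul_pos hK hq
  have hND : p ^ i * p ^ j < D0 * p ^ i * p ^ j := by
    rw [mul_assoc]
    nlinarith
  have hδ0 : ∀ u u', Pair (p ^ i) (1 + C c * X ^ (2 * p ^ i)) u u' →
      dd (p ^ i * p ^ j) (1 : k[X]) u u' ≠ 0 := by
    intro u u' hu h0
    unfold dd fv at h0
    rw [eval_one, eval_one, sub_eq_zero, one_div, one_div, inv_inj, ← pow_add] at h0
    exact hu.2.2.1 (st3_inj p _ h0)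
  obtain ⟨w, hw⟩ := st3_w p i hc (p ^ i * p ^ j) z (dd (p ^ i * p ^ j) (1 : k[X]))
    (fun u u' => st3_dd_swap _ _ u u') hδ0
  have hl : ∃ l : k, l ≠ 0 ∧ ∀ u u', Pair (p ^ i) (1 + C c * X ^ (2 * p ^ i)) u u' →
      dd (p ^ i * p ^ j) xs u u' = 0 →
      l * dd (p ^ i * p ^ j) (1 : k[X]) u u' = dd (p ^ i * p ^ j) z u u' := by
    by_cases hex : ∃ v v', Pair (p ^ i) (1 + C c * X ^ (2 * p ^ i)) v v' ∧
        dd (p ^ i * p ^ j) xs v v' = 0
    · obtain ⟨v, v', hv, hv0⟩ := hex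
      refine ⟨w ξ, fun h0 => ?_, fun u u' hu hu0 => ?_⟩
      · have h1 := hw v v' hv
        rw [hn v v' hv hv0, h0, zero_mul] at h1
        rcases hG.pair_ne ((pair_pow p _ _ j v v').mpr hv) with h2 | h2
        · exact h2 hv0
        · exact h2 h1.symm
      · rw [← hn u u' hu hu0]
        exact hw u u' hu
    · exact ⟨1, one_ne_zero, fun u u' hu hu0 => absurd ⟨u, u', hu, hu0⟩ hex⟩
  obtain ⟨l, hl0, hl⟩ := hl
  have ha0 : ((1 + C c * X ^ (2 * p ^ i) : k[X]) ^ p ^ j).eval 0 = 1 := by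
    rw [eval_pow, st3_ev0, one_pow]
  have R1 := pmv p hG hN hND (by rw [ha0]; exact one_ne_zero) (Or.inr hx) (C l)
    (by simp)
    (fun u u' hu h0 => by
      rw [← hl u u' ((pair_pow p _ _ j u u').mp hu) h0]
      unfold dd fv
      simp only [eval_C, eval_one]
      ring)
    (fun t h0 _ => by
      rw [ha0, st3_pow_top p hD, mul_zero] at h0
      exact absurd h0 one_ne_zero)
  have R2 := red_swap13 R1.1
  apply R1.2
  apply R2.2
  have hG2 := R2.1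
  rw [← pow_add] at hG2 hND ⊢
  exact cut_end p hG2 hND hl0 hx

theorem st3_mid [IsAlgClosed k] (p : ℕ) [Fact p.Prime] [CharP k p] (hT : Tors k) {D0 i : ℕ}
    {c : k} {x y : k[X]} (hD : 3 ≤ D0) (hc : c ≠ 0)
    (hG : Good (D0 * p ^ i) ![X ^ p ^ i, 1 + C c * X ^ (2 * p ^ i), y, x])
    (hy : y.coeff (D0 * p ^ i) ≠ 0) (X3 : Finset k)
    (h3 : ∀ u u', Pair (p ^ i) (1 + C c * X ^ (2 * p ^ i)) u u' → dd (p ^ i) y u u' = 0 →
      fv (p ^ i) (1 + C c * X ^ (2 * p ^ i)) u ∈ X3) :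
    Cut (D0 * p ^ i) ![X ^ p ^ i, 1 + C c * X ^ (2 * p ^ i), y, x] := by
  classical
  have hp : 0 < p := (Fact.out : p.Prime).pos
  have hK : 0 < p ^ i := pow_pos hp _
  have ha0 : (1 + C c * X ^ (2 * p ^ i) : k[X]).eval 0 ≠ 0 := by
    rw [st3_ev0]
    exact one_ne_zero
  obtain ⟨r, hr⟩ := IsAlgClosed.exists_eq_mul_self c
  obtain ⟨n0, rfl⟩ : ∃ n0, D0 = n0 + 3 := ⟨D0 - 3, by omega⟩
  obtain ⟨w, hw⟩ := st3_w p i hc (p ^ i) x (fun u u' => u ^ p ^ i - u' ^ p ^ i)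
    (fun u u' => by ring) (fun u u' hu => sub_ne_zero.mpr (st3_pair p i hu).1)
  obtain ⟨m, hm, hmo⟩ := exists_order hT (X3.image fun t => t - 2 * r)
  obtain ⟨ξ, e, -, he, hme, hξ⟩ := dir p hT (X3.filter fun t => w t ≠ 0 ∧ t - 2 * r ≠ 0) ∅
    (fun t => w t / (t - 2 * r) ^ (n0 + 1))
    (fun t ht => div_ne_zero (Finset.mem_filter.mp ht).2.1
      (pow_ne_zero _ (Finset.mem_filter.mp ht).2.2)) m hm
  have hfin : {u : k | u ≠ 0 ∧ fv (p ^ i) (1 + C c * X ^ (2 * p ^ i)) u ∈ X3}.Finite := by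
    refine (X3.finite_toSet.biUnion fun t _ => fibre_finite hK ha0 t).subset ?_
    intro u hu
    exact Set.mem_biUnion hu.2 ⟨hu.1, rfl⟩
  obtain ⟨j, hj, hfix⟩ := fix p hT
    (((hfin.toFinset ×ˢ hfin.toFinset).image fun z => dd (p ^ i) x z.1 z.2) ∪
      X3.image fun t => t - 2 * r) e
  have hq : 0 < p ^ j := pow_pos hp _
  obtain ⟨s, hs⟩ : ∃ s, (n0 + 2) * p ^ j = e + s + 1 := ⟨(n0 + 2) * p ^ j - (e + 1), by
    have : e + 1 ≤ (n0 + 2) * p ^ j := by nlinarith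
    omega⟩
  have hmon : ((X - C ξ) ^ e * (X - C (2 * r)) ^ s : k[X]).Monic :=
    ((monic_X_sub_C ξ).pow e).mul ((monic_X_sub_C _).pow s)
  have hdeg : ((X - C ξ) ^ e * (X - C (2 * r)) ^ s : k[X]).natDegree = e + s := by
    rw [((monic_X_sub_C ξ).pow e).natDegree_mul ((monic_X_sub_C _).pow s), natDegree_pow,
      natDegree_pow, natDegree_X_sub_C, natDegree_X_sub_C, mul_one, mul_one]
  obtain ⟨R, hRd, hRc, hR⟩ := exists_R c (e + s) _ hdeg.le
  have hRc' : R.coeff (e + s + 1) ≠ 0 := by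
    rw [hRc, ← hdeg, hmon.coeff_natDegree, mul_one]
    exact pow_ne_zero _ hc
  have hlev : (n0 + 3) * p ^ i * p ^ j = (e + s + 1) * p ^ i + p ^ i * p ^ j := by
    rw [← hs]
    ring
  have hxd : (expand k (p ^ i) R * X ^ (p ^ i * p ^ j)).natDegree ≤ (n0 + 3) * p ^ i * p ^ j := by
    rw [hlev]
    refine natDegree_mul_le.trans (add_le_add ?_ (natDegree_X_pow_le _))
    rw [natDegree_expand]
    exact Nat.mul_le_mul_right _ hRd
  have hxc : (expand k (p ^ i) R * X ^ (p ^ i * p ^ j)).coeff ((n0 + 3) * p ^ i * p ^ j) ≠ 0 := by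
    rw [hlev, coeff_mul_X_pow, coeff_expand_mul hK]
    exact hRc'
  have hxe : ∀ u u', Pair (p ^ i) (1 + C c * X ^ (2 * p ^ i)) u u' →
      dd (p ^ i * p ^ j) (expand k (p ^ i) R * X ^ (p ^ i * p ^ j)) u u' =
        (fv (p ^ i) (1 + C c * X ^ (2 * p ^ i)) u - ξ) ^ e *
          (fv (p ^ i) (1 + C c * X ^ (2 * p ^ i)) u - 2 * r) ^ s * (u ^ p ^ i - u' ^ p ^ i) := by
    intro u u' hu
    have h4 := hu.2.2.2
    rw [st3_fv _ _ hu.1, st3_fv _ _ hu.2.1] at h4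
    have h5 := hR _ _ (pow_ne_zero _ hu.1) (pow_ne_zero _ hu.2.1) h4
    rw [st3_fv _ _ hu.1]
    simp only [eval_mul, eval_pow, eval_sub, eval_X, eval_C] at h5
    rw [← h5]
    unfold dd fv
    simp only [eval_mul, eval_pow, eval_X, expand_eval]
    rw [mul_div_cancel_right₀ _ (pow_ne_zero _ hu.1), mul_div_cancel_right₀ _ (pow_ne_zero _ hu.2.1)]
  have R1 := red_pow p hG j
  rw [← pow_mul] at R1
  have hN : 0 < p ^ i * p ^ j := Nat.mul_pos hK hq
  have hND : p ^ i * p ^ j < (n0 + 3) * p ^ i * p ^ j := by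
    rw [mul_assoc]
    nlinarith
  have ha1 : ((1 + C c * X ^ (2 * p ^ i) : k[X]) ^ p ^ j).eval 0 = 1 := by
    rw [eval_pow, st3_ev0, one_pow]
  have hyd : y.natDegree ≤ (n0 + 3) * p ^ i := hG.deg 2
  have R2 := pmv p R1.1 hN hND (by rw [ha1]; exact one_ne_zero)
    (Or.inr (by rw [coeff_pow_top hyd]; exact pow_ne_zero _ hy)) _ hxd
    (fun u u' hu h0 => by
      have hu1 := (pair_pow p _ _ j u u').mp hu
      rw [dd_pow, pow_eq_zero_iff hq.ne'] at h0
      have ht := h3 u u' hu1 h0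
      have ht' : fv (p ^ i) (1 + C c * X ^ (2 * p ^ i)) u' ∈ X3 := hu1.2.2.2 ▸ ht
      have hne := st3_ne p i hc hr.symm hu1
      have hdx : dd (p ^ i) x u u' ≠ 0 := (hG.pair_ne hu1).resolve_left (not_not.mpr h0)
      have hw1 := hw u u' hu1
      have f1 : dd (p ^ i) x u u' ^ p ^ j = dd (p ^ i) x u u' :=
        hfix _ (Finset.mem_union_left _ (Finset.mem_image.mpr ⟨(u, u'), Finset.mem_product.mpr
          ⟨hfin.mem_toFinset.mpr ⟨hu1.1, ht⟩, hfin.mem_toFinset.mpr ⟨hu1.2.1, ht'⟩⟩, rfl⟩))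
      rw [hxe u u' hu1, dd_pow, f1, ← hw1]
      generalize fv (p ^ i) (1 + C c * X ^ (2 * p ^ i)) u = t at ht hne hw1 ⊢
      have hw0 : w t ≠ 0 := fun h => hdx (by rw [← hw1, h, zero_mul])
      have f2 : (t - 2 * r) ^ p ^ j = t - 2 * r :=
        hfix _ (Finset.mem_union_right _ (Finset.mem_image_of_mem _ ht))
      have f3 : (t - 2 * r) ^ e = 1 := by
        obtain ⟨b, hb⟩ := hme
        rw [hb, pow_mul, hmo _ (Finset.mem_image_of_mem _ ht) hne, one_pow]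
      have f4 : (t - 2 * r) ^ s = (t - 2 * r) ^ (n0 + 1) := by
        refine mul_right_cancel₀ hne ?_
        have f5 : (t - 2 * r) ^ (e + s + 1) = (t - 2 * r) ^ (n0 + 2) := by
          rw [← hs, mul_comm (n0 + 2) (p ^ j), pow_mul, f2]
        rw [pow_succ, pow_add, f3, one_mul] at f5
        rw [f5, ← pow_succ]
      rw [hξ t (Finset.mem_filter.mpr ⟨ht, hw0, hne⟩), f4,
        div_mul_cancel₀ _ (pow_ne_zero _ hne)])
    (fun t h0 _ => by
      rw [ha1, st3_pow_top p hD, mul_zero] at h0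
      exact absurd h0 one_ne_zero)
  have R3 := red_swap23 R2.1
  apply R1.2
  apply R2.2
  apply R3.2
  refine st3_last p (ξ := ξ) hD hc R3.1 hxc fun u u' hu h0 => ?_
  rw [hxe u u' hu] at h0
  rcases mul_eq_zero.mp h0 with h1 | h1
  · rcases mul_eq_zero.mp h1 with h2 | h2
    · exact sub_eq_zero.mp ((pow_eq_zero_iff he.ne').mp h2)
    · exact absurd h2 (pow_ne_zero _ (st3_ne p i hc hr.symm hu))
  · exact absurd (sub_eq_zero.mp h1) (st3_pair p i hu).1

theorem st3 [IsAlgClosed k] (p : ℕ) [Fact p.Prime] [CharP k p] (hT : Tors k) {D0 i : ℕ} {c : k}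
    {x y : k[X]} (hD : 3 ≤ D0) (hc : c ≠ 0)
    (hG : Good (D0 * p ^ i) ![X ^ p ^ i, 1 + C c * X ^ (2 * p ^ i), x, y]) :
    Cut (D0 * p ^ i) ![X ^ p ^ i, 1 + C c * X ^ (2 * p ^ i), x, y] := by
  have hp : 0 < p := (Fact.out : p.Prime).pos
  have hK : 0 < p ^ i := pow_pos hp _
  have ha0 : (1 + C c * X ^ (2 * p ^ i) : k[X]).eval 0 ≠ 0 := by
    rw [st3_ev0]
    exact one_ne_zero
  obtain ⟨θ, hθ, X3, h3⟩ := nodefin hK ha0 y x (p ^ i) ∅
    {-y.coeff (D0 * p ^ i) / x.coeff (D0 * p ^ i)} fun u u' hu _ => (hG.pair_ne hu).symm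
  have htop : (y + C θ * x).coeff (D0 * p ^ i) ≠ 0 := by
    rw [coeff_add, coeff_C_mul]
    by_cases hx : x.coeff (D0 * p ^ i) = 0
    · rw [hx, mul_zero, add_zero]
      obtain ⟨t, ht⟩ := hG.top
      have hne : D0 * p ^ i ≠ p ^ i := by nlinarith
      fin_cases t
      · exact absurd (by simp [coeff_X_pow, hne]) ht
      · exact absurd (st3_atop hD hK c) ht
      · exact absurd hx ht
      · exact ht
    · intro h0
      apply hθ
      rw [Finset.mem_singleton, eq_div_iff hx]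
      linear_combination h0
  have R1 := red_lin hG 0 0 θ 1 one_ne_zero
  have e1 : (C 0 * X ^ p ^ i + C 0 * (1 + C c * X ^ (2 * p ^ i)) + C θ * x + C 1 * y : k[X]) =
      y + C θ * x := by
    rw [C_0, C_1]
    ring
  rw [e1] at R1
  have R2 := red_swap23 R1.1
  exact R1.2 (R2.2 (st3_mid p hT hD hc R2.1 htop X3 h3))

end H62q

end PartSt3

section PartMain

open Polynomial

namespace H62q

variable {k : Type} [Field k]

theorem cut_of_good [IsAlgClosed k] (p : ℕ) [Fact p.Prime] [CharP k p] (hT : Tors k) {D : ℕ}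
    {P : Fin 4 → k[X]} (hG : Good D P) : Cut D P := by
  have hp : p.Prime := Fact.out
  obtain ⟨D0, e, a, Y, Z, he, heD, r0⟩ := st0 p hT hG
  obtain ⟨i, a1, Y1, c, hc, r1⟩ := three p hT (j := 1) r0.1 (by omega) heD one_pos (by omega)
    (by omega) fun u u' _ _ _ h => by simpa using h
  have hq : 0 < p ^ i := pow_pos hp.pos i
  obtain ⟨ρ, hρ⟩ := IsAlgClosed.exists_pow_nat_eq (-c⁻¹) hq
  have r2 := red_taylor r1.1 ρ
  have r3 := red_lin r2.1 0 0 0 c⁻¹ (inv_ne_zero hc)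
  have e1 : C (0 : k) * (X ^ (e * p ^ i) : k[X]).comp (X + C ρ) + C 0 * a1.comp (X + C ρ) +
      C 0 * Y1.comp (X + C ρ) + C c⁻¹ * (1 + C c * X ^ (1 * p ^ i) : k[X]).comp (X + C ρ) =
      X ^ p ^ i := by
    have h1 : (C c⁻¹ : k[X]) * C c = 1 := by rw [← C_mul, inv_mul_cancel₀ hc, C_1]
    simp only [C_0, zero_mul, zero_add, one_mul, add_comp, one_comp, mul_comp, C_comp, pow_comp,
      X_comp]
    rw [add_pow_char_pow, ← C_pow, hρ, C_neg]
    linear_combination (X ^ p ^ i - C c⁻¹) * h1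
  rw [e1] at r3
  have r4 := red_swap03 r3.1
  obtain ⟨i2, a2, Y2, c2, hc2, r5⟩ := three p hT (j := 2 * p ^ i) r4.1 hq (by nlinarith)
    (by omega) (by nlinarith) (by omega) fun u u' _ _ h _ => H33s.pow_q_inj p i h
  have r6 := red_swap13 r5.1
  have r := (((((r0.trans r1).trans r2).trans r3).trans r4).trans r5).trans r6
  rw [mul_assoc, mul_assoc, ← pow_add] at r
  exact r.2 (st3 p hT (by omega) hc2 r.1)

theorem main_top (P : k[X]) (D : ℕ) :
    MvPolynomial.eval ![1, 0] (P.homogenize D) = P.coeff D := by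
  induction P using Polynomial.induction_on' with
  | add f g hf hg => rw [homogenize_add, map_add, hf, hg, coeff_add]
  | monomial m r =>
    rcases lt_trichotomy m D with h | rfl | h
    · rw [← C_mul_X_pow_eq_monomial, homogenize_C_mul, homogenize_X_pow h.le]
      simp [h.ne', Nat.sub_ne_zero_of_lt h]
    · rw [← C_mul_X_pow_eq_monomial, homogenize_C_mul, homogenize_X_pow le_rfl]
      simp
    · rw [homogenize_monomial_of_lt h, map_zero, coeff_monomial, if_neg h.ne']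

theorem main_smul {σ : Type} {f : MvPolynomial σ k} {D : ℕ} (hf : f.IsHomogeneous D) (c : k)
    (x : σ → k) : MvPolynomial.eval (c • x) f = c ^ D * MvPolynomial.eval x f := by
  rw [MvPolynomial.eval_eq, MvPolynomial.eval_eq, Finset.mul_sum]
  refine Finset.sum_congr rfl fun d hd => ?_
  rw [hf.degree_eq_sum_deg_support hd, ← Finset.prod_pow_eq_pow_sum, mul_left_comm,
    ← Finset.prod_mul_distrib]
  simp [mul_pow]

theorem main (p : ℕ) [Fact p.Prime] (D : ℕ) (hD : 0 < D)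
    (a : Fin 4 → MvPolynomial (Fin 2) (AlgebraicClosure (ZMod p)))
    (ha : ∀ i, (a i).IsHomogeneous D)
    (hb : ∀ x : Fin 2 → AlgebraicClosure (ZMod p), (∀ i, MvPolynomial.eval x (a i) = 0) → x = 0)
    (hi : ∀ (x y : Fin 2 → AlgebraicClosure (ZMod p)) (c : AlgebraicClosure (ZMod p)),
      x ≠ 0 → y ≠ 0 → (∀ i, MvPolynomial.eval x (a i) = c * MvPolynomial.eval y (a i)) →
      ∃ μ : AlgebraicClosure (ZMod p), x = μ • y) :
    ∃ (F G : MvPolynomial (Fin 4) (AlgebraicClosure (ZMod p))) (d e : ℕ), 0 < d ∧ 0 < e ∧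
      F ≠ 0 ∧ G ≠ 0 ∧ F.IsHomogeneous d ∧ G.IsHomogeneous e ∧
      ∀ z : Fin 4 → AlgebraicClosure (ZMod p),
        (MvPolynomial.eval z F = 0 ∧ MvPolynomial.eval z G = 0) ↔
          ∃ (c : AlgebraicClosure (ZMod p)) (x : Fin 2 → AlgebraicClosure (ZMod p)),
            x ≠ 0 ∧ ∀ i, z i = c * MvPolynomial.eval x (a i) := by
  set P : Fin 4 → (AlgebraicClosure (ZMod p))[X] := fun i => MvPolynomial.aeval ![X, 1] (a i)
  have h1 : ∀ i, (P i).homogenize D = a i := fun i => homogenize_eq_of_isHomogeneous (ha i) rfl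
  have h2 : ∀ i, (P i).natDegree ≤ D := fun i => by
    have := MvPolynomial.aeval_natDegree_le (n := 1) (a i) (ha i).totalDegree_le ![X, 1]
      fun j => by fin_cases j <;> simp
    rwa [mul_one] at this
  have h3 : ∀ i u, (P i).eval u = MvPolynomial.eval ![u, 1] (a i) := fun i u => by
    rw [← h1, eval_homogenize (h2 i) _ (by simp)]
    simp
  have h4 : ∀ i, (P i).coeff D = MvPolynomial.eval ![1, 0] (a i) := fun i => by
    rw [← h1, main_top]
  have n1 : ∀ u : AlgebraicClosure (ZMod p), ![u, 1] ≠ 0 := fun u h => by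
    simpa using congrFun h 1
  have n2 : (![1, 0] : Fin 2 → AlgebraicClosure (ZMod p)) ≠ 0 := fun h => by
    simpa using congrFun h 0
  have hG : Good D P := by
    refine ⟨hD, h2, ?_, fun u u' l h => ?_, fun u l h => ?_⟩
    · by_contra h
      push Not at h
      exact n2 (hb _ fun i => by rw [← h4, h])
    · obtain ⟨μ, hμ⟩ := hi _ _ l (n1 u) (n1 u') fun i => by rw [← h3, ← h3, h]
      have e0 := congrFun hμ 0
      have e1 := congrFun hμ 1
      simp at e0 e1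
      rw [e0, ← e1, one_mul]
    · obtain ⟨μ, hμ⟩ := hi _ _ l (n1 u) n2 fun i => by rw [← h3, ← h4, h]
      simpa using congrFun hμ 1
  obtain ⟨F, G, d, e, hd, he, hF, hG', hFd, hGe, hZ⟩ := cut_of_good p (tors_closure p) hG
  refine ⟨F, G, d, e, hd, he, hF, hG', hFd, hGe, fun z => ?_⟩
  have := Set.ext_iff.1 hZ z
  rw [Set.mem_ofPred_eq] at this
  rw [← this]
  simp only [H33s.cone, h1, Set.mem_range]
  constructor
  · rintro ⟨x, rfl⟩
    by_cases hx : x = 0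
    · refine ⟨0, ![1, 0], n2, fun i => ?_⟩
      have h := main_smul (ha i) 0 ![1, 0]
      rwa [zero_smul, zero_pow hD.ne', ← hx] at h
    · exact ⟨1, x, hx, fun i => (one_mul _).symm⟩
  · rintro ⟨c, x, -, h⟩
    obtain ⟨μ, rfl⟩ := IsAlgClosed.exists_pow_nat_eq c hD
    exact ⟨μ • x, funext fun i => by rw [main_smul (ha i), h]⟩

end H62q

end PartMain
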